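import Mathlib

/-!
Definitions for the question on sequential group topologies of intermediate sequential order.
-/

namespace Pool.Agent.Lib.MP_37efd7_lc

open Topology Filter Ordinal

/-- `seqLim A` is the set `[A]'` of limits of convergent sequences of points of `A`. -/
def seqLim {X : Type*} [TopologicalSpace X] (A : Set X) : Set X :=
  {x | ∃ u : ℕ → X, (∀ n, u n ∈ A) ∧ Tendsto u atTop (𝓝 x)}

/-- `seqIter A α` is the iterated sequential closure `[A]_α`: `[A]_0 = A`,
`[A]_{α+1} = ([A]_α)'`, and `[A]_α` is the union of the earlier ones for limit `α`. -/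
noncomputable def seqIter {X : Type*} [TopologicalSpace X] (A : Set X) (α : Ordinal.{0}) :
    Set X :=
  Ordinal.limitRecOn α A (fun _ B => seqLim B) (fun α _ f => ⋃ β : Set.Iio α, f β.1 β.2)

/-- `X` is sequential: `[A]_{ω₁}` is the closure of `A`, for every `A ⊆ X`. -/
def IsSequential (X : Type*) [TopologicalSpace X] : Prop :=
  ∀ A : Set X, seqIter A (ω_ 1) = closure A

/-- The sequential order of `X`: the least `α` such that `[A]_α` is the closure of `A`
for every `A ⊆ X`. -/
noncomputable def seqOrder (X : Type*) [TopologicalSpace X] : Ordinal.{0} :=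
  sInf {α | ∀ A : Set X, seqIter A α = closure A}

/-- `G` is topologizable: it admits a non-discrete Hausdorff group topology. -/
def Topologizable (G : Type*) [Group G] : Prop :=
  ∃ t : TopologicalSpace G, IsTopologicalGroup G ∧ T2Space G ∧ ¬ DiscreteTopology G

/-- `G` admits a (Hausdorff) sequential group topology of intermediate sequential order. -/
def AdmitsIntermediate (G : Type*) [Group G] : Prop :=
  ∃ t : TopologicalSpace G, IsTopologicalGroup G ∧ T2Space G ∧ IsSequential G ∧
    1 < seqOrder G ∧ seqOrder G < ω_ 1

end Pool.Agent.Lib.MP_37efd7_lc
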