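import Mathlib

/-!
# A group of level-preserving block permutations of `ℕ → Fin 3`
-/

namespace Pool.Agent.NoConvSeq

open Equiv

/-- the alphabet -/
abbrev A : Type := Fin 3

/-- infinite words -/
abbrev X : Type := ℕ → A

/-- `z` and `w` agree on the first `N` coordinates -/
def agree (N : ℕ) (z w : X) : Prop := ∀ i < N, z i = w i

/-- the shift by `L` -/
def shift (L : ℕ) (z : X) : X := fun i => z (i + L)

theorem apply_inv (g : Perm X) (z : X) : g (g⁻¹ z) = z := g.apply_symm_apply z

theorem agree.refl (N : ℕ) (z : X) : agree N z z := fun _ _ => rfl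

theorem agree.symm {N : ℕ} {z w : X} (h : agree N z w) : agree N w z := fun i hi => (h i hi).symm

theorem agree.trans {N : ℕ} {z w v : X} (h : agree N z w) (h' : agree N w v) : agree N z v :=
  fun i hi => (h i hi).trans (h' i hi)

theorem agree.mono {N M : ℕ} {z w : X} (h : agree N z w) (hM : M ≤ N) : agree M z w :=
  fun i hi => h i (lt_of_lt_of_le hi hM)

theorem commute_shift_mul {g : X → X} {L : ℕ} (hg : ∀ z, g (shift L z) = shift L (g z)) (k : ℕ) :
    ∀ z, g (shift (k * L) z) = shift (k * L) (g z) := by
  have e : ∀ k z, shift ((k + 1) * L) z = shift L (shift (k * L) z) := by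
    intro k z
    funext i
    simp only [shift]
    congr 1
    ring
  induction k with
  | zero =>
    intro z
    have : ∀ w : X, shift (0 * L) w = w := by
      intro w; funext i; simp [shift]
    rw [this, this]
  | succ k ih =>
    intro z
    rw [e, hg, ih, e]

/-- The group of level-preserving permutations commuting with some shift. -/
def Γ : Subgroup (Perm X) where
  carrier := {g | (∀ N z w, agree N (g z) (g w) ↔ agree N z w) ∧
    ∃ L, 0 < L ∧ ∀ z, g (shift L z) = shift L (g z)}
  mul_mem' := by
    rintro g h ⟨hg, L, hL, hgL⟩ ⟨hh, K, hK, hhK⟩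
    refine ⟨fun N z w => ?_, K * L, Nat.mul_pos hK hL, fun z => ?_⟩
    · rw [Perm.mul_apply, Perm.mul_apply, hg, hh]
    · have h1 := commute_shift_mul hgL K
      have h2 := commute_shift_mul hhK L
      rw [mul_comm L K] at h2
      rw [Perm.mul_apply, Perm.mul_apply, h2, h1]
  one_mem' := ⟨fun _ _ _ => Iff.rfl, 1, one_pos, fun _ => rfl⟩
  inv_mem' := by
    rintro g ⟨hg, L, hL, hgL⟩
    refine ⟨fun N z w => ?_, L, hL, fun z => ?_⟩
    · rw [← hg, apply_inv, apply_inv]
    · apply g.injective
      rw [hgL, apply_inv, apply_inv]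

/-- Two maps commuting with a shift and agreeing on the first block are equal. -/
theorem eq_of_first_block {f g : X → X} {L : ℕ} (hL : 0 < L)
    (hf : ∀ z, f (shift L z) = shift L (f z)) (hg : ∀ z, g (shift L z) = shift L (g z))
    (h : ∀ z, agree L (f z) (g z)) : f = g := by
  funext z i
  have h1 := congrFun (commute_shift_mul hf (i / L) z) (i % L)
  have h2 := congrFun (commute_shift_mul hg (i / L) z) (i % L)
  have h3 := h (shift (i / L * L) z) (i % L) (Nat.mod_lt i hL)
  simp only [shift] at h1 h2
  have h4 : i % L + i / L * L = i := by rw [mul_comm]; exact Nat.mod_add_div i L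
  rw [h4] at h1 h2
  rw [← h1, ← h2]
  exact h3

/-- The marker map: in each block of length `L`, if the first `M` letters spell `p`, apply `h` to
letter number `M`. -/
def mark (M L : ℕ) (p : X) (h : A → A) (z : X) : X := fun i =>
  if i % L = M ∧ ∀ t < M, z (i - M + t) = p t then h (z i) else z i

theorem mark_head {M L : ℕ} (hML : M < L) (p : X) (h : A → A) (z : X) (i : ℕ) (hi : i % L = M)
    (t : ℕ) (ht : t < M) : mark M L p h z (i - M + t) = z (i - M + t) := by
  have hiM : M ≤ i := hi ▸ Nat.mod_le i L
  have h1 : (i - M + t) % L = t := by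
    have h2 : i = i / L * L + M := by
      conv_lhs => rw [← Nat.div_add_mod i L, hi, mul_comm]
    have h3 : i - M + t = t + i / L * L := by omega
    rw [h3, Nat.add_mul_mod_self_right, Nat.mod_eq_of_lt (ht.trans hML)]
  have h4 : ¬ ((i - M + t) % L = M ∧ ∀ t' < M, z (i - M + t - M + t') = p t') := by
    rintro ⟨h5, -⟩
    omega
  simp only [mark, if_neg h4]

theorem mark_mark {M L : ℕ} (hML : M < L) (p : X) (h h' : A → A) (z : X) :
    mark M L p h (mark M L p h' z) = mark M L p (h ∘ h') z := by
  funext i
  by_cases hi : i % L = M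
  · have e : (∀ t < M, mark M L p h' z (i - M + t) = p t) ↔ ∀ t < M, z (i - M + t) = p t := by
      constructor
      · intro H t ht
        rw [← mark_head hML p h' z i hi t ht]
        exact H t ht
      · intro H t ht
        rw [mark_head hML p h' z i hi t ht]
        exact H t ht
    by_cases hc : ∀ t < M, z (i - M + t) = p t
    · have e1 : mark M L p h (mark M L p h' z) i = h (mark M L p h' z i) :=
        if_pos ⟨hi, e.2 hc⟩
      have e2 : mark M L p h' z i = h' (z i) := if_pos ⟨hi, hc⟩
      have e3 : mark M L p (h ∘ h') z i = (h ∘ h') (z i) := if_pos ⟨hi, hc⟩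
      rw [e1, e2, e3]
      rfl
    · have e1 : mark M L p h (mark M L p h' z) i = mark M L p h' z i :=
        if_neg fun H => hc (e.1 H.2)
      have e2 : mark M L p h' z i = z i := if_neg fun H => hc H.2
      have e3 : mark M L p (h ∘ h') z i = z i := if_neg fun H => hc H.2
      rw [e1, e2, e3]
  · have e1 : mark M L p h (mark M L p h' z) i = mark M L p h' z i := if_neg fun H => hi H.1
    have e2 : mark M L p h' z i = z i := if_neg fun H => hi H.1
    have e3 : mark M L p (h ∘ h') z i = z i := if_neg fun H => hi H.1
    rw [e1, e2, e3]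

theorem mark_id (M L : ℕ) (p : X) (z : X) : mark M L p id z = z := by
  funext i
  simp [mark]

/-- the marker permutation -/
def markPerm {M L : ℕ} (hML : M < L) (p : X) (h : Perm A) : Perm X where
  toFun := mark M L p h
  invFun := mark M L p h.symm
  left_inv z := by
    rw [mark_mark hML]
    have : (h.symm : A → A) ∘ h = id := by funext x; simp
    rw [this, mark_id]
  right_inv z := by
    rw [mark_mark hML]
    have : (h : A → A) ∘ h.symm = id := by funext x; simp
    rw [this, mark_id]

theorem mark_agree {M L : ℕ} (p : X) (h : A → A) (N : ℕ) (z w : X)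
    (hzw : agree N z w) : agree N (mark M L p h z) (mark M L p h w) := by
  intro i hi
  have e : (i % L = M ∧ ∀ t < M, z (i - M + t) = p t) ↔
      (i % L = M ∧ ∀ t < M, w (i - M + t) = p t) := by
    refine and_congr_right fun hM => ?_
    have hiM : M ≤ i := hM ▸ Nat.mod_le i L
    refine forall₂_congr fun t ht => ?_
    rw [hzw (i - M + t) (by omega)]
  by_cases hc : (i % L = M ∧ ∀ t < M, z (i - M + t) = p t)
  · have e1 : mark M L p h z i = h (z i) := if_pos hc
    have e2 : mark M L p h w i = h (w i) := if_pos (e.1 hc)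
    rw [e1, e2, hzw i hi]
  · have e1 : mark M L p h z i = z i := if_neg hc
    have e2 : mark M L p h w i = w i := if_neg fun H => hc (e.2 H)
    rw [e1, e2, hzw i hi]

theorem mark_shift {M L : ℕ} (_ : M < L) (p : X) (h : A → A) (z : X) :
    mark M L p h (shift L z) = shift L (mark M L p h z) := by
  funext i
  have e : (i % L = M ∧ ∀ t < M, shift L z (i - M + t) = p t) ↔
      ((i + L) % L = M ∧ ∀ t < M, z (i + L - M + t) = p t) := by
    rw [Nat.add_mod_right]
    refine and_congr_right fun hM => ?_
    have hiM : M ≤ i := hM ▸ Nat.mod_le i L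
    refine forall₂_congr fun t ht => ?_
    have : i - M + t + L = i + L - M + t := by omega
    simp only [shift, this]
  by_cases hc : (i % L = M ∧ ∀ t < M, shift L z (i - M + t) = p t)
  · have e1 : mark M L p h (shift L z) i = h (shift L z i) := if_pos hc
    have e2 : mark M L p h z (i + L) = h (z (i + L)) := if_pos (e.1 hc)
    rw [e1]
    simp only [shift]
    rw [e2]
  · have e1 : mark M L p h (shift L z) i = shift L z i := if_neg hc
    have e2 : mark M L p h z (i + L) = z (i + L) := if_neg fun H => hc (e.2 H)
    rw [e1]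
    simp only [shift]
    rw [e2]

theorem mark_of_not_agree {M L : ℕ} (p : X) (h : A → A) (z : X) (hz : ¬ agree M z p) :
    agree L (mark M L p h z) z := by
  intro i hi
  refine if_neg ?_
  rintro ⟨h1, h2⟩
  rw [Nat.mod_eq_of_lt hi] at h1
  subst h1
  apply hz
  intro t ht
  have := h2 t ht
  rwa [Nat.sub_self, Nat.zero_add] at this

theorem mark_agree_self {M L : ℕ} (hML : M < L) (p : X) (h : A → A) (z : X) :
    agree M (mark M L p h z) z := by
  intro i hi
  refine if_neg ?_
  rintro ⟨h1, -⟩
  rw [Nat.mod_eq_of_lt (hi.trans hML)] at h1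
  omega

theorem mark_apply {M L : ℕ} (hML : M < L) (p : X) (h : A → A) (z : X) (hz : agree M z p) :
    mark M L p h z M = h (z M) := by
  refine if_pos ⟨Nat.mod_eq_of_lt hML, fun t ht => ?_⟩
  rw [Nat.sub_self, Nat.zero_add]
  exact hz t ht

theorem markPerm_mem {M L : ℕ} (hML : M < L) (p : X) (h : Perm A) : markPerm hML p h ∈ Γ := by
  refine ⟨fun N z w => ⟨fun H => ?_, mark_agree p h N z w⟩, L, by omega, mark_shift hML p h⟩
  have := mark_agree (M := M) (L := L) p h.symm N _ _ H
  have e : ∀ z, mark M L p h.symm (markPerm hML p h z) = z := (markPerm hML p h).left_inv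
  rwa [e, e] at this

/-- The key property of `Γ`: for every finite set `F` of nonidentity elements there are
noncommuting `a`, `b` such that `a` commutes with `x b x⁻¹` for all `x ∈ F`. -/
theorem exists_separating (F : Finset Γ) (hF : (1 : Γ) ∉ F) :
    ∃ a b : Γ, (∀ x ∈ F, a * (x * b * x⁻¹) = (x * b * x⁻¹) * a) ∧ a * b ≠ b * a := by
  classical
  -- a common shift
  have hL : ∃ L, 0 < L ∧ ∀ x ∈ F, ∀ z, x.1 (shift L z) = shift L (x.1 z) := by
    clear hF
    induction F using Finset.induction_on with
    | empty => exact ⟨1, one_pos, by simp⟩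
    | insert y F hy ih =>
      obtain ⟨L, hL, hLF⟩ := ih
      obtain ⟨-, K, hK, hKy⟩ := y.2
      refine ⟨K * L, Nat.mul_pos hK hL, ?_⟩
      intro x hx
      rcases Finset.mem_insert.1 hx with rfl | hx
      · rw [mul_comm]
        exact commute_shift_mul hKy L
      · exact commute_shift_mul (hLF x hx) K
  obtain ⟨L, hL, hLF⟩ := hL
  -- every element of `F` moves something in the first block
  have hmove : ∀ x ∈ F, ∃ z : X, ¬ agree L (x.1 z) z := by
    intro x hx
    by_contra hcon
    push Not at hcon
    have : (x.1 : X → X) = id := eq_of_first_block hL (hLF x hx) (fun _ => rfl) hcon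
    apply hF
    have hx1 : x = 1 := by
      apply Subtype.ext
      ext z : 1
      exact congrFun this z
    rwa [hx1] at hx
  choose! Z hZ using hmove
  -- the concatenated word
  obtain ⟨e⟩ : Nonempty (F ≃ Fin F.card) := ⟨F.equivFin⟩
  let k := F.card
  let p : X := fun i => if h : i / L < k then Z (e.symm ⟨i / L, h⟩) (i % L) else 0
  let M := k * L
  let L' := (k + 1) * L
  have hML : M < L' := by
    simp only [M, L']
    exact Nat.mul_lt_mul_of_pos_right (Nat.lt_succ_self k) hL
  have hp : ∀ x ∈ F, ¬ agree M (x.1 p) p := by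
    intro x hx hcon
    apply hZ x hx
    let j := (e ⟨x, hx⟩).1
    have hj : j < k := (e ⟨x, hx⟩).2
    have hagr : agree L (shift (j * L) p) (Z x) := by
      intro i hi
      have h1 : (i + j * L) / L = j := by
        rw [Nat.add_mul_div_right _ _ hL, Nat.div_eq_of_lt hi, Nat.zero_add]
      have h2 : (i + j * L) % L = i := by
        rw [Nat.add_mul_mod_self_right, Nat.mod_eq_of_lt hi]
      have h3 : (i + j * L) / L < k := by rw [h1]; exact hj
      have h4 : p (i + j * L) = Z (e.symm ⟨(i + j * L) / L, h3⟩) ((i + j * L) % L) :=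
        dif_pos h3
      have h5 : (⟨(i + j * L) / L, h3⟩ : Fin k) = e ⟨x, hx⟩ := Fin.ext h1
      rw [h5, Equiv.symm_apply_apply, h2] at h4
      exact h4
    have h1 : agree L (x.1 (shift (j * L) p)) (x.1 (Z x)) := (x.2.1 L _ _).2 hagr
    rw [commute_shift_mul (hLF x hx) j] at h1
    have h2 : agree L (shift (j * L) (x.1 p)) (shift (j * L) p) := by
      intro i hi
      apply hcon
      simp only [M]
      calc i + j * L < L + j * L := by omega
        _ = (j + 1) * L := by ring
        _ ≤ k * L := Nat.mul_le_mul_right L hj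
    exact (h1.symm.trans h2).trans hagr
  let h₁ : Perm A := Equiv.swap 0 1
  let h₂ : Perm A := Equiv.swap 1 2
  refine ⟨⟨markPerm hML p h₁, markPerm_mem hML p h₁⟩, ⟨markPerm hML p h₂, markPerm_mem hML p h₂⟩,
    ?_, ?_⟩
  · intro x hx
    have hxL' : ∀ z, x.1 (shift L' z) = shift L' (x.1 z) := commute_shift_mul (hLF x hx) (k + 1)
    have hxinv : ∀ z, (x.1)⁻¹ (shift L' z) = shift L' ((x.1)⁻¹ z) := by
      intro z
      apply x.1.injective
      rw [hxL', apply_inv, apply_inv]
    let c : X → X := fun z => x.1 (mark M L' p h₂ ((x.1)⁻¹ z))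
    have hc1 : ∀ z, ¬ agree M z (x.1 p) → agree L' (c z) z := by
      intro z hz
      have h1 : ¬ agree M ((x.1)⁻¹ z) p := by
        intro h
        apply hz
        have := (x.2.1 M _ _).2 h
        rwa [apply_inv] at this
      have h2 := mark_of_not_agree (L := L') p h₂ _ h1
      have h3 := (x.2.1 L' _ _).2 h2
      rwa [apply_inv] at h3
    have hc2 : ∀ z, agree M (c z) z := by
      intro z
      have h2 := mark_agree_self hML p h₂ ((x.1)⁻¹ z)
      have h3 := (x.2.1 M _ _).2 h2
      rwa [apply_inv] at h3
    have hc3 : ∀ z w, agree L' z w → agree L' (c z) (c w) := by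
      intro z w hzw
      apply (x.2.1 L' _ _).2
      apply mark_agree
      rw [← x.2.1 L', apply_inv, apply_inv]
      exact hzw
    have hc4 : ∀ z, c (shift L' z) = shift L' (c z) := by
      intro z
      simp only [c]
      rw [hxinv, mark_shift hML, hxL']
    have hcomm : (fun z => mark M L' p h₁ (c z)) = fun z => c (mark M L' p h₁ z) := by
      refine eq_of_first_block (L := L') (by omega) (fun z => ?_) (fun z => ?_) (fun z => ?_)
      · simp only [hc4, mark_shift hML]
      · simp only [hc4, mark_shift hML]
      · by_cases hz : agree M z p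
        · -- `c` does nothing on the first block
          have h1 : agree L' (c z) z := by
            apply hc1
            intro h
            exact hp x hx (h.symm.trans hz)
          have h2 : agree L' (c (mark M L' p h₁ z)) (mark M L' p h₁ z) := by
            apply hc1
            intro h
            exact hp x hx (h.symm.trans ((mark_agree_self hML p h₁ z).trans hz))
          exact (mark_agree p h₁ L' _ _ h1).trans h2.symm
        · have h1 : agree L' (mark M L' p h₁ z) z := mark_of_not_agree p h₁ z hz
          have h2 : agree L' (mark M L' p h₁ (c z)) (c z) := by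
            apply mark_of_not_agree
            intro h
            exact hz ((hc2 z).symm.trans h)
          exact h2.trans (hc3 _ _ h1).symm
    apply Subtype.ext
    ext z : 1
    exact congrFun hcomm z
  · intro hcon
    let z : X := fun i => if i = M then 0 else p i
    have hz : agree M z p := fun i hi => if_neg hi.ne
    have hzM : z M = 0 := if_pos rfl
    have h1 := congrFun (congrArg (fun g : Γ => (g.1 z)) hcon) M
    have e1 : mark M L' p h₁ (mark M L' p h₂ z) M = mark M L' p h₂ (mark M L' p h₁ z) M := h1
    rw [mark_apply hML p h₁ _ ((mark_agree_self hML p h₂ z).trans hz),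
      mark_apply hML p h₂ _ hz,
      mark_apply hML p h₂ _ ((mark_agree_self hML p h₁ z).trans hz),
      mark_apply hML p h₁ _ hz, hzM] at e1
    revert e1
    decide

/-- The normal subgroups of elements acting trivially on the first `N` letters. -/
def NN (N : ℕ) : Subgroup Γ where
  carrier := {g | ∀ z, agree N (g.1 z) z}
  mul_mem' := by
    intro g h hg hh z
    exact (hg (h.1 z)).trans (hh z)
  one_mem' := fun z => agree.refl N z
  inv_mem' := by
    intro g hg z
    have := hg ((g.1)⁻¹ z)
    rw [apply_inv] at this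
    exact this.symm

theorem NN_conj (N : ℕ) (g x : Γ) (hg : g ∈ NN N) : x * g * x⁻¹ ∈ NN N := by
  intro z
  have h1 := hg ((x.1)⁻¹ z)
  have h2 := (x.2.1 N _ _).2 h1
  rw [apply_inv] at h2
  exact h2

theorem NN_anti {N M : ℕ} (h : N ≤ M) : NN M ≤ NN N := fun _ hg z => (hg z).mono h

theorem exists_not_mem_NN (g : Γ) (hg : g ≠ 1) : ∃ N, g ∉ NN N := by
  by_contra hcon
  push Not at hcon
  apply hg
  apply Subtype.ext
  ext z : 1
  funext i
  exact hcon (i + 1) z i (Nat.lt_succ_self i)

theorem exists_mem_NN (N : ℕ) : ∃ g ∈ NN N, g ≠ 1 := by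
  let p : X := fun _ => 0
  have hML : N < N + 1 := Nat.lt_succ_self N
  refine ⟨⟨markPerm hML p (Equiv.swap 0 1), markPerm_mem hML p _⟩,
    mark_agree_self hML p _, ?_⟩
  intro hcon
  have h1 := congrFun (congrArg (fun g : Γ => (g.1 p)) hcon) N
  have e1 : mark N (N + 1) p (Equiv.swap 0 1 : Perm A) p N = p N := h1
  rw [mark_apply hML p _ p (agree.refl N p)] at e1
  revert e1
  decide

end Pool.Agent.NoConvSeq
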