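import Mathlib
import Pool.Agent.Lib.MP_37efd7_lc.Block

/-!
# The ultrapower of `Γ`
-/

namespace Pool.Agent.NoConvSeq

open Filter Topology

/-- the free ultrafilter used for the ultrapower -/
noncomputable abbrev uf : Filter ℕ := (Filter.hyperfilter ℕ : Filter ℕ)

/-- the ultrapower of `Γ` -/
abbrev G : Type := Filter.Germ uf Γ

theorem eventually_or {p : ℕ → Prop} : (∀ᶠ k in uf, p k) ∨ ∀ᶠ k in uf, ¬ p k := by
  by_cases h : ∀ᶠ k in uf, p k
  · exact Or.inl h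
  · right
    exact Ultrafilter.eventually_not.2 h

theorem eventually_ge (n : ℕ) : ∀ᶠ k in uf, n ≤ k := by
  have h : ∀ᶠ k in Filter.atTop, n ≤ k := Filter.eventually_ge_atTop n
  rw [← Nat.cofinite_eq_atTop] at h
  exact (Filter.hyperfilter_le_cofinite (α := ℕ)) h

theorem coe_eq_one_iff (x : ℕ → Γ) : ((x : ℕ → Γ) : G) = 1 ↔ ∀ᶠ k in uf, x k = 1 := by
  rw [← Filter.Germ.coe_one, Filter.Germ.coe_eq]
  rfl

/-- `ℵ₁`-saturation applied to the key property of `Γ`. -/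
theorem exists_sat (y : ℕ → G) : ∃ a b : G,
    (∀ n, y n ≠ 1 → a * (y n * b * (y n)⁻¹) = (y n * b * (y n)⁻¹) * a) ∧ a * b ≠ b * a := by
  classical
  have hrep : ∀ n, ∃ Y : ℕ → Γ, (Y : G) = y n := by
    intro n
    induction y n using Filter.Germ.inductionOn with
    | _ Y => exact ⟨Y, rfl⟩
  choose Y hY using hrep
  let F : ℕ → Finset Γ := fun k => (Finset.image (fun n => Y n k) (Finset.range (k + 1))).erase 1
  have hF : ∀ k, (1 : Γ) ∉ F k := fun k => Finset.notMem_erase 1 _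
  choose a b hab hne using fun k => exists_separating (F k) (hF k)
  refine ⟨(a : G), (b : G), ?_, ?_⟩
  · intro n hn
    rw [← hY n] at hn ⊢
    rw [Ne, coe_eq_one_iff] at hn
    have h1 : ∀ᶠ k in uf, Y n k ≠ 1 := Ultrafilter.eventually_not.2 hn
    have h2 : ∀ᶠ k in uf, Y n k ∈ F k := by
      filter_upwards [h1, eventually_ge n] with k hk1 hk2
      refine Finset.mem_erase.2 ⟨hk1, Finset.mem_image.2 ⟨n, ?_, rfl⟩⟩
      exact Finset.mem_range.2 (Nat.lt_succ_of_le hk2)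
    simp only [← Filter.Germ.coe_mul, ← Filter.Germ.coe_inv]
    rw [Filter.Germ.coe_eq]
    filter_upwards [h2] with k hk
    exact hab k _ hk
  · intro hcon
    simp only [← Filter.Germ.coe_mul] at hcon
    rw [Filter.Germ.coe_eq] at hcon
    obtain ⟨k, hk⟩ := hcon.exists
    exact hne k hk

/-- In every Hausdorff group topology on `G` convergent sequences are eventually constant. -/
theorem eventually_const (τ : TopologicalSpace G) (hG : IsTopologicalGroup G) (hT : T2Space G)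
    (u : ℕ → G) (g : G) (hu : Tendsto u atTop (𝓝 g)) : ∀ᶠ n in atTop, u n = g := by
  obtain ⟨a, b, hab, hne⟩ := exists_sat (fun n => g⁻¹ * u n)
  have hv : Tendsto (fun n => g⁻¹ * u n) atTop (𝓝 1) := by
    have := hu.const_mul g⁻¹
    rwa [inv_mul_cancel] at this
  have hclosed : IsClosed {v : G | a * (v * b * v⁻¹) = (v * b * v⁻¹) * a} :=
    isClosed_eq (by fun_prop) (by fun_prop)
  by_contra hcon
  rw [Filter.not_eventually] at hcon
  have hfreq : ∃ᶠ n in atTop, g⁻¹ * u n ∈ {v : G | a * (v * b * v⁻¹) = (v * b * v⁻¹) * a} := by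
    refine hcon.mono fun n hn => hab n fun h => hn ?_
    exact (inv_mul_eq_one.1 h).symm
  have h1 : (1 : G) ∈ {v : G | a * (v * b * v⁻¹) = (v * b * v⁻¹) * a} :=
    hclosed.mem_of_frequently_of_tendsto hfreq hv
  apply hne
  simpa using h1

/-- the subgroups giving a group topology -/
def UU (κ : ℕ → ℕ) : Set G := {g | ∃ x : ℕ → Γ, (x : G) = g ∧ ∀ᶠ k in uf, x k ∈ NN (κ k)}

theorem mem_UU_coe (κ : ℕ → ℕ) (x : ℕ → Γ) : (x : G) ∈ UU κ ↔ ∀ᶠ k in uf, x k ∈ NN (κ k) := by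
  constructor
  · rintro ⟨y, hy, hyκ⟩
    rw [Filter.Germ.coe_eq] at hy
    filter_upwards [hy, hyκ] with k h1 h2
    rwa [← h1]
  · intro h
    exact ⟨x, rfl, h⟩

theorem UU_one (κ : ℕ → ℕ) : (1 : G) ∈ UU κ :=
  ⟨1, rfl, Eventually.of_forall fun _ => Subgroup.one_mem _⟩

theorem UU_mul (κ : ℕ → ℕ) {g h : G} (hg : g ∈ UU κ) (hh : h ∈ UU κ) : g * h ∈ UU κ := by
  obtain ⟨x, rfl, hx⟩ := hg
  obtain ⟨y, rfl, hy⟩ := hh
  refine ⟨x * y, rfl, ?_⟩
  filter_upwards [hx, hy] with k h1 h2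
  exact Subgroup.mul_mem _ h1 h2

theorem UU_inv (κ : ℕ → ℕ) {g : G} (hg : g ∈ UU κ) : g⁻¹ ∈ UU κ := by
  obtain ⟨x, rfl, hx⟩ := hg
  refine ⟨x⁻¹, rfl, ?_⟩
  filter_upwards [hx] with k h1
  exact Subgroup.inv_mem _ h1

theorem UU_conj (κ : ℕ → ℕ) (g₀ : G) {g : G} (hg : g ∈ UU κ) : g₀ * g * g₀⁻¹ ∈ UU κ := by
  obtain ⟨x, rfl, hx⟩ := hg
  induction g₀ using Filter.Germ.inductionOn with
  | _ y =>
    refine ⟨y * x * y⁻¹, rfl, ?_⟩
    filter_upwards [hx] with k h1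
    exact NN_conj _ _ _ h1

theorem UU_anti {κ κ' : ℕ → ℕ} (h : κ ≤ κ') : UU κ' ⊆ UU κ := by
  rintro g ⟨x, rfl, hx⟩
  refine ⟨x, rfl, ?_⟩
  filter_upwards [hx] with k h1
  exact NN_anti (h k) h1

theorem exists_not_mem_UU (g : G) (hg : g ≠ 1) : ∃ κ, g ∉ UU κ := by
  induction g using Filter.Germ.inductionOn with
  | _ x =>
    rw [Ne, coe_eq_one_iff] at hg
    have h1 : ∀ k, ∃ N, x k ≠ 1 → x k ∉ NN N := by
      intro k
      by_cases hk : x k = 1
      · exact ⟨0, fun h => absurd hk h⟩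
      · obtain ⟨N, hN⟩ := exists_not_mem_NN (x k) hk
        exact ⟨N, fun _ => hN⟩
    choose κ hκ using h1
    refine ⟨κ, ?_⟩
    rw [mem_UU_coe]
    intro h
    apply hg
    filter_upwards [h] with k hk
    by_contra hk1
    exact hκ k hk1 hk

theorem exists_mem_UU (κ : ℕ → ℕ) : ∃ g ∈ UU κ, g ≠ 1 := by
  choose x hx hx1 using fun k => exists_mem_NN (κ k)
  refine ⟨(x : G), ⟨x, rfl, Eventually.of_forall hx⟩, ?_⟩
  rw [Ne, coe_eq_one_iff]
  intro h
  obtain ⟨k, hk⟩ := h.exists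
  exact hx1 k hk

end Pool.Agent.NoConvSeq
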