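import Mathlib
import Pool.Agent.Lib.MP_37efd7_lc.Ultra
import Pool.Agent.Lib.MP_37efd7_lc.Defs

/-!
# A subgroup of size `ℵ₁` of the ultrapower
-/

namespace Pool.Agent.NoConvSeq

open Filter Topology Cardinal

/-- the first uncountable ordinal, as a type -/
abbrev Om : Type := (ℵ_ 1 : Cardinal.{0}).ord.ToType

theorem lt_aleph_one {c : Cardinal.{0}} (h : c < ℵ_ 1) : c ≤ ℵ₀ := by
  rwa [← Cardinal.succ_aleph0, Order.lt_succ_iff] at h

theorem countable_Iio_Om (x : Om) : (Set.Iio x).Countable := by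
  rw [← Cardinal.le_aleph0_iff_set_countable]
  apply lt_aleph_one
  have h := Cardinal.mk_Iio_lt x (by rw [Cardinal.mk_ord_toType, Ordinal.type_toType])
  rwa [Cardinal.mk_ord_toType] at h

theorem countable_Iic_Om (x : Om) : (Set.Iic x).Countable := by
  rw [← Set.Iio_insert]
  exact (countable_Iio_Om x).insert x

theorem not_countable_Om : ¬ (Set.univ : Set Om).Countable := by
  rw [← Cardinal.le_aleph0_iff_set_countable, Cardinal.mk_univ, Cardinal.mk_ord_toType, not_le]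
  exact Cardinal.aleph0_lt_aleph_one

theorem exists_gt_Om (j : ℕ → Om) : ∃ x, ∀ i, j i < x := by
  have h : (⋃ i, Set.Iic (j i)).Countable := Set.countable_iUnion fun i => countable_Iic_Om _
  have h' : (⋃ i, Set.Iic (j i)) ≠ Set.univ := fun e => not_countable_Om (e ▸ h)
  obtain ⟨x, hx⟩ := (Set.ne_univ_iff_exists_notMem _).1 h'
  refine ⟨x, fun i => ?_⟩
  by_contra hcon
  exact hx (Set.mem_iUnion.2 ⟨i, not_lt.1 hcon⟩)

/-- Recursion on a well-order with a choice at each step. -/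
theorem exists_rec {I D : Type} [LinearOrder I] [WellFoundedLT I]
    (P : (α : I) → (Set.Iio α → D) → D → Prop) (h : ∀ α g, ∃ d, P α g d) :
    ∃ f : I → D, ∀ α, P α (fun β => f β.1) (f α) := by
  choose F hF using h
  have wf : WellFounded (fun a b : I => a < b) := wellFounded_lt
  let f : I → D := wf.fix (fun α rec => F α (fun β => rec β.1 β.2))
  refine ⟨f, fun α => ?_⟩
  have h1 : f α = F α (fun β => f β.1) := wf.fix_eq _ α
  rw [h1]
  exact hF α _

theorem UU_anti' {κ κ' : ℕ → ℕ} (h : ∀ᶠ k in uf, κ k ≤ κ' k) : UU κ' ⊆ UU κ := by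
  rintro g ⟨x, rfl, hx⟩
  refine ⟨x, rfl, ?_⟩
  filter_upwards [hx, h] with k h1 h2
  exact NN_anti h2 h1

theorem exists_dominating (κ : ℕ → ℕ → ℕ) : ∃ κ' : ℕ → ℕ, ∀ i, UU κ' ⊆ UU (κ i) := by
  refine ⟨fun k => (Finset.range (k + 1)).sup fun i => κ i k, fun i => UU_anti' ?_⟩
  filter_upwards [eventually_ge i] with k hk
  exact Finset.le_sup (f := fun i => κ i k) (Finset.mem_range.2 (Nat.lt_succ_of_le hk))

/-- The step of the construction. -/
theorem exists_step (S : Set G) (hS : S.Countable) (T : Set (ℕ → ℕ)) (hT : T.Countable) :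
    ∃ (a b g : G) (κ : ℕ → ℕ), (∀ y ∈ S, y ≠ 1 → a * (y * b * y⁻¹) = (y * b * y⁻¹) * a) ∧
      a * b ≠ b * a ∧ g ≠ 1 ∧ g ∈ UU κ ∧ (∀ y ∈ S, y ≠ 1 → y ∉ UU κ) ∧
      ∀ κ' ∈ T, UU κ ⊆ UU κ' := by
  -- enumerations
  obtain ⟨y, hy⟩ : ∃ y : ℕ → G, S ⊆ Set.range y := by
    rcases S.eq_empty_or_nonempty with h | h
    · exact ⟨fun _ => 1, h ▸ Set.empty_subset _⟩
    · obtain ⟨y, hy⟩ := hS.exists_eq_range h
      exact ⟨y, hy.subset⟩
  obtain ⟨τ, hτ⟩ : ∃ τ : ℕ → (ℕ → ℕ), T ⊆ Set.range τ := by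
    rcases T.eq_empty_or_nonempty with h | h
    · exact ⟨fun _ => 0, h ▸ Set.empty_subset _⟩
    · obtain ⟨τ, hτ⟩ := hT.exists_eq_range h
      exact ⟨τ, hτ.subset⟩
  obtain ⟨a, b, hab, hne⟩ := exists_sat y
  have h1 : ∀ n, ∃ κ, y n ≠ 1 → y n ∉ UU κ := by
    intro n
    by_cases hn : y n = 1
    · exact ⟨0, fun h => absurd hn h⟩
    · obtain ⟨κ, hκ⟩ := exists_not_mem_UU _ hn
      exact ⟨κ, fun _ => hκ⟩
  choose σ hσ using h1
  obtain ⟨κ₁, hκ₁⟩ := exists_dominating σ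
  obtain ⟨κ₂, hκ₂⟩ := exists_dominating τ
  obtain ⟨g, hg, hg1⟩ := exists_mem_UU (κ₁ ⊔ κ₂)
  refine ⟨a, b, g, κ₁ ⊔ κ₂, ?_, hne, hg1, hg, ?_, ?_⟩
  · intro z hz hz1
    obtain ⟨n, rfl⟩ := hy hz
    exact hab n hz1
  · intro z hz hz1 hzU
    obtain ⟨n, rfl⟩ := hy hz
    exact hσ n hz1 (hκ₁ n (UU_anti le_sup_left hzU))
  · intro κ' hκ'
    obtain ⟨n, rfl⟩ := hτ hκ'
    exact (UU_anti le_sup_right).trans (hκ₂ n)

/-- the data chosen at each step -/
noncomputable abbrev D : Type := G × G × G × (ℕ → ℕ)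

/-- the subgroup generated by the elements chosen before `α` -/
noncomputable def SS (f : Om → D) (α : Om) : Subgroup G :=
  Subgroup.closure {x | ∃ β < α, x = (f β).1 ∨ x = (f β).2.1 ∨ x = (f β).2.2.1}

theorem SS_mono (f : Om → D) {α β : Om} (h : α ≤ β) : SS f α ≤ SS f β :=
  Subgroup.closure_mono fun _ ⟨γ, hγ, hx⟩ => ⟨γ, hγ.trans_le h, hx⟩

theorem countable_closure_of_countable {s : Set G} (hs : s.Countable) :
    (Subgroup.closure s : Set G).Countable := by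
  have := hs.to_subtype
  have hc : Countable (FreeGroup s) := by
    unfold FreeGroup
    infer_instance
  have h : (Subgroup.closure s : Set G) = Set.range (FreeGroup.lift (Subtype.val : s → G)) := by
    rw [← MonoidHom.coe_range, FreeGroup.range_lift_eq_closure, Subtype.range_coe]
  rw [h]
  exact Set.countable_range _

theorem countable_SS (f : Om → D) (α : Om) : (SS f α : Set G).Countable := by
  apply countable_closure_of_countable
  have h : {x | ∃ β < α, x = (f β).1 ∨ x = (f β).2.1 ∨ x = (f β).2.2.1} =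
      ⋃ β ∈ Set.Iio α, {(f β).1, (f β).2.1, (f β).2.2.1} := by
    ext x
    simp
  rw [h]
  exact (countable_Iio_Om α).biUnion fun β _ => by simp

theorem exists_f : ∃ f : Om → D, ∀ α,
    (∀ y ∈ SS f α, y ≠ 1 → (f α).1 * (y * (f α).2.1 * y⁻¹) = (y * (f α).2.1 * y⁻¹) * (f α).1) ∧
      (f α).1 * (f α).2.1 ≠ (f α).2.1 * (f α).1 ∧ (f α).2.2.1 ≠ 1 ∧
      (f α).2.2.1 ∈ UU (f α).2.2.2 ∧ (∀ y ∈ SS f α, y ≠ 1 → y ∉ UU (f α).2.2.2) ∧
      ∀ β < α, UU (f α).2.2.2 ⊆ UU (f β).2.2.2 := by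
  let SI : (α : Om) → (Set.Iio α → D) → Subgroup G := fun α g =>
    Subgroup.closure {x | ∃ β : Set.Iio α, x = (g β).1 ∨ x = (g β).2.1 ∨ x = (g β).2.2.1}
  have hSI : ∀ α g, (SI α g : Set G).Countable := by
    intro α g
    apply countable_closure_of_countable
    have h : {x | ∃ β : Set.Iio α, x = (g β).1 ∨ x = (g β).2.1 ∨ x = (g β).2.2.1} =
        ⋃ β : Set.Iio α, {(g β).1, (g β).2.1, (g β).2.2.1} := by
      ext x
      simp
    rw [h]
    have := (countable_Iio_Om α).to_subtype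
    exact Set.countable_iUnion fun β => by simp
  obtain ⟨f, hf⟩ := exists_rec (I := Om) (D := D) (fun α g d =>
    (∀ y ∈ SI α g, y ≠ 1 → d.1 * (y * d.2.1 * y⁻¹) = (y * d.2.1 * y⁻¹) * d.1) ∧
      d.1 * d.2.1 ≠ d.2.1 * d.1 ∧ d.2.2.1 ≠ 1 ∧
      d.2.2.1 ∈ UU d.2.2.2 ∧ (∀ y ∈ SI α g, y ≠ 1 → y ∉ UU d.2.2.2) ∧
      ∀ κ ∈ Set.range (fun β : Set.Iio α => (g β).2.2.2), UU d.2.2.2 ⊆ UU κ) (by
    intro α g
    have := (countable_Iio_Om α).to_subtype
    obtain ⟨a, b, c, κ, h1, h2, h3, h4, h5, h6⟩ := exists_step (SI α g) (hSI α g)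
      (Set.range (fun β : Set.Iio α => (g β).2.2.2)) (Set.countable_range _)
    exact ⟨(a, b, c, κ), h1, h2, h3, h4, h5, h6⟩)
  have hS : ∀ α, SI α (fun β => f β.1) = SS f α := by
    intro α
    simp only [SI, SS]
    congr 1
    ext x
    simp
  refine ⟨f, fun α => ?_⟩
  obtain ⟨h1, h2, h3, h4, h5, h6⟩ := hf α
  rw [hS] at h1 h5
  exact ⟨h1, h2, h3, h4, h5, fun β hβ => h6 _ ⟨⟨β, hβ⟩, rfl⟩⟩

/-- The main construction: a group of size `ℵ₁`, Hausdorff topologizable and non-discrete, such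
that every Hausdorff group topology on it has only trivial convergent sequences. -/
theorem exists_group : ∃ (H : Type) (_ : Group H), #H = ℵ_ 1 ∧ Lib.MP_37efd7_lc.Topologizable H ∧
    ∀ _ : TopologicalSpace H, IsTopologicalGroup H → T2Space H →
      ∀ (u : ℕ → H) (g : H), Tendsto u atTop (𝓝 g) → ∀ᶠ n in atTop, u n = g := by
  obtain ⟨f, hf⟩ := exists_f
  have hne : Nonempty Om := by
    by_contra h
    rw [not_nonempty_iff] at h
    exact not_countable_Om Set.countable_univ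
  have hdir : Directed (· ≤ ·) (SS f) := fun α β =>
    ⟨max α β, SS_mono f (le_max_left _ _), SS_mono f (le_max_right _ _)⟩
  let H : Subgroup G := ⨆ α, SS f α
  have hH : ∀ x, x ∈ H ↔ ∃ α, x ∈ SS f α := fun x => Subgroup.mem_iSup_of_directed hdir
  have hgen : ∀ α, (f α).1 ∈ H ∧ (f α).2.1 ∈ H ∧ (f α).2.2.1 ∈ H := by
    intro α
    obtain ⟨β, hβ⟩ := exists_gt_Om fun _ => α
    refine ⟨(hH _).2 ⟨β, Subgroup.subset_closure ⟨α, hβ 0, Or.inl rfl⟩⟩,
      (hH _).2 ⟨β, Subgroup.subset_closure ⟨α, hβ 0, Or.inr (Or.inl rfl)⟩⟩,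
      (hH _).2 ⟨β, Subgroup.subset_closure ⟨α, hβ 0, Or.inr (Or.inr rfl)⟩⟩⟩
  have hseq : ∀ u : ℕ → G, (∀ n, u n ∈ H) → ∃ α, ∀ n, u n ∈ SS f α := by
    intro u hu
    choose j hj using fun n => (hH _).1 (hu n)
    obtain ⟨α, hα⟩ := exists_gt_Om j
    exact ⟨α, fun n => SS_mono f (hα n).le (hj n)⟩
  refine ⟨H, inferInstance, ?_, ?_, ?_⟩
  · apply le_antisymm
    · have h1 : (H : Set G) = ⋃ α, (SS f α : Set G) := by
        ext x
        simp [hH]
      have h2 : #(⋃ α, (SS f α : Set G) : Set G) ≤ ℵ_ 1 := by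
        refine (Cardinal.mk_iUnion_le _).trans ?_
        rw [Cardinal.mk_ord_toType]
        have h3 : (⨆ α, #(SS f α : Set G)) ≤ ℵ₀ :=
          ciSup_le' fun α => Cardinal.le_aleph0_iff_set_countable.2 (countable_SS f α)
        calc ℵ_ 1 * (⨆ α, #(SS f α : Set G)) ≤ ℵ_ 1 * ℵ₀ := by gcongr
          _ = ℵ_ 1 := by rw [mul_comm, Cardinal.aleph0_mul_aleph]
      rw [← h1] at h2
      exact h2
    · rw [← Cardinal.succ_aleph0, Order.succ_le_iff]
      by_contra hcon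
      rw [not_lt, Cardinal.mk_le_aleph0_iff] at hcon
      obtain ⟨u, hu⟩ := exists_surjective_nat H
      obtain ⟨α, hα⟩ := hseq (fun n => (u n : G)) (fun n => (u n).2)
      obtain ⟨n, hn⟩ := hu ⟨(f α).2.2.1, (hgen α).2.2⟩
      have h1 : (f α).2.2.1 ∈ SS f α := by
        have := hα n
        rw [hn] at this
        exact this
      exact (hf α).2.2.2.2.1 _ h1 (hf α).2.2.1 (hf α).2.2.2.1
  · let V : Om → Set H := fun α => {h | (h : G) ∈ UU (f α).2.2.2}
    have hVanti : ∀ {α β}, α ≤ β → V β ⊆ V α := by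
      intro α β hαβ h hh
      rcases hαβ.eq_or_lt with rfl | hlt
      · exact hh
      · exact (hf β).2.2.2.2.2 α hlt hh
    let B : GroupFilterBasis H :=
      { sets := Set.range V
        nonempty := Set.range_nonempty V
        inter_sets := by
          rintro _ _ ⟨α, rfl⟩ ⟨β, rfl⟩
          exact ⟨V (max α β), ⟨_, rfl⟩, Set.subset_inter (hVanti (le_max_left _ _))
            (hVanti (le_max_right _ _))⟩
        one' := by
          rintro _ ⟨α, rfl⟩
          exact UU_one _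
        mul' := by
          rintro _ ⟨α, rfl⟩
          refine ⟨V α, ⟨α, rfl⟩, ?_⟩
          rintro _ ⟨g, hg, h, hh, rfl⟩
          exact UU_mul _ hg hh
        inv' := by
          rintro _ ⟨α, rfl⟩
          exact ⟨V α, ⟨α, rfl⟩, fun g hg => UU_inv _ hg⟩
        conj' := by
          rintro g₀ _ ⟨α, rfl⟩
          exact ⟨V α, ⟨α, rfl⟩, fun g hg => UU_conj _ (g₀ : G) hg⟩ }
    refine ⟨B.topology, B.isTopologicalGroup, ?_, ?_⟩
    · let _ := B.topology
      have _ := B.isTopologicalGroup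
      apply IsTopologicalGroup.t2Space_of_one_sep
      intro g hg
      obtain ⟨α, hα⟩ := (hH _).1 g.2
      refine ⟨V α, B.nhds_one_hasBasis.mem_of_mem ⟨α, rfl⟩, ?_⟩
      exact (hf α).2.2.2.2.1 _ hα (fun h => hg (Subtype.ext h))
    · intro h
      let _ := B.topology
      have h1 : ({1} : Set H) ∈ 𝓝 (1 : H) := by
        have : DiscreteTopology H := h
        rw [nhds_discrete]
        exact Filter.mem_pure.2 rfl
      obtain ⟨U, ⟨α, rfl⟩, hU⟩ := B.nhds_one_hasBasis.mem_iff.1 h1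
      have h2 : (⟨(f α).2.2.1, (hgen α).2.2⟩ : H) ∈ ({1} : Set H) := hU (hf α).2.2.2.1
      exact (hf α).2.2.1 (congrArg Subtype.val h2)
  · intro τ hG hT u g hu
    obtain ⟨α, hα⟩ := hseq (fun n => ((g⁻¹ * u n : H) : G)) (fun n => (g⁻¹ * u n).2)
    let a : H := ⟨(f α).1, (hgen α).1⟩
    let b : H := ⟨(f α).2.1, (hgen α).2.1⟩
    have hab : ∀ n, g⁻¹ * u n ≠ 1 →
        a * ((g⁻¹ * u n) * b * (g⁻¹ * u n)⁻¹) = ((g⁻¹ * u n) * b * (g⁻¹ * u n)⁻¹) * a := by
      intro n hn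
      apply Subtype.ext
      exact (hf α).1 _ (hα n) (fun h => hn (Subtype.ext h))
    have hv : Tendsto (fun n => g⁻¹ * u n) atTop (𝓝 1) := by
      have := hu.const_mul g⁻¹
      rwa [inv_mul_cancel] at this
    have hclosed : IsClosed {v : H | a * (v * b * v⁻¹) = (v * b * v⁻¹) * a} :=
      isClosed_eq (by fun_prop) (by fun_prop)
    by_contra hcon
    rw [Filter.not_eventually] at hcon
    have hfreq : ∃ᶠ n in atTop, g⁻¹ * u n ∈ {v : H | a * (v * b * v⁻¹) = (v * b * v⁻¹) * a} := by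
      refine hcon.mono fun n hn => hab n fun h => hn ?_
      exact (inv_mul_eq_one.1 h).symm
    have h1 : (1 : H) ∈ {v : H | a * (v * b * v⁻¹) = (v * b * v⁻¹) * a} :=
      hclosed.mem_of_frequently_of_tendsto hfreq hv
    apply (hf α).2.1
    have h2 : a * b = b * a := by simpa using h1
    exact congrArg Subtype.val h2

end Pool.Agent.NoConvSeq
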