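import Pool.Agent.Lib.MP_37efd7_lc.Comb

/-!
Dual vectors: away from the sets coded so far, single points can be separated from the promised
sequences.
-/

namespace Pool.Agent.Lib.MP_37efd7_lc

open Filter

variable {Λ : Type*} [LinearOrder Λ]

theorem exists_interval {c : ℕ → ℕ} (hc : StrictMono c) {i0 k : ℕ} (hk : c i0 ≤ k) :
    ∃ i, i0 ≤ i ∧ c i ≤ k ∧ k < c (i + 1) := by
  classical
  have hex : ∃ j, k < c j := ⟨k + 1, lt_of_lt_of_le (Nat.lt_succ_self k) (hc.id_le _)⟩
  have h1 := Nat.find_spec hex
  have h2 : ∀ j < Nat.find hex, ¬ k < c j := fun j hj => Nat.find_min hex hj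
  generalize Nat.find hex = j at h1 h2
  have hjpos : i0 < j := by
    by_contra hle
    have := hc.monotone (not_lt.mp hle)
    omega
  obtain ⟨i, rfl⟩ : ∃ i, j = i + 1 := ⟨j - 1, by omega⟩
  exact ⟨i, by omega, not_lt.mp (h2 i (by omega)), h1⟩

/-- **Claim.** Let `S` be finite and let `B` be almost disjoint from the sets coded at the indices
in `S`. Then for all but finitely many `k ∈ B` there is a dual vector `x` with `x k = 1` that
vanishes on all the promised finite sets of the indices in `S`. -/
theorem claim {F : Λ → ℕ → Finset ℕ} {D : Λ → Dat} (B : Set ℕ) (S : Finset Λ) :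
    (∀ η ∈ S, Good F D η (D η)) → (∀ η ∈ S, {k | k ∈ B ∧ (D η).a k ≠ 0}.Finite) →
    {k | k ∈ B ∧ ¬ ∃ x : ℕ → ZMod 2, x k = 1 ∧ ∀ η ∈ S, ∀ n, par ((D η).t n) x = 0}.Finite := by
  classical
  induction S using Finset.induction_on_max with
  | empty =>
    intro _ _
    convert Set.finite_empty
    ext k
    simp only [Set.mem_empty_iff_false, iff_false]
    rintro ⟨_, h⟩
    exact h ⟨fun _ => 1, rfl, by simp⟩
  | insert ζ S hmax ih =>
    intro hG hB
    have hGζ := hG ζ (Finset.mem_insert_self _ _)
    have ih' := ih (fun η hη => hG η (Finset.mem_insert_of_mem hη))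
      (fun η hη => hB η (Finset.mem_insert_of_mem hη))
    -- thresholds
    have h1 : ∀ᶠ i in atTop, ∀ η ∈ S, IsCut (D η).t ((D ζ).c i) :=
      (Filter.eventually_all_finset S).mpr (fun η hη => hGζ.j4 η (hmax η hη))
    have h2 : ∀ᶠ n in atTop, ∀ η ∈ S, par ((D η).t n) (D ζ).a = 0 :=
      (Filter.eventually_all_finset S).mpr (fun η hη => hGζ.j1 η (hmax η hη))
    obtain ⟨i1, hi1⟩ := eventually_atTop.mp h1
    obtain ⟨n2, hn2⟩ := eventually_atTop.mp h2
    -- a bound for the exceptional finite sets
    obtain ⟨M, hM⟩ : ∃ M, ∀ η ∈ S, ∀ n < n2, ∀ k ∈ (D η).t n, k < M := by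
      have : ((S ×ˢ Finset.range n2).biUnion (fun p => (D p.1).t p.2) : Finset ℕ).Nonempty ∨
        ((S ×ˢ Finset.range n2).biUnion (fun p => (D p.1).t p.2) : Finset ℕ) = ∅ := by
        rcases Finset.eq_empty_or_nonempty
          ((S ×ˢ Finset.range n2).biUnion (fun p => (D p.1).t p.2)) with h | h
        · exact Or.inr h
        · exact Or.inl h
      refine ⟨((S ×ˢ Finset.range n2).biUnion (fun p => (D p.1).t p.2)).sup id + 1, ?_⟩
      intro η hη n hn k hk
      have hmem : k ∈ (S ×ˢ Finset.range n2).biUnion (fun p => (D p.1).t p.2) := by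
        rw [Finset.mem_biUnion]
        exact ⟨(η, n), Finset.mem_product.mpr ⟨hη, Finset.mem_range.mpr hn⟩, hk⟩
      have := Finset.le_sup (f := id) hmem
      simp only [id] at this
      omega
    let i0 := max i1 M
    have hi0M : M ≤ (D ζ).c i0 := (le_max_right i1 M).trans (hGζ.j3.id_le _)
    refine ((ih'.union (hB ζ (Finset.mem_insert_self _ _))).union
      (Set.finite_lt_nat ((D ζ).c i0))).subset ?_
    rintro k ⟨hkB, hk⟩
    by_contra hcon
    simp only [Set.mem_union, not_or] at hcon
    obtain ⟨⟨hk1, hk2⟩, hk3⟩ := hcon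
    have hk1' : ∃ x : ℕ → ZMod 2, x k = 1 ∧ ∀ η ∈ S, ∀ n, par ((D η).t n) x = 0 := by
      by_contra h; exact hk1 ⟨hkB, h⟩
    have hk2' : (D ζ).a k = 0 := by
      by_contra h; exact hk2 ⟨hkB, h⟩
    have hk3' : (D ζ).c i0 ≤ k := not_lt.mp hk3
    obtain ⟨x, hx, hxS⟩ := hk1'
    obtain ⟨i, hi, hci, hci'⟩ := exists_interval hGζ.j3 hk3'
    set c := (D ζ).c i with hc
    set c' := (D ζ).c (i + 1) with hc'
    have hcut : ∀ η ∈ S, ∀ n, (∀ k ∈ (D η).t n, c ≤ k ∧ k < c') ∨
        (∀ k ∈ (D η).t n, ¬ (c ≤ k ∧ k < c')) := fun η hη n =>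
      cut_dichotomy (hi1 i ((le_max_left _ _).trans hi) η hη)
        (hi1 (i + 1) ((le_max_left _ _).trans (hi.trans (Nat.le_succ i))) η hη) n
    -- restriction of x
    have hx' : ∀ η ∈ S, ∀ n, par ((D η).t n) (restr c c' x) = 0 := by
      intro η hη n
      rcases hcut η hη n with h | h
      · rw [par_restr_eq x h]; exact hxS η hη n
      · exact par_restr_zero x h
    have hb' : ∀ η ∈ S, ∀ n, par ((D η).t n) (restr c c' (D ζ).a) = 0 := by
      intro η hη n
      rcases hcut η hη n with h | h
      · rw [par_restr_eq _ h]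
        rcases lt_or_ge n n2 with hn | hn
        · -- exceptional sets are empty here
          have hempty : (D η).t n = ∅ := by
            rw [Finset.eq_empty_iff_forall_notMem]
            intro k' hk'
            have h3 := hM η hη n hn k' hk'
            have h4 := (h k' hk').1
            have h5 : (D ζ).c i0 ≤ c := hGζ.j3.monotone hi
            omega
          rw [hempty, par_empty]
        · exact hn2 n hn η hη
      · exact par_restr_zero _ h
    have hζj : ∀ j, j ≠ i → ∀ k ∈ (D ζ).t j, ¬ (c ≤ k ∧ k < c') := by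
      intro j hj k' hk'
      have h3 := hGζ.j3' j k' hk'
      rcases lt_or_gt_of_ne hj with h4 | h4
      · have : (D ζ).c (j + 1) ≤ c := hGζ.j3.monotone h4
        omega
      · have : c' ≤ (D ζ).c j := hGζ.j3.monotone h4
        omega
    have hζi : ∀ k ∈ (D ζ).t i, c ≤ k ∧ k < c' := hGζ.j3' i
    have hxk : restr c c' x k = 1 := by
      simp only [restr, hci, hci', and_self, if_true, hx]
    apply hk
    by_cases hpar : par ((D ζ).t i) x = 0
    · refine ⟨restr c c' x, hxk, ?_⟩
      intro η hη n
      rcases Finset.mem_insert.mp hη with rfl | hη'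
      · by_cases hn : n = i
        · rw [hn, par_restr_eq x hζi]; exact hpar
        · exact par_restr_zero x (hζj n hn)
      · exact hx' η hη' n
    · have hpar1 : par ((D ζ).t i) x = 1 := zmod2_ne_zero hpar
      refine ⟨restr c c' x + restr c c' (D ζ).a, ?_, ?_⟩
      · have : restr c c' (D ζ).a k = 0 := by
          simp only [restr, hci, hci', and_self, if_true, hk2']
        rw [Pi.add_apply, hxk, this, add_zero]
      · intro η hη n
        rw [par_add]
        rcases Finset.mem_insert.mp hη with rfl | hη'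
        · by_cases hn : n = i
          · rw [hn, par_restr_eq x hζi, par_restr_eq _ hζi, hpar1]
            rcases hGζ.j2 i with h | h
            · exfalso
              rw [h, par_empty] at hpar
              exact hpar rfl
            · rw [h]; decide
          · rw [par_restr_zero x (hζj n hn), par_restr_zero _ (hζj n hn), add_zero]
        · rw [hx' η hη' n, hb' η hη' n, add_zero]

end Pool.Agent.Lib.MP_37efd7_lc
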