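import Mathlib

/-!
A family of subsets of `ℕ` (coded as functions `ℕ → ZMod 2`) indexed by a well-ordered set with
countable initial segments, built by transfinite recursion.
-/

namespace Pool.Agent.Lib.MP_37efd7_lc

open Filter

/-- The parity of the number of elements of `t` in the set coded by `a`. -/
def par (t : Finset ℕ) (a : ℕ → ZMod 2) : ZMod 2 := ∑ k ∈ t, a k

theorem par_add (t : Finset ℕ) (a b : ℕ → ZMod 2) : par t (a + b) = par t a + par t b := by
  simp [par, Finset.sum_add_distrib]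

theorem par_empty (a : ℕ → ZMod 2) : par ∅ a = 0 := by simp [par]

theorem par_congr {t : Finset ℕ} {a b : ℕ → ZMod 2} (h : ∀ k ∈ t, a k = b k) :
    par t a = par t b := Finset.sum_congr rfl h

theorem par_eq_zero {t : Finset ℕ} {a : ℕ → ZMod 2} (h : ∀ k ∈ t, a k = 0) :
    par t a = 0 := Finset.sum_eq_zero h

theorem zmod2_ne_zero {x : ZMod 2} (h : x ≠ 0) : x = 1 := by
  revert x; decide

/-- `c` is a cut of the sequence `t` of finite sets. -/
def IsCut (t : ℕ → Finset ℕ) (c : ℕ) : Prop :=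
  ∀ n, (∀ k ∈ t n, k < c) ∨ (∀ k ∈ t n, c ≤ k)

/-- Restriction to an interval. -/
def restr (c c' : ℕ) (x : ℕ → ZMod 2) : ℕ → ZMod 2 := fun k => if c ≤ k ∧ k < c' then x k else 0

theorem cut_dichotomy {t : ℕ → Finset ℕ} {c c' : ℕ} (h : IsCut t c) (h' : IsCut t c') (n : ℕ) :
    (∀ k ∈ t n, c ≤ k ∧ k < c') ∨ (∀ k ∈ t n, ¬ (c ≤ k ∧ k < c')) := by
  rcases h n with h1 | h1
  · right; intro k hk; have := h1 k hk; omega
  · rcases h' n with h2 | h2
    · left; intro k hk; exact ⟨h1 k hk, h2 k hk⟩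
    · right; intro k hk; have := h2 k hk; omega

theorem par_restr_eq {t : Finset ℕ} {c c' : ℕ} (x : ℕ → ZMod 2)
    (h : ∀ k ∈ t, c ≤ k ∧ k < c') : par t (restr c c' x) = par t x := by
  apply par_congr
  intro k hk
  simp [restr, h k hk]

theorem par_restr_zero {t : Finset ℕ} {c c' : ℕ} (x : ℕ → ZMod 2)
    (h : ∀ k ∈ t, ¬ (c ≤ k ∧ k < c')) : par t (restr c c' x) = 0 := by
  apply par_eq_zero
  intro k hk
  simp only [restr, h k hk, if_false]

/-- The data attached to an index: a set, a sequence of finite sets, a sequence of cuts. -/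
structure Dat where
  /-- the coded set -/
  a : ℕ → ZMod 2
  /-- the promised sequence of finite sets -/
  t : ℕ → Finset ℕ
  /-- the cuts -/
  c : ℕ → ℕ

instance : Inhabited Dat := ⟨⟨0, fun _ => ∅, id⟩⟩

variable {Λ : Type*} [LinearOrder Λ]

/-- The requirements on the data at index `ξ`, relative to the earlier data. -/
structure Good (F : Λ → ℕ → Finset ℕ) (D : Λ → Dat) (ξ : Λ) (d : Dat) : Prop where
  j1 : ∀ η < ξ, ∀ᶠ n in atTop, par ((D η).t n) d.a = 0
  j2 : ∀ n, d.t n = ∅ ∨ par (d.t n) d.a = 1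
  j3 : StrictMono d.c
  j3' : ∀ i, ∀ k ∈ d.t i, d.c i ≤ k ∧ k < d.c (i + 1)
  j4 : ∀ η < ξ, ∀ᶠ i in atTop, IsCut (D η).t (d.c i)
  j5 : ∀ S : Finset Λ, (∀ η ∈ S, η < ξ) → {k | d.a k = 0 ∧ ∀ η ∈ S, (D η).a k = 0}.Infinite
  j6 : (∀ m n, m ≠ n → Disjoint (F ξ m) (F ξ n)) →
    (∃ φ : ℕ → ℕ, StrictMono φ ∧ (∀ n, d.t n = F ξ (φ n)) ∧ ∀ n, par (F ξ (φ n)) d.a = 1) ∨
    (∀ b : ℕ → ZMod 2, (∀ η < ξ, ∀ᶠ n in atTop, par ((D η).t n) b = 0) →
      ∀ᶠ n in atTop, par (F ξ n) b = 0)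

theorem Good.congr {F : Λ → ℕ → Finset ℕ} {D D' : Λ → Dat} {ξ : Λ} {d : Dat}
    (h : Good F D ξ d) (hD : ∀ η < ξ, D η = D' η) : Good F D' ξ d where
  j1 := fun η hη => by rw [← hD η hη]; exact h.j1 η hη
  j2 := h.j2
  j3 := h.j3
  j3' := h.j3'
  j4 := fun η hη => by rw [← hD η hη]; exact h.j4 η hη
  j5 := fun S hS => by
    refine (h.j5 S hS).mono ?_
    rintro k ⟨h1, h2⟩
    exact ⟨h1, fun η hη => by rw [← hD η (hS η hη)]; exact h2 η hη⟩
  j6 := fun hd => by
    rcases h.j6 hd with h1 | h1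
    · exact Or.inl h1
    · refine Or.inr (fun b hb => h1 b (fun η hη => ?_))
      rw [hD η hη]; exact hb η hη

theorem Good.isCut_self {F : Λ → ℕ → Finset ℕ} {D : Λ → Dat} {ξ : Λ} {d : Dat}
    (h : Good F D ξ d) (i : ℕ) : IsCut d.t (d.c i) := by
  intro n
  rcases lt_or_ge n i with hn | hn
  · left
    intro k hk
    exact lt_of_lt_of_le (h.j3' n k hk).2 (h.j3.monotone hn)
  · right
    intro k hk
    exact (h.j3.monotone hn).trans (h.j3' n k hk).1

/-- Common cuts of finitely many indices. -/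
theorem common_cut {F : Λ → ℕ → Finset ℕ} {D : Λ → Dat} (S : Finset Λ)
    (hS : ∀ η ∈ S, Good F D η (D η)) (m : ℕ) : ∃ c, m ≤ c ∧ ∀ η ∈ S, IsCut (D η).t c := by
  classical
  rcases S.eq_empty_or_nonempty with h | h
  · subst h; exact ⟨m, le_refl m, by simp⟩
  · let ζ := S.max' h
    have hζ : ζ ∈ S := S.max'_mem h
    have hG := hS ζ hζ
    have h1 : ∀ η ∈ S, ∀ᶠ i in atTop, IsCut (D η).t ((D ζ).c i) := by
      intro η hη
      rcases (S.le_max' η hη).lt_or_eq with h' | h'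
      · exact hG.j4 η h'
      · have : η = ζ := h'
        rw [this]
        exact Eventually.of_forall (fun i => hG.isCut_self i)
    have h2 : ∀ᶠ i in atTop, ∀ η ∈ S, IsCut (D η).t ((D ζ).c i) :=
      (Filter.eventually_all_finset S).mpr h1
    obtain ⟨i, hi1, hi2⟩ := (h2.and (eventually_ge_atTop m)).exists
    exact ⟨(D ζ).c i, hi2.trans (hG.j3.id_le i), hi1⟩

/-- The complements of finitely many of the sets have infinite intersection. -/
theorem sfip {F : Λ → ℕ → Finset ℕ} {D : Λ → Dat} (S : Finset Λ)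
    (hS : ∀ η ∈ S, Good F D η (D η)) : {k | ∀ η ∈ S, (D η).a k = 0}.Infinite := by
  classical
  rcases S.eq_empty_or_nonempty with h | h
  · subst h; simpa using Set.infinite_univ
  · let ζ := S.max' h
    have hζ : ζ ∈ S := S.max'_mem h
    have := (hS ζ hζ).j5 (S.erase ζ) (by
      intro η hη
      exact lt_of_le_of_ne (S.le_max' η (Finset.mem_of_mem_erase hη)) (Finset.ne_of_mem_erase hη))
    refine this.mono ?_
    rintro k ⟨h1, h2⟩ η hη
    by_cases hne : η = ζ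
    · rw [hne]; exact h1
    · exact h2 η (Finset.mem_erase.mpr ⟨hne, hη⟩)

end Pool.Agent.Lib.MP_37efd7_lc
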