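import Pool.Agent.Lib.MP_37efd7_lc.Step

/-!
The family of sets obtained by transfinite recursion, under the continuum hypothesis.
-/

namespace Pool.Agent.Lib.MP_37efd7_lc

open Filter

/-- The three properties of the family. -/
structure NiceFamily {Λ : Type*} (a : Λ → ℕ → ZMod 2) : Prop where
  sfip : ∀ S : Finset Λ, {k | ∀ ξ ∈ S, a ξ k = 0}.Infinite
  hit : ∀ B : Set ℕ, B.Infinite → ∃ ξ, {k | k ∈ B ∧ a ξ k ≠ 0}.Infinite
  even : ∀ f : ℕ → Finset ℕ, (∀ m n, m ≠ n → Disjoint (f m) (f n)) →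
    ∃ φ : ℕ → ℕ, StrictMono φ ∧ ∃ N : Set Λ, N.Countable ∧
      ∀ η, η ∉ N → ∀ᶠ n in atTop, par (f (φ n)) (a η) = 0

theorem exists_data {Λ : Type*} [LinearOrder Λ] [WellFoundedLT Λ] (F : Λ → ℕ → Finset ℕ)
    (hcount : ∀ ξ : Λ, {η | η < ξ}.Countable) : ∃ D : Λ → Dat, ∀ ξ, Good F D ξ (D ξ) := by
  classical
  let ext : ∀ ξ : Λ, (∀ η, η < ξ → Dat) → Λ → Dat :=
    fun ξ prev η => if h : η < ξ then prev η h else default
  let step : ∀ ξ : Λ, (∀ η, η < ξ → Dat) → Dat :=
    fun ξ prev => if h : ∃ d, Good F (ext ξ prev) ξ d then Classical.choose h else default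
  let D : Λ → Dat := WellFounded.fix (wellFounded_lt (α := Λ)) step
  have hD : ∀ ξ, D ξ = step ξ (fun η _ => D η) := fun ξ =>
    WellFounded.fix_eq (wellFounded_lt (α := Λ)) step ξ
  refine ⟨D, fun ξ => ?_⟩
  induction ξ using WellFoundedLT.induction with
  | ind ξ ih =>
    have h1 : ∃ d, Good F D ξ d := step_exists (hcount ξ) ih
    have hagree : ∀ η < ξ, D η = ext ξ (fun η _ => D η) η := by
      intro η hη
      simp only [ext]
      rw [dif_pos hη]
    have h2 : ∃ d, Good F (ext ξ (fun η _ => D η)) ξ d := by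
      obtain ⟨d, hd⟩ := h1
      exact ⟨d, hd.congr hagree⟩
    have h3 : D ξ = Classical.choose h2 := by
      rw [hD]
      simp only [step]
      rw [dif_pos h2]
    rw [h3]
    exact (Classical.choose_spec h2).congr (fun η hη => (hagree η hη).symm)

theorem exists_niceFamily {Λ : Type*} [LinearOrder Λ] [WellFoundedLT Λ] (F : Λ → ℕ → Finset ℕ)
    (hcount : ∀ ξ : Λ, {η | η < ξ}.Countable) (hF : Function.Surjective F) :
    ∃ a : Λ → ℕ → ZMod 2, NiceFamily a := by
  classical
  obtain ⟨D, hD⟩ := exists_data F hcount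
  refine ⟨fun ξ => (D ξ).a, ?_, ?_, ?_⟩
  · intro S
    exact Pool.Agent.Lib.MP_37efd7_lc.sfip S (fun η _ => hD η)
  · intro B hB
    by_contra hcon
    push Not at hcon
    have hfin : ∀ ξ, {k | k ∈ B ∧ (D ξ).a k ≠ 0}.Finite := fun ξ => hcon ξ
    -- enumerate `B`
    let e : ℕ ↪ B := hB.natEmbedding
    let f : ℕ → Finset ℕ := fun n => {(e n : ℕ)}
    have he : ∀ m n, m ≠ n → (e m : ℕ) ≠ e n := by
      intro m n hmn h
      exact hmn (e.injective (Subtype.ext h))
    have hfd : ∀ m n, m ≠ n → Disjoint (f m) (f n) := by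
      intro m n hmn
      simp only [f, Finset.disjoint_singleton]
      exact he m n hmn
    obtain ⟨ξ, hξ⟩ := hF f
    have hpar : ∀ (n : ℕ) (b : ℕ → ZMod 2), par (f n) b = b (e n) := by
      intro n b; simp [par, f]
    rcases (hD ξ).j6 (by rw [hξ]; exact hfd) with ⟨φ, hφ, _, h1⟩ | h1
    · have hinf : (Set.range (fun n => (e (φ n) : ℕ))).Infinite := by
        apply Set.infinite_range_of_injective
        intro m n hmn
        by_contra hne
        exact he (φ m) (φ n) (fun h => hne (hφ.injective h)) hmn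
      apply hinf
      refine (hfin ξ).subset ?_
      rintro _ ⟨n, rfl⟩
      refine ⟨(e (φ n)).2, ?_⟩
      have := h1 n
      rw [hξ, hpar] at this
      change (D ξ).a (e (φ n)) ≠ 0
      rw [this]
      exact one_ne_zero
    · -- apply the separation lemma to the range of `e`
      have hBe : (Set.range (fun n => (e n : ℕ))).Infinite := by
        apply Set.infinite_range_of_injective
        intro m n hmn
        by_contra hne
        exact he m n hne hmn
      obtain ⟨b, hb1, hb2⟩ := exists_sep hBe (hcount ξ) (fun η _ => hD η)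
        (fun η _ => (hfin η).subset (by
          rintro k ⟨⟨n, rfl⟩, h⟩
          exact ⟨(e n).2, h⟩))
      have h2 := h1 b hb1
      rw [hξ] at h2
      obtain ⟨n0, hn0⟩ := eventually_atTop.mp h2
      apply hb2
      refine (((Set.finite_lt_nat n0).image (fun n => (e n : ℕ)))).subset ?_
      rintro k ⟨⟨n, rfl⟩, h⟩
      refine ⟨n, ?_, rfl⟩
      by_contra hle
      apply h
      have h3 := hn0 n (not_lt.mp hle)
      rw [hpar] at h3
      exact h3
  · intro f hf
    obtain ⟨ξ, hξ⟩ := hF f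
    have hN : ({η | η < ξ} ∪ {ξ} : Set Λ).Countable := (hcount ξ).union (Set.countable_singleton ξ)
    have hNn : ∀ η, η ∉ ({η | η < ξ} ∪ {ξ} : Set Λ) → ξ < η := by
      intro η hη
      simp only [Set.mem_union, Set.mem_singleton_iff, not_or] at hη
      have h1 : ¬ η < ξ := hη.1
      exact lt_of_le_of_ne (not_lt.mp h1) (fun h => hη.2 h.symm)
    rcases (hD ξ).j6 (by rw [hξ]; exact hf) with ⟨φ, hφ, h1, _⟩ | h1
    · refine ⟨φ, hφ, _, hN, ?_⟩
      intro η hη
      have h2 := (hD η).j1 ξ (hNn η hη)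
      filter_upwards [h2] with n hn
      rw [h1 n, hξ] at hn
      exact hn
    · refine ⟨id, strictMono_id, _, hN, ?_⟩
      intro η hη
      have h2 := h1 (D η).a (fun η' hη' => (hD η).j1 η' (hη'.trans (hNn η hη)))
      rw [hξ] at h2
      exact h2

/-- Under the continuum hypothesis there is a nice family. -/
theorem exists_niceFamily_of_CH (CH : Cardinal.aleph.{0} 1 = Cardinal.continuum.{0}) :
    ∃ (Λ : Type) (a : Λ → ℕ → ZMod 2), NiceFamily a := by
  have hcard : Cardinal.mk ((Cardinal.aleph 1).ord.ToType) = Cardinal.mk (ℕ → Finset ℕ) := by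
    rw [Cardinal.mk_ord_toType, CH]
    simp
  obtain ⟨e⟩ := Cardinal.eq.mp hcard
  have hcount : ∀ ξ : (Cardinal.aleph 1).ord.ToType, {η | η < ξ}.Countable := by
    intro ξ
    have h1 : Cardinal.mk (Set.Iio ξ) < Cardinal.aleph 1 := Cardinal.mk_Iio_toType_ord_lt ξ
    have h2 : Cardinal.mk (Set.Iio ξ) ≤ Cardinal.aleph0 := by
      have h3 : Cardinal.aleph.{0} 1 = Order.succ Cardinal.aleph0 := by
        rw [← Cardinal.aleph_zero, Cardinal.succ_aleph]; simp
      exact Order.lt_succ_iff.mp (h1.trans_eq h3)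
    exact Cardinal.mk_le_aleph0_iff.mp h2
  obtain ⟨a, ha⟩ := exists_niceFamily e hcount e.surjective
  exact ⟨_, a, ha⟩

end Pool.Agent.Lib.MP_37efd7_lc
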