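import Mathlib

/-!
Operators of finite rank, the quotient ring, and generic vectors.
-/

namespace Pool.Agent.Lib.MP_37efd7_lc

open Module LinearMap

variable {F : Type*} [Field F] {V : Type*} [AddCommGroup V] [Module F V]

/-- `T` has finite rank. -/
def FinRank (T : Module.End F V) : Prop := (LinearMap.range T).FG

theorem finRank_zero : FinRank (0 : Module.End F V) := by
  unfold FinRank
  rw [LinearMap.range_zero]
  exact Submodule.fg_bot

theorem finRank_of_le {T : Module.End F V} {W : Submodule F V} (hW : W.FG)
    (h : LinearMap.range T ≤ W) : FinRank T := by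
  unfold FinRank
  have : FiniteDimensional F W := Module.Finite.iff_fg.mpr hW
  have h2 : FiniteDimensional F (LinearMap.range T) := Submodule.finiteDimensional_of_le h
  exact Module.Finite.iff_fg.mp h2

theorem FinRank.add {T S : Module.End F V} (hT : FinRank T) (hS : FinRank S) :
    FinRank (T + S) := by
  refine finRank_of_le (Submodule.FG.sup hT hS) ?_
  rintro _ ⟨v, rfl⟩
  exact Submodule.add_mem_sup (LinearMap.mem_range_self T v) (LinearMap.mem_range_self S v)

theorem FinRank.mul_left {T : Module.End F V} (hT : FinRank T) (S : Module.End F V) :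
    FinRank (S * T) := by
  refine finRank_of_le (Submodule.FG.map S hT) ?_
  rintro _ ⟨v, rfl⟩
  exact Submodule.mem_map_of_mem (LinearMap.mem_range_self T v)

theorem FinRank.mul_right {T : Module.End F V} (hT : FinRank T) (S : Module.End F V) :
    FinRank (T * S) := by
  refine finRank_of_le hT ?_
  rintro _ ⟨v, rfl⟩
  exact LinearMap.mem_range_self T (S v)

theorem FinRank.neg {T : Module.End F V} (hT : FinRank T) : FinRank (-T) := by
  refine finRank_of_le hT ?_
  rintro _ ⟨v, rfl⟩
  exact ⟨-v, by simp⟩

theorem FinRank.sub {T S : Module.End F V} (hT : FinRank T) (hS : FinRank S) :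
    FinRank (T - S) := by
  rw [sub_eq_add_neg]; exact hT.add hS.neg

theorem FinRank.smul {T : Module.End F V} (hT : FinRank T) (c : F) : FinRank (c • T) := by
  refine finRank_of_le hT ?_
  rintro _ ⟨v, rfl⟩
  exact ⟨c • v, by simp⟩

/-- The congruence: equality up to a finite rank operator. -/
def frCon (F V : Type*) [Field F] [AddCommGroup V] [Module F V] : RingCon (Module.End F V) where
  r T S := FinRank (T - S)
  iseqv := by
    refine ⟨fun T => ?_, fun {T S} h => ?_, fun {T S U} h1 h2 => ?_⟩
    · rw [sub_self]; exact finRank_zero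
    · rw [← neg_sub]; exact h.neg
    · rw [← sub_add_sub_cancel T S U]; exact h1.add h2
  add' := by
    intro T S T' S' h1 h2
    have : T + T' - (S + S') = (T - S) + (T' - S') := by abel
    change FinRank _
    rw [this]; exact h1.add h2
  mul' := by
    intro T S T' S' h1 h2
    have : T * T' - S * S' = (T - S) * T' + S * (T' - S') := by noncomm_ring
    change FinRank _
    rw [this]; exact (h1.mul_right _).add (h2.mul_left _)

/-- The quotient of the endomorphism ring by the ideal of finite rank operators. -/
abbrev FrQuot (F V : Type*) [Field F] [AddCommGroup V] [Module F V] : Type _ :=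
  (frCon F V).Quotient

/-- The projection to the quotient ring. -/
def frMk (F V : Type*) [Field F] [AddCommGroup V] [Module F V] :
    Module.End F V →+* FrQuot F V := (frCon F V).mk'

theorem frMk_eq_iff {T S : Module.End F V} : frMk F V T = frMk F V S ↔ FinRank (T - S) := by
  have := (frCon F V).eq (a := T) (b := S)
  exact this

theorem frMk_eq_zero_iff {T : Module.End F V} : frMk F V T = 0 ↔ FinRank T := by
  rw [← map_zero (frMk F V), frMk_eq_iff, sub_zero]

/-- Avoiding finitely many preimages. -/
theorem exists_avoid [Finite F] (s : Finset (Module.End F V)) (hs : ∀ T ∈ s, ¬ FinRank T)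
    (W : Submodule F V) (hW : W.FG) : ∃ v, ∀ T ∈ s, T v ∉ W := by
  classical
  by_contra hcon
  push Not at hcon
  have hcov : ⋃ T ∈ s, ((W.comap T : Submodule F V) : Set V) = Set.univ := by
    rw [Set.eq_univ_iff_forall]
    intro v
    obtain ⟨T, hT, hv⟩ := hcon v
    simp only [Set.mem_iUnion]
    exact ⟨T, hT, hv⟩
  obtain ⟨T, hT, hfi⟩ := Submodule.exists_finiteIndex_of_cover hcov
  apply hs T hT
  have hfin : Finite (V ⧸ (W.comap T)) := AddSubgroup.finite_quotient_of_finiteIndex
  -- the range of the induced map is finite dimensional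
  have hmf : Module.Finite F (V ⧸ (W.comap T)) := Module.Finite.of_finite
  -- range T is contained in W + T(U)
  obtain ⟨t, ht⟩ := hmf.fg_top
  -- lifts
  let lift : V ⧸ (W.comap T) → V := fun q => Quotient.out q
  let U : Submodule F V := Submodule.span F (lift '' (t : Set _))
  have hU : U.FG := Submodule.fg_span ((Finset.finite_toSet t).image _)
  refine finRank_of_le (Submodule.FG.sup hW (Submodule.FG.map T hU)) ?_
  rintro _ ⟨v, rfl⟩
  have hmap : U.map (W.comap T).mkQ = ⊤ := by
    rw [Submodule.map_span, ← Set.image_comp, eq_top_iff, ← ht]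
    apply Submodule.span_mono
    intro q hq
    refine ⟨q, hq, ?_⟩
    simp only [Function.comp]
    exact Quotient.out_eq q
  have hv : (W.comap T).mkQ v ∈ U.map (W.comap T).mkQ := by rw [hmap]; trivial
  obtain ⟨u, hu, huv⟩ := hv
  have hdiff : v - u ∈ W.comap T := by
    rw [← Submodule.ker_mkQ (W.comap T), LinearMap.mem_ker, map_sub, huv, sub_self]
  have : T v = T (v - u) + T u := by rw [← map_add]; congr 1; abel
  rw [this]
  exact Submodule.add_mem_sup hdiff (Submodule.mem_map_of_mem hu)

end Pool.Agent.Lib.MP_37efd7_lc
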