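import Pool.Agent.Lib.MP_37efd7_lc.Topologize

/-!
Iterated sequential closures, and the group without non-discrete sequential group topologies.
-/

namespace Pool.Agent.Lib.MP_37efd7_lc

open Filter Topology Ordinal

variable {X : Type*} [TopologicalSpace X]

theorem seqIter_zero (A : Set X) : seqIter A 0 = A := by
  unfold seqIter
  rw [Ordinal.limitRecOn_zero]

theorem seqIter_add_one (A : Set X) (α : Ordinal.{0}) :
    seqIter A (α + 1) = seqLim (seqIter A α) := by
  unfold seqIter
  rw [Ordinal.limitRecOn_add_one]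

theorem seqIter_limit (A : Set X) (α : Ordinal.{0}) (hα : Order.IsSuccLimit α) :
    seqIter A α = ⋃ β : Set.Iio α, seqIter A β.1 := by
  unfold seqIter
  rw [Ordinal.limitRecOn_limit _ _ _ _ hα]

theorem subset_seqLim (A : Set X) : A ⊆ seqLim A :=
  fun x hx => ⟨fun _ => x, fun _ => hx, tendsto_const_nhds⟩

theorem seqLim_subset_closure (A : Set X) : seqLim A ⊆ closure A := by
  rintro x ⟨u, hu, hux⟩
  exact mem_closure_of_tendsto hux (Eventually.of_forall hu)

theorem seqLim_mono {A B : Set X} (h : A ⊆ B) : seqLim A ⊆ seqLim B := by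
  rintro x ⟨u, hu, hux⟩
  exact ⟨u, fun n => h (hu n), hux⟩

theorem seqIter_subset_closure (A : Set X) (α : Ordinal.{0}) : seqIter A α ⊆ closure A := by
  induction α using Ordinal.limitRecOn with
  | zero => rw [seqIter_zero]; exact subset_closure
  | add_one α ih =>
    rw [seqIter_add_one]
    exact (seqLim_subset_closure _).trans (closure_minimal ih isClosed_closure)
  | limit α hα ih =>
    rw [seqIter_limit A α hα]
    exact Set.iUnion_subset (fun β => ih β.1 β.2)

theorem seqIter_mono_right (A : Set X) {α β : Ordinal.{0}} (h : α ≤ β) :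
    seqIter A α ⊆ seqIter A β := by
  induction β using Ordinal.limitRecOn with
  | zero =>
    have : α = 0 := le_antisymm h bot_le
    rw [this]
  | add_one β ih =>
    rcases h.lt_or_eq with h' | h'
    · have : α ≤ β := Order.lt_succ_iff.mp (by simpa using h')
      rw [seqIter_add_one]
      exact (ih this).trans (subset_seqLim _)
    · rw [h']
  | limit β hβ ih =>
    rcases h.lt_or_eq with h' | h'
    · rw [seqIter_limit A β hβ]
      exact Set.subset_iUnion (fun γ : Set.Iio β => seqIter A γ.1) ⟨α, h'⟩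
    · rw [h']

/-- If convergent sequences are eventually constant, sequential closures are trivial. -/
theorem seqIter_of_eventually (h : ∀ (u : ℕ → X) (x : X), Tendsto u atTop (𝓝 x) →
    ∀ᶠ n in atTop, u n = x) (A : Set X) (α : Ordinal.{0}) : seqIter A α = A := by
  have hlim : seqLim A = A := by
    apply Set.Subset.antisymm _ (subset_seqLim A)
    rintro x ⟨u, hu, hux⟩
    obtain ⟨n, hn⟩ := (h u x hux).exists
    rw [← hn]; exact hu n
  induction α using Ordinal.limitRecOn with
  | zero => exact seqIter_zero A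
  | add_one α ih => rw [seqIter_add_one, ih, hlim]
  | limit α hα ih =>
    rw [seqIter_limit A α hα]
    apply Set.Subset.antisymm
    · apply Set.iUnion_subset
      intro β
      rw [ih β.1 β.2]
    · have h0 : (0 : Ordinal.{0}) < α := hα.bot_lt
      intro x hx
      rw [Set.mem_iUnion]
      exact ⟨⟨0, h0⟩, by rw [seqIter_zero]; exact hx⟩

theorem discrete_of_eventually (h : ∀ (u : ℕ → X) (x : X), Tendsto u atTop (𝓝 x) →
    ∀ᶠ n in atTop, u n = x) (hX : IsSequential X) : DiscreteTopology X := by
  have : ∀ A : Set X, IsClosed A := by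
    intro A
    have h1 := hX A
    rw [seqIter_of_eventually h] at h1
    rw [h1]; exact isClosed_closure
  rw [discreteTopology_iff_forall_isOpen]
  intro s
  rw [← isClosed_compl_iff]
  exact this _

theorem seqOrder_of_discrete [DiscreteTopology X] : seqOrder X = 0 := by
  have h0 : (0 : Ordinal.{0}) ∈ {α : Ordinal.{0} | ∀ A : Set X, seqIter A α = closure A} := by
    intro A
    rw [seqIter_zero, closure_discrete]
  exact le_antisymm (csInf_le' h0) bot_le

/-- If every sequential group topology on `G` is discrete, none has intermediate order. -/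
theorem not_admits_of_discrete {G : Type*} [Group G]
    (h : ∀ t : TopologicalSpace G, IsTopologicalGroup G → T2Space G → IsSequential G →
      DiscreteTopology G) : ¬ AdmitsIntermediate G := by
  rintro ⟨t, h1, h2, h3, h4, _⟩
  have := h t h1 h2 h3
  rw [seqOrder_of_discrete] at h4
  exact absurd h4 (not_lt.mpr bot_le)

/-- The ZFC example. -/
theorem exists_group : ∃ (G : Type) (_ : Group G), Topologizable G ∧
    (∀ t : TopologicalSpace G, IsTopologicalGroup G → T2Space G →
      ∀ (u : ℕ → G) (x : G), Tendsto u atTop (𝓝 x) → ∀ᶠ n in atTop, u n = x) ∧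
    (∀ t : TopologicalSpace G, IsTopologicalGroup G → T2Space G → IsSequential G →
      DiscreteTopology G) ∧ ¬ AdmitsIntermediate G := by
  have : Fact (Nat.Prime 2) := ⟨Nat.prime_two⟩
  have hV : Cardinal.aleph0 < Module.rank (ZMod 2) (Set ℕ →₀ ZMod 2) := by
    rw [rank_finsupp_self']
    simpa using Cardinal.aleph0_lt_continuum
  have h0 : ∀ t : TopologicalSpace (GLmod (ZMod 2) (Set ℕ →₀ ZMod 2)),
      IsTopologicalGroup (GLmod (ZMod 2) (Set ℕ →₀ ZMod 2)) →
      T2Space (GLmod (ZMod 2) (Set ℕ →₀ ZMod 2)) →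
      ∀ (u : ℕ → GLmod (ZMod 2) (Set ℕ →₀ ZMod 2)) (x : GLmod (ZMod 2) (Set ℕ →₀ ZMod 2)),
        Tendsto u atTop (𝓝 x) → ∀ᶠ n in atTop, u n = x := by
    intro t h1 h2 u x hu
    exact eventually_eq u x hu
  have h : ∀ t : TopologicalSpace (GLmod (ZMod 2) (Set ℕ →₀ ZMod 2)),
      IsTopologicalGroup (GLmod (ZMod 2) (Set ℕ →₀ ZMod 2)) →
      T2Space (GLmod (ZMod 2) (Set ℕ →₀ ZMod 2)) →
      IsSequential (GLmod (ZMod 2) (Set ℕ →₀ ZMod 2)) →
      DiscreteTopology (GLmod (ZMod 2) (Set ℕ →₀ ZMod 2)) := by
    intro t h1 h2 h3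
    exact discrete_of_eventually (h0 t h1 h2) h3
  exact ⟨GLmod (ZMod 2) (Set ℕ →₀ ZMod 2), inferInstance, topologizable_GLmod hV, h0, h,
    not_admits_of_discrete h⟩

end Pool.Agent.Lib.MP_37efd7_lc
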