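import Pool.Agent.Lib.MP_37efd7_lc.Family
import Pool.Agent.Lib.MP_37efd7_lc.Seq

/-!
The group of sequential order two built from a nice family.
-/

namespace Pool.Agent.Lib.MP_37efd7_lc

open Filter Topology Ordinal

/-- The functions `Λ → ZMod 2` with countable support. -/
def ctblSupp (Λ : Type) : AddSubgroup (Λ → ZMod 2) where
  carrier := {z | {ξ | z ξ ≠ 0}.Countable}
  add_mem' := by
    intro x y hx hy
    refine (Set.Countable.union hx hy).mono ?_
    intro ξ hξ
    by_contra hcon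
    simp only [Set.mem_union, Set.mem_ofPred_eq, not_or, not_not] at hcon
    apply hξ
    simp [hcon.1, hcon.2]
  zero_mem' := by simp
  neg_mem' := by
    intro x hx
    refine Set.Countable.mono ?_ hx
    intro ξ hξ h
    apply hξ
    simpa using h

variable {Λ : Type}

/-- The group of pairs `(F, z)`, with `F` finitely supported on `ℕ` and `z` countably supported
on `Λ`. -/
def GOne (_a : Λ → ℕ → ZMod 2) : Type := (ℕ →₀ ZMod 2) × ctblSupp Λ

noncomputable instance (a : Λ → ℕ → ZMod 2) : AddCommGroup (GOne a) :=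
  inferInstanceAs (AddCommGroup ((ℕ →₀ ZMod 2) × ctblSupp Λ))

/-- The coordinates of `(F, z)`: the values `F k`, and `z ξ + ∑ F k * a ξ k`. -/
noncomputable def coord (a : Λ → ℕ → ZMod 2) : GOne a →+ (ℕ ⊕ Λ → ZMod 2) where
  toFun p := Sum.elim (fun k => p.1 k) (fun ξ => p.2.1 ξ + p.1.sum (fun k x => x * a ξ k))
  map_zero' := by
    funext i
    rcases i with k | ξ
    · rfl
    · change (0 : ZMod 2) + Finsupp.sum (0 : ℕ →₀ ZMod 2) _ = 0
      simp
  map_add' := by
    intro p q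
    funext i
    rcases i with k | ξ
    · rfl
    · change (p.2.1 ξ + q.2.1 ξ) + Finsupp.sum (p.1 + q.1) _ = (p.2.1 ξ + _) + (q.2.1 ξ + _)
      rw [Finsupp.sum_add_index' (by simp) (by intros; ring)]
      ring

theorem coord_inl (a : Λ → ℕ → ZMod 2) (p : GOne a) (k : ℕ) : coord a p (Sum.inl k) = p.1 k := rfl

theorem coord_inr (a : Λ → ℕ → ZMod 2) (p : GOne a) (ξ : Λ) :
    coord a p (Sum.inr ξ) = p.2.1 ξ + p.1.sum (fun k x => x * a ξ k) := rfl

theorem sum_eq_par (F : ℕ →₀ ZMod 2) (b : ℕ → ZMod 2) :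
    F.sum (fun k x => x * b k) = par F.support b := by
  unfold Finsupp.sum par
  apply Finset.sum_congr rfl
  intro k hk
  change F k * b k = b k
  rw [zmod2_ne_zero (Finsupp.mem_support_iff.mp hk), one_mul]

theorem coord_injective (a : Λ → ℕ → ZMod 2) : Function.Injective (coord a) := by
  intro p q h
  have h1 : p.1 = q.1 := Finsupp.ext (fun k => congrFun h (Sum.inl k))
  have h2 : p.2 = q.2 := by
    apply Subtype.ext
    funext ξ
    have := congrFun h (Sum.inr ξ)
    rw [coord_inr, coord_inr, h1] at this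
    exact add_right_cancel this
  exact Prod.ext h1 h2

noncomputable instance (a : Λ → ℕ → ZMod 2) : TopologicalSpace (GOne a) :=
  TopologicalSpace.induced (coord a) inferInstance

theorem isInducing (a : Λ → ℕ → ZMod 2) : IsInducing (coord a) := ⟨rfl⟩

instance (a : Λ → ℕ → ZMod 2) : IsTopologicalAddGroup (GOne a) :=
  topologicalAddGroup_induced (coord a)

instance (a : Λ → ℕ → ZMod 2) : T2Space (GOne a) :=
  T2Space.of_injective_continuous (coord_injective a) (isInducing a).continuous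

theorem tendsto_iff {a : Λ → ℕ → ZMod 2} (u : ℕ → GOne a) (x : GOne a) :
    Tendsto u atTop (𝓝 x) ↔ ∀ i, ∀ᶠ n in atTop, coord a (u n) i = coord a x i := by
  rw [(isInducing a).tendsto_nhds_iff, tendsto_pi_nhds]
  apply forall_congr'
  intro i
  rw [nhds_discrete, tendsto_pure]
  rfl

theorem mem_closure_iff' {a : Λ → ℕ → ZMod 2} (Y : Set (GOne a)) (x : GOne a) :
    x ∈ closure Y ↔ ∀ S : Finset (ℕ ⊕ Λ), ∃ y ∈ Y, ∀ i ∈ S, coord a y i = coord a x i := by
  rw [(isInducing a).closure_eq_preimage_closure_image, Set.mem_preimage, mem_closure_iff]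
  constructor
  · intro h S
    have hU : IsOpen {g : ℕ ⊕ Λ → ZMod 2 | ∀ i ∈ S, g i = coord a x i} := by
      have : {g : ℕ ⊕ Λ → ZMod 2 | ∀ i ∈ S, g i = coord a x i}
          = ⋂ i ∈ S, (fun g : ℕ ⊕ Λ → ZMod 2 => g i) ⁻¹' {coord a x i} := by
        ext g; simp
      rw [this]
      apply isOpen_biInter_finset
      intro i _
      exact (isOpen_discrete _).preimage (continuous_apply i)
    obtain ⟨g, hg, ⟨y, hy, rfl⟩⟩ := h _ hU (fun i _ => rfl)
    exact ⟨y, hy, hg⟩
  · intro h U hU hx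
    obtain ⟨I, u, hu, hsub⟩ := (isOpen_pi_iff.mp hU) _ hx
    obtain ⟨y, hy, hyI⟩ := h I
    refine ⟨coord a y, hsub ?_, ⟨y, hy, rfl⟩⟩
    intro i hi
    rw [hyI i hi]
    exact (hu i hi).2

/-- The element `(0, z)`. -/
def ofZ (a : Λ → ℕ → ZMod 2) (z : ctblSupp Λ) : GOne a := ((0 : ℕ →₀ ZMod 2), z)

theorem coord_ofZ_inl (a : Λ → ℕ → ZMod 2) (z : ctblSupp Λ) (k : ℕ) :
    coord a (ofZ a z) (Sum.inl k) = 0 := rfl

theorem coord_ofZ_inr (a : Λ → ℕ → ZMod 2) (z : ctblSupp Λ) (ξ : Λ) :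
    coord a (ofZ a z) (Sum.inr ξ) = z.1 ξ := by
  rw [coord_inr]
  change z.1 ξ + Finsupp.sum (0 : ℕ →₀ ZMod 2) _ = z.1 ξ
  simp

/-- Passing to the limit along a subsequence. -/
theorem exists_limit {a : Λ → ℕ → ZMod 2} (ha : NiceFamily a) {Y : Set (GOne a)}
    (hY : (0 : GOne a) ∈ closure Y) (c : Set Λ) (hc : c.Countable) :
    ∃ z : ctblSupp Λ, ofZ a z ∈ seqLim Y ∧ ∀ ξ ∈ c, z.1 ξ = 0 := by
  classical
  rw [mem_closure_iff'] at hY
  obtain ⟨S, hSc⟩ : ∃ S : ℕ → Finset (ℕ ⊕ Λ),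
      ∀ i ∈ (Set.range (Sum.inl : ℕ → ℕ ⊕ Λ) ∪ Sum.inr '' c), ∀ᶠ n in atTop, i ∈ S n := by
    have hcc : (Set.range (Sum.inl : ℕ → ℕ ⊕ Λ) ∪ Sum.inr '' c).Countable :=
      (Set.countable_range _).union (hc.image _)
    obtain ⟨T, hT1, hT2⟩ := exists_exhaust hcc
    exact ⟨T, hT2⟩
  -- choose the sequence with disjoint supports
  obtain ⟨y, hy⟩ := exists_seq_hist (α := GOne a)
    (fun n f x => x ∈ Y ∧ (∀ i ∈ S n, coord a x i = 0) ∧ ∀ j, ∀ k ∈ (f j).1.support, x.1 k = 0) (by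
      intro n f
      obtain ⟨x, hx, hxS⟩ := hY (S n ∪ Finset.univ.biUnion
        (fun j => (f j).1.support.image Sum.inl))
      rw [map_zero] at hxS
      refine ⟨x, hx, fun i hi => ?_, fun j k hk => ?_⟩
      · rw [hxS i (Finset.mem_union_left _ hi)]; rfl
      · have := hxS (Sum.inl k) (Finset.mem_union_right _ (by
          simp only [Finset.mem_biUnion, Finset.mem_univ, true_and]
          exact ⟨j, Finset.mem_image_of_mem _ hk⟩))
        rw [coord_inl] at this
        rw [this]; rfl)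
  have hdisj : ∀ m n, m < n → Disjoint (y m).1.support (y n).1.support := by
    intro m n hmn
    rw [Finset.disjoint_left]
    intro k hk hk'
    exact (Finsupp.mem_support_iff.mp hk') ((hy n).2.2 ⟨m, hmn⟩ k hk)
  have hdisj' : ∀ m n, m ≠ n → Disjoint (y m).1.support (y n).1.support := by
    intro m n hmn
    rcases lt_or_gt_of_ne hmn with h | h
    · exact hdisj m n h
    · exact (hdisj n m h).symm
  obtain ⟨φ, hφ, N, hN, hev⟩ := ha.even (fun n => (y n).1.support) hdisj'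
  -- the countable set of relevant coordinates
  let E : Set Λ := (c ∪ N) ∪ ⋃ n, {ξ | (y n).2.1 ξ ≠ 0}
  have hE : E.Countable := by
    refine (hc.union hN).union (Set.countable_iUnion fun n => (y n).2.2)
  have : Countable E := hE.to_subtype
  obtain ⟨L, ψ, hψ, hL⟩ := CompactSpace.tendsto_subseq
    (fun n => (fun ξ : E => coord a (y (φ n)) (Sum.inr ξ.1)))
  have hL' : ∀ ξ : E, ∀ᶠ n in atTop, coord a (y (φ (ψ n))) (Sum.inr ξ.1) = L ξ := by
    intro ξ
    have h1 := (tendsto_pi_nhds.mp hL) ξ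
    rw [nhds_discrete, tendsto_pure] at h1
    exact h1
  have hgo : Tendsto (fun n => φ (ψ n)) atTop atTop := (hφ.comp hψ).tendsto_atTop
  have hz : {ξ | (if h : ξ ∈ E then L ⟨ξ, h⟩ else 0) ≠ 0}.Countable := by
    refine hE.mono ?_
    intro ξ hξ
    by_contra h
    apply hξ
    rw [dif_neg h]
  let z : ctblSupp Λ := ⟨fun ξ => if h : ξ ∈ E then L ⟨ξ, h⟩ else 0, hz⟩
  refine ⟨z, ⟨fun n => y (φ (ψ n)), fun n => (hy _).1, ?_⟩, ?_⟩
  · rw [tendsto_iff]
    rintro (k | ξ)
    · rw [coord_ofZ_inl]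
      have h1 := hgo.eventually (hSc (Sum.inl k) (Or.inl ⟨k, rfl⟩))
      filter_upwards [h1] with n hn
      exact (hy _).2.1 _ hn
    · rw [coord_ofZ_inr]
      by_cases hξ : ξ ∈ E
      · filter_upwards [hL' ⟨ξ, hξ⟩] with n hn
        rw [hn]
        simp only [z]
        rw [dif_pos hξ]
      · have hz0 : z.1 ξ = 0 := by
          simp only [z]
          rw [dif_neg hξ]
        rw [hz0]
        have hξN : ξ ∉ N := fun h => hξ (Or.inl (Or.inr h))
        have h1 := hψ.tendsto_atTop.eventually (hev ξ hξN)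
        filter_upwards [h1] with n hn
        rw [coord_inr, sum_eq_par, hn, add_zero]
        by_contra hne
        exact hξ (Or.inr (Set.mem_iUnion.mpr ⟨φ (ψ n), hne⟩))
  · intro ξ hξ
    have hξE : ξ ∈ E := Or.inl (Or.inl hξ)
    have h1 := hgo.eventually (hSc (Sum.inr ξ) (Or.inr ⟨ξ, hξ, rfl⟩))
    obtain ⟨n, hn1, hn2⟩ := (h1.and (hL' ⟨ξ, hξE⟩)).exists
    have h3 := (hy _).2.1 _ hn1
    simp only [z]
    rw [dif_pos hξE, ← hn2]
    exact h3

/-- Two sequential closures reach a point of the closure. -/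
theorem zero_mem_seqLim_seqLim {a : Λ → ℕ → ZMod 2} (ha : NiceFamily a) {Y : Set (GOne a)}
    (hY : (0 : GOne a) ∈ closure Y) : (0 : GOne a) ∈ seqLim (seqLim Y) := by
  classical
  obtain ⟨z, hz⟩ := exists_seq_hist (α := ctblSupp Λ)
    (fun n f x => ofZ a x ∈ seqLim Y ∧ ∀ j, ∀ ξ, (f j).1 ξ ≠ 0 → x.1 ξ = 0) (by
      intro n f
      obtain ⟨x, hx1, hx2⟩ := exists_limit ha hY (⋃ j, {ξ | (f j).1 ξ ≠ 0})
        (Set.countable_iUnion fun j => (f j).2)
      exact ⟨x, hx1, fun j ξ hξ => hx2 ξ (Set.mem_iUnion.mpr ⟨j, hξ⟩)⟩)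
  refine ⟨fun n => ofZ a (z n), fun n => (hz n).1, ?_⟩
  rw [tendsto_iff, map_zero]
  rintro (k | ξ)
  · simp only [coord_ofZ_inl]
    exact Eventually.of_forall fun n => rfl
  · simp only [coord_ofZ_inr]
    by_cases h : ∃ m, (z m).1 ξ ≠ 0
    · obtain ⟨m, hm⟩ := h
      filter_upwards [eventually_gt_atTop m] with n hn
      exact (hz n).2 ⟨m, hn⟩ ξ hm
    · push Not at h
      exact Eventually.of_forall fun n => h n

theorem seqLim_preimage_add {a : Λ → ℕ → ZMod 2} (x : GOne a) (Y : Set (GOne a)) :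
    seqLim ((fun y => y + x) ⁻¹' Y) ⊆ (fun y => y + x) ⁻¹' seqLim Y := by
  rintro w ⟨u, hu, huw⟩
  exact ⟨fun n => u n + x, hu, huw.add_const x⟩

theorem closure_subset {a : Λ → ℕ → ZMod 2} (ha : NiceFamily a) (Y : Set (GOne a)) :
    closure Y ⊆ seqLim (seqLim Y) := by
  intro x hx
  have h0 : (0 : GOne a) ∈ closure ((fun y => y + x) ⁻¹' Y) := by
    rw [mem_closure_iff'] at hx ⊢
    intro S
    obtain ⟨y, hy, hyS⟩ := hx S
    refine ⟨y - x, ?_, ?_⟩
    · change y - x + x ∈ Y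
      rw [sub_add_cancel]; exact hy
    · intro i hi
      rw [map_sub, map_zero, Pi.sub_apply, hyS i hi]
      exact sub_self _
  have h1 := zero_mem_seqLim_seqLim ha h0
  have h2 := seqLim_preimage_add x (seqLim Y) (seqLim_mono (seqLim_preimage_add x Y) h1)
  have h3 : (0 : GOne a) + x ∈ seqLim (seqLim Y) := h2
  rwa [zero_add] at h3

/-- The point `(e_k, 0)`. -/
noncomputable def ePt (a : Λ → ℕ → ZMod 2) (k : ℕ) : GOne a :=
  (Finsupp.single k (1 : ZMod 2), (0 : ctblSupp Λ))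

/-- The set of the points `(e_k, 0)`. -/
noncomputable def eSet (a : Λ → ℕ → ZMod 2) : Set (GOne a) := Set.range (ePt a)

theorem coord_e_inl (a : Λ → ℕ → ZMod 2) (k j : ℕ) :
    coord a (ePt a k) (Sum.inl j)
      = if k = j then 1 else 0 := by
  rw [coord_inl]
  change Finsupp.single k (1 : ZMod 2) j = _
  rw [Finsupp.single_apply]

theorem coord_e_inr (a : Λ → ℕ → ZMod 2) (k : ℕ) (ξ : Λ) :
    coord a (ePt a k) (Sum.inr ξ)
      = a ξ k := by
  rw [coord_inr]
  change (0 : ZMod 2) + Finsupp.sum (Finsupp.single k (1 : ZMod 2)) _ = _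
  rw [Finsupp.sum_single_index (by simp)]
  ring

theorem zero_mem_closure_eSet {a : Λ → ℕ → ZMod 2} (ha : NiceFamily a) :
    (0 : GOne a) ∈ closure (eSet a) := by
  classical
  rw [mem_closure_iff', map_zero]
  intro S
  let SΛ : Finset Λ := S.preimage Sum.inr Sum.inr_injective.injOn
  let SN : Finset ℕ := S.preimage Sum.inl Sum.inl_injective.injOn
  obtain ⟨k, hk1, hk2⟩ := (ha.sfip SΛ).exists_notMem_finset SN
  refine ⟨_, ⟨k, rfl⟩, ?_⟩
  rintro (j | ξ) hi
  · rw [coord_e_inl, if_neg]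
    · rfl
    · rintro rfl
      exact hk2 (by simp only [SN, Finset.mem_preimage]; exact hi)
  · rw [coord_e_inr]
    exact hk1 ξ (by simp only [SΛ, Finset.mem_preimage]; exact hi)

theorem zero_notMem_seqLim_eSet {a : Λ → ℕ → ZMod 2} (ha : NiceFamily a) :
    (0 : GOne a) ∉ seqLim (eSet a) := by
  classical
  rintro ⟨u, hu, hu0⟩
  choose κ hκ using hu
  rw [tendsto_iff, map_zero] at hu0
  have h1 : ∀ j, ∀ᶠ n in atTop, κ n ≠ j := by
    intro j
    filter_upwards [hu0 (Sum.inl j)] with n hn h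
    rw [← hκ, coord_e_inl, if_pos h] at hn
    exact one_ne_zero hn
  have h2 : ∀ ξ, ∀ᶠ n in atTop, a ξ (κ n) = 0 := by
    intro ξ
    filter_upwards [hu0 (Sum.inr ξ)] with n hn
    rw [← hκ, coord_e_inr] at hn
    exact hn
  have hinf : (Set.range κ).Infinite := by
    intro hfin
    have h3 : ∀ᶠ n in atTop, ∀ j ∈ Set.range κ, κ n ≠ j := by
      rw [eventually_all_finite hfin]
      exact fun j _ => h1 j
    obtain ⟨n, hn⟩ := h3.exists
    exact hn (κ n) ⟨n, rfl⟩ rfl
  obtain ⟨ξ, hξ⟩ := ha.hit _ hinf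
  obtain ⟨n0, hn0⟩ := eventually_atTop.mp (h2 ξ)
  apply hξ
  refine ((Set.finite_lt_nat n0).image κ).subset ?_
  rintro k ⟨⟨n, rfl⟩, hk⟩
  refine ⟨n, ?_, rfl⟩
  by_contra hle
  exact hk (hn0 n (not_lt.mp hle))

theorem zero_notMem_eSet {a : Λ → ℕ → ZMod 2} (ha : NiceFamily a) :
    (0 : GOne a) ∉ eSet a := fun h => zero_notMem_seqLim_eSet ha (subset_seqLim _ h)

theorem seqIter_one {X : Type*} [TopologicalSpace X] (A : Set X) : seqIter A 1 = seqLim A := by
  have := seqIter_add_one A 0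
  rwa [zero_add, seqIter_zero] at this

theorem seqIter_two {X : Type*} [TopologicalSpace X] (A : Set X) :
    seqIter A 2 = seqLim (seqLim A) := by
  have := seqIter_add_one A 1
  rwa [seqIter_one, one_add_one_eq_two] at this

theorem seqIter_two_eq {a : Λ → ℕ → ZMod 2} (ha : NiceFamily a) (Y : Set (GOne a)) :
    seqIter Y 2 = closure Y := by
  apply Set.Subset.antisymm (seqIter_subset_closure Y 2)
  rw [seqIter_two]
  exact closure_subset ha Y

theorem two_lt_omega_one : (2 : Ordinal.{0}) < ω_ 1 :=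
  (Ordinal.natCast_lt_omega0 2).trans Ordinal.omega0_lt_omega_one

theorem isSequential_GOne {a : Λ → ℕ → ZMod 2} (ha : NiceFamily a) : IsSequential (GOne a) := by
  intro Y
  apply Set.Subset.antisymm (seqIter_subset_closure Y _)
  rw [← seqIter_two_eq ha]
  exact seqIter_mono_right Y two_lt_omega_one.le

theorem seqOrder_GOne {a : Λ → ℕ → ZMod 2} (ha : NiceFamily a) : seqOrder (GOne a) = 2 := by
  have hne : (2 : Ordinal.{0}) ∈ {α : Ordinal.{0} | ∀ A : Set (GOne a), seqIter A α = closure A} :=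
    fun Y => seqIter_two_eq ha Y
  have hle : seqOrder (GOne a) ≤ 2 := csInf_le' hne
  have hmem : ∀ A : Set (GOne a), seqIter A (seqOrder (GOne a)) = closure A :=
    csInf_mem ⟨2, hne⟩
  apply le_antisymm hle
  by_contra hlt
  rw [not_le] at hlt
  have h1 : seqOrder (GOne a) ≤ 1 := by
    rw [← Order.lt_add_one_iff, one_add_one_eq_two]
    exact hlt
  apply zero_notMem_seqLim_eSet ha
  rw [← seqIter_one]
  apply seqIter_mono_right _ h1
  rw [hmem]
  exact zero_mem_closure_eSet ha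

theorem not_discrete_GOne {a : Λ → ℕ → ZMod 2} (ha : NiceFamily a) :
    ¬ DiscreteTopology (GOne a) := by
  intro h
  have h1 := zero_mem_closure_eSet ha
  rw [closure_discrete] at h1
  exact zero_notMem_eSet ha h1

/-- Under the continuum hypothesis there is a group with a group topology of sequential order
two. -/
theorem exists_order_two (CH : Cardinal.aleph.{0} 1 = Cardinal.continuum.{0}) :
    ∃ (G : Type) (_ : CommGroup G) (_ : TopologicalSpace G), IsTopologicalGroup G ∧ T2Space G ∧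
      ¬ DiscreteTopology G ∧ IsSequential G ∧ seqOrder G = 2 := by
  obtain ⟨Λ, a, ha⟩ := exists_niceFamily_of_CH CH
  refine ⟨Multiplicative (GOne a), inferInstance, inferInstance, inferInstance, ?_, ?_, ?_, ?_⟩
  · exact (inferInstance : T2Space (GOne a))
  · intro h
    apply not_discrete_GOne ha
    exact ⟨h.eq_bot⟩
  · exact isSequential_GOne ha
  · exact seqOrder_GOne ha

end Pool.Agent.Lib.MP_37efd7_lc
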