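import Pool.Agent.Lib.MP_37efd7_lc.FinRank

/-!
Recursion over finite histories, and generic sequences of vectors.
-/

namespace Pool.Agent.Lib.MP_37efd7_lc

open Module LinearMap

/-- Dependent choice along finite histories. -/
theorem exists_seq_hist {α : Type*} (P : ∀ k : ℕ, (Fin k → α) → α → Prop)
    (h : ∀ k f, ∃ a, P k f a) : ∃ s : ℕ → α, ∀ k, P k (fun i => s i) (s k) := by
  classical
  let step : ∀ k : ℕ, (∀ m, m < k → α) → α := fun k ih => Classical.choose (h k (fun i => ih i i.2))
  let s : ℕ → α := WellFounded.fix Nat.lt_wfRel.wf step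
  refine ⟨s, fun k => ?_⟩
  have h1 : s k = step k (fun m _ => s m) := WellFounded.fix_eq Nat.lt_wfRel.wf step k
  have h2 := Classical.choose_spec (h k (fun i => s i))
  rw [h1]
  exact h2

variable {F : Type*} [Field F] {V : Type*} [AddCommGroup V] [Module F V]

/-- `T 0, ..., T (m-1)` are linearly independent modulo finite rank operators. -/
def IndepMod (T : ℕ → Module.End F V) (m : ℕ) : Prop :=
  ∀ c : ℕ → F, FinRank (∑ j ∈ Finset.range m, c j • T j) → ∀ j < m, c j = 0

theorem exists_generic_step [Finite F] (T : ℕ → Module.End F V) (m : ℕ) (hT : IndepMod T m)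
    (W : Submodule F V) (hW : W.FG) :
    ∃ v, ∀ c : ℕ → F, (∑ j ∈ Finset.range m, c j • T j v) ∈ W → ∀ j < m, c j = 0 := by
  classical
  have : Fintype F := Fintype.ofFinite F
  let ext : (Fin m → F) → ℕ → F := fun c j => if h : j < m then c ⟨j, h⟩ else 0
  let s : Finset (Module.End F V) :=
    (Finset.univ.filter (fun c : Fin m → F => c ≠ 0)).image
      (fun c => ∑ j ∈ Finset.range m, (ext c j) • T j)
  have hs : ∀ S ∈ s, ¬ FinRank S := by
    intro S hS hfr
    simp only [s, Finset.mem_image, Finset.mem_filter, Finset.mem_univ, true_and] at hS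
    obtain ⟨c, hc, rfl⟩ := hS
    apply hc
    funext j
    have := hT (ext c) hfr j j.2
    simpa [ext] using this
  obtain ⟨v, hv⟩ := exists_avoid s hs W hW
  refine ⟨v, fun c hc => ?_⟩
  by_contra hne
  push Not at hne
  obtain ⟨j0, hj0, hcj0⟩ := hne
  refine hv (∑ j ∈ Finset.range m, (ext (fun j => c j) j) • T j) ?_ ?_
  · simp only [s, Finset.mem_image, Finset.mem_filter, Finset.mem_univ, true_and]
    refine ⟨fun j => c j, ?_, rfl⟩
    intro h0
    apply hcj0
    have := congrFun h0 ⟨j0, hj0⟩
    simpa using this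
  · have : (∑ j ∈ Finset.range m, (ext (fun j => c j) j) • T j) v
        = ∑ j ∈ Finset.range m, c j • T j v := by
      rw [LinearMap.sum_apply]
      apply Finset.sum_congr rfl
      intro j hj
      have hj' : j < m := Finset.mem_range.mp hj
      simp [ext, hj']
    rw [this]
    exact hc

theorem exists_generic [Finite F] (T : ℕ → ℕ → Module.End F V) (m : ℕ → ℕ)
    (hT : ∀ i, IndepMod (T i) (m i)) :
    ∃ v : ℕ → V, LinearIndepOn F (fun p : ℕ × ℕ => T p.1 p.2 (v p.1)) {p | p.2 < m p.1} := by
  classical
  obtain ⟨v, hv⟩ := exists_seq_hist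
    (fun (k : ℕ) (f : Fin k → V) (a : V) =>
      ∀ c : ℕ → F, (∑ j ∈ Finset.range (m k), c j • T k j a) ∈
        Submodule.span F (⋃ i : Fin k, (fun j => T i j (f i)) '' {j | j < m i}) →
        ∀ j < m k, c j = 0)
    (by
      intro k f
      apply exists_generic_step (T k) (m k) (hT k)
      apply Submodule.fg_span
      apply Set.finite_iUnion
      intro i
      exact (Set.finite_lt_nat (m i)).image _)
  refine ⟨v, ?_⟩
  set w : ℕ × ℕ → V := fun p => T p.1 p.2 (v p.1) with hw
  let S : ℕ → Set (ℕ × ℕ) := fun k => {p | p.1 < k ∧ p.2 < m p.1}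
  have hS : ∀ k, LinearIndepOn F w (S k) := by
    intro k
    induction k with
    | zero =>
      have : S 0 = ∅ := by ext p; simp [S]
      rw [this]; exact linearIndepOn_empty F w
    | succ k ih =>
      let t : Finset (ℕ × ℕ) := (Finset.range (m k)).map ⟨fun j => (k, j), by
        intro a b h; simpa using h⟩
      have hSu : S (k + 1) = S k ∪ (t : Set (ℕ × ℕ)) := by
        ext ⟨a, b⟩
        constructor
        · rintro ⟨h1, h2⟩
          rcases Nat.lt_succ_iff_lt_or_eq.mp h1 with h | h
          · exact Or.inl ⟨h, h2⟩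
          · refine Or.inr ?_
            simp only [t, Finset.mem_coe, Finset.mem_map, Finset.mem_range]
            have h : a = k := h
            exact ⟨b, h ▸ h2, by rw [h]; rfl⟩
        · rintro (⟨h1, h2⟩ | h)
          · exact ⟨Nat.lt_succ_of_lt h1, h2⟩
          · simp only [t, Finset.mem_coe, Finset.mem_map, Finset.mem_range] at h
            obtain ⟨j, hj, hj2⟩ := h
            have h1 : k = a := congrArg Prod.fst hj2
            have h2 : j = b := congrArg Prod.snd hj2
            subst h1; subst h2
            exact ⟨Nat.lt_succ_self _, hj⟩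
      have hkey : ∀ c : ℕ → F, (∑ j ∈ Finset.range (m k), c j • w (k, j)) ∈
          Submodule.span F (w '' S k) → ∀ j < m k, c j = 0 := by
        intro c hc
        apply hv k c
        refine Submodule.span_mono ?_ hc
        rintro _ ⟨⟨a, b⟩, ⟨h1, h2⟩, rfl⟩
        simp only [Set.mem_iUnion]
        exact ⟨⟨a, h1⟩, b, h2, rfl⟩
      rw [hSu]
      refine ih.union ?_ ?_
      · rw [linearIndepOn_finset_iff]
        intro g hg
        have h0 : (∑ j ∈ Finset.range (m k), (fun j => g (k, j)) j • w (k, j)) = 0 := by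
          rw [Finset.sum_map] at hg
          exact hg
        have := hkey (fun j => g (k, j)) (by rw [h0]; exact Submodule.zero_mem _)
        intro p hp
        simp only [t, Finset.mem_map, Finset.mem_range] at hp
        obtain ⟨j, hj, rfl⟩ := hp
        exact this j hj
      · rw [Submodule.disjoint_def]
        intro x hx1 hx2
        rw [Submodule.mem_span_image_finset_iff_exists_fun'] at hx2
        obtain ⟨g, hg⟩ := hx2
        have hx : x = (∑ j ∈ Finset.range (m k), (fun j => g (k, j)) j • w (k, j)) := by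
          rw [← hg, Finset.sum_map]
          rfl
        have := hkey (fun j => g (k, j)) (by rw [← hx]; exact hx1)
        rw [hx]
        apply Finset.sum_eq_zero
        intro j hj
        have h3 : g (k, j) = 0 := this j (Finset.mem_range.mp hj)
        simp only [h3, zero_smul]
  have hU : {p : ℕ × ℕ | p.2 < m p.1} = ⋃ k, S k := by
    ext ⟨a, b⟩
    simp only [Set.mem_iUnion, S]
    exact ⟨fun h => ⟨a + 1, Nat.lt_succ_self a, h⟩, fun ⟨_, _, h⟩ => h⟩
  rw [hU]
  apply linearIndepOn_iUnion_of_directed _ hS
  intro a b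
  refine ⟨max a b, ?_, ?_⟩
  · rintro p ⟨h1, h2⟩; exact ⟨lt_of_lt_of_le h1 (le_max_left _ _), h2⟩
  · rintro p ⟨h1, h2⟩; exact ⟨lt_of_lt_of_le h1 (le_max_right _ _), h2⟩

end Pool.Agent.Lib.MP_37efd7_lc
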