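import Pool.Agent.Lib.MP_37efd7_lc.RingWord

/-!
In every Hausdorff group topology on `GL(V)` modulo the finitary subgroup (`V` a vector space over
a finite field) convergent sequences are eventually constant.
-/

namespace Pool.Agent.Lib.MP_37efd7_lc

open Module LinearMap Filter Topology
open scoped commutatorElement

variable {F : Type*} [Field F] {V : Type*} [AddCommGroup V] [Module F V]

theorem indepMod_of_forall (T : ℕ → Module.End F V)
    (h : ∀ m (c : ℕ → F), ¬ FinRank (T m - ∑ j ∈ Finset.range m, c j • T j)) (m : ℕ) :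
    IndepMod T m := by
  induction m with
  | zero => intro c _ j hj; omega
  | succ m ih =>
    intro c hc
    rw [Finset.sum_range_succ] at hc
    have hcm : c m = 0 := by
      by_contra hne
      apply h m (fun j => -((c m)⁻¹ * c j))
      have h1 := hc.smul (c m)⁻¹
      have h2 : (c m)⁻¹ • (∑ j ∈ Finset.range m, c j • T j + c m • T m)
          = T m - ∑ j ∈ Finset.range m, (-((c m)⁻¹ * c j)) • T j := by
        rw [smul_add, smul_smul, inv_mul_cancel₀ hne, one_smul, Finset.smul_sum]
        simp only [smul_smul, neg_smul, Finset.sum_neg_distrib, sub_neg_eq_add]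
        rw [add_comm]
      rw [h2] at h1
      exact h1
    rw [hcm, zero_smul, add_zero] at hc
    intro j hj
    rcases Nat.lt_succ_iff_lt_or_eq.mp hj with h' | h'
    · exact ih c hc j h'
    · rw [h']; exact hcm

/-- The operators attached to a finite history. -/
def histOp (G : ℕ → Module.End F V) (k : ℕ) (f : Fin k → ℕ) : ℕ → Module.End F V
  | 0 => 1
  | i + 1 => if h : i < k then G (f ⟨i, h⟩) else 0

theorem exists_subseq [Finite F] (hV : ¬ FinRank (1 : Module.End F V))
    (g : ℕ → (Module.End F V)ˣ)
    (h1 : ∀ S : Module.End F V, {n | FinRank ((g n).val - S)}.Finite)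
    (h2 : ∀ S : Module.End F V, {n | FinRank (((g n)⁻¹ : (Module.End F V)ˣ).val - S)}.Finite) :
    ∃ φ : ℕ → ℕ, StrictMono φ ∧ (∀ m, IndepMod (opg (g ∘ φ)) m) ∧
      (∀ m, IndepMod (opi (g ∘ φ)) m) := by
  classical
  have : Fintype F := Fintype.ofFinite F
  let G1 : ℕ → Module.End F V := fun n => (g n).val
  let G2 : ℕ → Module.End F V := fun n => ((g n)⁻¹ : (Module.End F V)ˣ).val
  obtain ⟨φ, hφ⟩ := exists_seq_hist
    (fun (k : ℕ) (f : Fin k → ℕ) (a : ℕ) => (∀ i, f i < a) ∧
      (∀ c : ℕ → F, ¬ FinRank (G1 a - ∑ j ∈ Finset.range (k + 1), c j • histOp G1 k f j)) ∧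
      (∀ c : ℕ → F, ¬ FinRank (G2 a - ∑ j ∈ Finset.range (k + 1), c j • histOp G2 k f j)))
    (by
      intro k f
      let ext : (Fin (k + 1) → F) → ℕ → F := fun c j => if h : j < k + 1 then c ⟨j, h⟩ else 0
      have hext : ∀ (c : ℕ → F) (T : ℕ → Module.End F V),
          ∑ j ∈ Finset.range (k + 1), c j • T j
            = ∑ j ∈ Finset.range (k + 1), ext (fun i => c i) j • T j := by
        intro c T
        apply Finset.sum_congr rfl
        intro j hj
        have h3 : j < k + 1 := Finset.mem_range.mp hj
        have h4 : ext (fun i => c i) j = c j := by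
          simp only [ext]
          rw [dif_pos h3]
        rw [h4]
      let B1 : Set ℕ := ⋃ c : Fin (k + 1) → F,
        {n | FinRank (G1 n - ∑ j ∈ Finset.range (k + 1), ext c j • histOp G1 k f j)}
      let B2 : Set ℕ := ⋃ c : Fin (k + 1) → F,
        {n | FinRank (G2 n - ∑ j ∈ Finset.range (k + 1), ext c j • histOp G2 k f j)}
      let B3 : Set ℕ := ⋃ i : Fin k, {n | n ≤ f i}
      have hB1 : B1.Finite := Set.finite_iUnion (fun c => h1 _)
      have hB2 : B2.Finite := Set.finite_iUnion (fun c => h2 _)
      have hB3 : B3.Finite := Set.finite_iUnion (fun i => Set.finite_le_nat _)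
      obtain ⟨a, ha⟩ := ((hB1.union hB2).union hB3).exists_notMem
      refine ⟨a, fun i => ?_, fun c hc => ?_, fun c hc => ?_⟩
      · by_contra hle
        apply ha
        right
        simp only [B3, Set.mem_iUnion]
        exact ⟨i, not_lt.mp hle⟩
      · apply ha
        left; left
        simp only [B1, Set.mem_iUnion]
        refine ⟨fun i => c i, ?_⟩
        rw [hext] at hc
        exact hc
      · apply ha
        left; right
        simp only [B2, Set.mem_iUnion]
        refine ⟨fun i => c i, ?_⟩
        rw [hext] at hc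
        exact hc)
  have hmono : StrictMono φ := strictMono_nat_of_lt_succ (fun n => (hφ (n + 1)).1 ⟨n, by omega⟩)
  refine ⟨φ, hmono, ?_, ?_⟩
  · apply indepMod_of_forall
    intro m c hc
    cases m with
    | zero => simp only [Finset.range_zero, Finset.sum_empty, sub_zero] at hc; exact hV hc
    | succ m =>
      apply (hφ m).2.1 c
      have : ∑ j ∈ Finset.range (m + 1), c j • histOp G1 m (fun i => φ i) j
          = ∑ j ∈ Finset.range (m + 1), c j • opg (g ∘ φ) j := by
        apply Finset.sum_congr rfl
        intro j hj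
        cases j with
        | zero => rfl
        | succ i =>
          have hi : i < m := by have := Finset.mem_range.mp hj; omega
          simp [histOp, opg, hi, G1]
      rw [this]
      exact hc
  · apply indepMod_of_forall
    intro m c hc
    cases m with
    | zero => simp only [Finset.range_zero, Finset.sum_empty, sub_zero] at hc; exact hV hc
    | succ m =>
      apply (hφ m).2.2 c
      have : ∑ j ∈ Finset.range (m + 1), c j • histOp G2 m (fun i => φ i) j
          = ∑ j ∈ Finset.range (m + 1), c j • opi (g ∘ φ) j := by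
        apply Finset.sum_congr rfl
        intro j hj
        cases j with
        | zero => rfl
        | succ i =>
          have hi : i < m := by have := Finset.mem_range.mp hj; omega
          simp [histOp, opi, hi, G2]
      rw [this]
      exact hc

variable (F V) in
/-- The general linear group of `V` modulo its finitary subgroup. -/
abbrev GLmod : Type _ := (Module.End F V)ˣ ⧸ finitary F V

theorem eventually_eq_one [Finite F] [TopologicalSpace (GLmod F V)]
    [IsTopologicalGroup (GLmod F V)] [T2Space (GLmod F V)] (q : ℕ → GLmod F V)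
    (hq : Tendsto q atTop (𝓝 1)) : ∀ᶠ n in atTop, q n = 1 := by
  classical
  by_cases hV : FinRank (1 : Module.End F V)
  · -- degenerate case: the group is trivial
    refine Eventually.of_forall (fun n => ?_)
    obtain ⟨g, hg⟩ := QuotientGroup.mk_surjective (q n)
    rw [← hg]
    change (QuotientGroup.mk g : GLmod F V) = QuotientGroup.mk 1
    rw [mk_eq_iff, frMk_eq_iff]
    have := hV.mul_right (g.val - 1)
    simpa using this
  by_contra hcon
  have hfreq : ∃ᶠ n in atTop, q n ≠ 1 := by
    rw [Filter.not_eventually] at hcon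
    exact hcon
  obtain ⟨ψ, hψ, hψ1⟩ := extraction_of_frequently_atTop hfreq
  have hq' : Tendsto (q ∘ ψ) atTop (𝓝 1) := hq.comp hψ.tendsto_atTop
  choose g hg using fun n => QuotientGroup.mk_surjective (q (ψ n))
  -- every value is taken finitely often
  have hval : ∀ r : GLmod F V, r ≠ 1 → {n | q (ψ n) = r}.Finite := by
    intro r hr
    have h1 : ∀ᶠ n in atTop, q (ψ n) ≠ r := hq'.eventually_ne hr.symm
    rw [eventually_atTop] at h1
    obtain ⟨N, hN⟩ := h1
    refine (Set.finite_lt_nat N).subset (fun n hn => ?_)
    by_contra hle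
    exact hN n (not_lt.mp hle) hn
  have h1 : ∀ S : Module.End F V, {n | FinRank ((g n).val - S)}.Finite := by
    intro S
    by_cases hne : {n | FinRank ((g n).val - S)}.Nonempty
    · obtain ⟨n0, hn0⟩ := hne
      refine (hval (q (ψ n0)) (hψ1 n0)).subset (fun n hn => ?_)
      change q (ψ n) = q (ψ n0)
      rw [← hg n, ← hg n0]
      exact mk_eq_iff.mpr ((frMk_eq_iff.mpr hn).trans (frMk_eq_iff.mpr hn0).symm)
    · rw [Set.not_nonempty_iff_eq_empty.mp hne]; exact Set.finite_empty
  have h2 : ∀ S : Module.End F V,
      {n | FinRank (((g n)⁻¹ : (Module.End F V)ˣ).val - S)}.Finite := by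
    intro S
    by_cases hne : {n | FinRank (((g n)⁻¹ : (Module.End F V)ˣ).val - S)}.Nonempty
    · obtain ⟨n0, hn0⟩ := hne
      refine (hval (q (ψ n0)) (hψ1 n0)).subset (fun n hn => ?_)
      change q (ψ n) = q (ψ n0)
      rw [← hg n, ← hg n0]
      have := mk_eq_iff.mpr ((frMk_eq_iff.mpr hn).trans (frMk_eq_iff.mpr hn0).symm)
      exact inv_injective this
    · rw [Set.not_nonempty_iff_eq_empty.mp hne]; exact Set.finite_empty
  obtain ⟨φ, hφ, hI1, hI2⟩ := exists_subseq hV g h1 h2
  obtain ⟨x, y, z, c, hc, hw, hw1⟩ := exists_xyz (g ∘ φ) hI1 hI2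
  have hlim : Tendsto (fun n => q (ψ (φ n))) atTop (𝓝 1) := hq'.comp hφ.tendsto_atTop
  have hcont : Continuous (fun h : GLmod F V => ⁅⁅x, h * y * h⁻¹⁆, z⁆) := by
    simp only [commutatorElement_def]
    fun_prop
  have hlim2 := (hcont.tendsto 1).comp hlim
  rw [hw1] at hlim2
  have hconst : (fun h : GLmod F V => ⁅⁅x, h * y * h⁻¹⁆, z⁆) ∘ (fun n => q (ψ (φ n)))
      = fun _ => c := by
    funext n
    have := hw n
    simp only [Function.comp] at this ⊢
    rw [← hg (φ n)]
    exact this
  rw [hconst] at hlim2
  exact hc (tendsto_nhds_unique tendsto_const_nhds hlim2)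

theorem eventually_eq [Finite F] [TopologicalSpace (GLmod F V)]
    [IsTopologicalGroup (GLmod F V)] [T2Space (GLmod F V)] (q : ℕ → GLmod F V) (r : GLmod F V)
    (hq : Tendsto q atTop (𝓝 r)) : ∀ᶠ n in atTop, q n = r := by
  have h1 : Tendsto (fun n => r⁻¹ * q n) atTop (𝓝 1) := by
    have := hq.const_mul r⁻¹
    rwa [inv_mul_cancel] at this
  filter_upwards [eventually_eq_one _ h1] with n hn
  exact (inv_mul_eq_one.mp hn).symm

end Pool.Agent.Lib.MP_37efd7_lc
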