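import Pool.Agent.Lib.MP_37efd7_lc.PGTop

/-!
The group is topologizable.
-/

namespace Pool.Agent.Lib.MP_37efd7_lc.Para

open Filter Topology Set

section

variable {A : Type} [Group A] [TopologicalSpace A] [DiscreteTopology A]

local instance instTopF2 : TopologicalSpace F2 := ⊥

local instance instDiscF2 : DiscreteTopology F2 := ⟨rfl⟩

/-- Pointwise topology on the wreath product. -/
local instance instTopW : TopologicalSpace (RegularWreathProduct A F2) :=
  TopologicalSpace.induced (fun g => (g.left, g.right)) inferInstance

omit [Group A] [DiscreteTopology A] in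
theorem isInducing_W : IsInducing
    (fun g : RegularWreathProduct A F2 => ((g.left, g.right) : (F2 → A) × F2)) := ⟨rfl⟩

omit [Group A] [DiscreteTopology A] in
theorem continuous_left : Continuous (fun g : RegularWreathProduct A F2 => g.left) :=
  continuous_fst.comp isInducing_W.continuous

omit [Group A] [DiscreteTopology A] in
theorem continuous_right : Continuous (fun g : RegularWreathProduct A F2 => g.right) :=
  continuous_snd.comp isInducing_W.continuous

omit [Group A] [DiscreteTopology A] in
theorem continuous_evalF : Continuous (fun p : F2 × (F2 → A) => p.2 p.1) :=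
  continuous_prod_of_discrete_left.2 (fun q => continuous_apply q)

theorem isTopologicalGroup_W : IsTopologicalGroup (RegularWreathProduct A F2) where
  continuous_mul := by
    rw [isInducing_W.continuous_iff]
    refine Continuous.prodMk ?_ ?_
    · change Continuous (fun p : RegularWreathProduct A F2 × RegularWreathProduct A F2 =>
        p.1.left * fun x => p.2.left (p.1.right⁻¹ * x))
      refine Continuous.mul (continuous_left.comp continuous_fst) ?_
      refine continuous_pi (fun x => ?_)
      have h1 : Continuous (fun p : RegularWreathProduct A F2 × RegularWreathProduct A F2 =>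
          ((p.1.right⁻¹ * x, p.2.left) : F2 × (F2 → A))) := by
        refine Continuous.prodMk ?_ (continuous_left.comp continuous_snd)
        exact (continuous_of_discreteTopology (f := fun q : F2 => q⁻¹ * x)).comp
          (continuous_right.comp continuous_fst)
      exact continuous_evalF.comp h1
    · change Continuous (fun p : RegularWreathProduct A F2 × RegularWreathProduct A F2 =>
        p.1.right * p.2.right)
      exact (continuous_of_discreteTopology (f := fun q : F2 × F2 => q.1 * q.2)).comp
        ((continuous_right.comp continuous_fst).prodMk (continuous_right.comp continuous_snd))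
  continuous_inv := by
    rw [isInducing_W.continuous_iff]
    refine Continuous.prodMk ?_ ?_
    · change Continuous (fun g : RegularWreathProduct A F2 => fun x => g.left⁻¹ (g.right * x))
      refine continuous_pi (fun x => ?_)
      have h1 : Continuous (fun g : RegularWreathProduct A F2 =>
          ((g.right * x, g.left⁻¹) : F2 × (F2 → A))) := by
        refine Continuous.prodMk ?_ continuous_left.inv
        exact (continuous_of_discreteTopology (f := fun q : F2 => q * x)).comp continuous_right
      exact continuous_evalF.comp h1
    · change Continuous (fun g : RegularWreathProduct A F2 => g.right⁻¹)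
      exact (continuous_of_discreteTopology (f := fun q : F2 => q⁻¹)).comp continuous_right

omit [Group A] in
theorem t2_W : T2Space (RegularWreathProduct A F2) := by
  refine T2Space.of_injective_continuous (f := fun g : RegularWreathProduct A F2 =>
    ((g.left, g.right) : (F2 → A) × F2)) ?_ isInducing_W.continuous
  intro g h hgh
  have h1 := congrArg Prod.fst hgh
  have h2 := congrArg Prod.snd hgh
  exact RegularWreathProduct.ext h1 h2

/-- A null sequence of elements supported at one point. -/
noncomputable def nul (c : A) (n : ℕ) : GG A :=
  sh (FreeGroup.of 0 ^ n) * pt c * (sh (FreeGroup.of 0 ^ n))⁻¹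

omit [TopologicalSpace A] [DiscreteTopology A] in
theorem nul_val (c : A) (n : ℕ) : (nul c n : RegularWreathProduct A F2) =
    iota (fun ω => (({1} : Set F2).mulIndicator (fun _ => c) : F2 → A)
      ((FreeGroup.of 0 ^ n)⁻¹ * ω)) := by
  unfold nul
  rw [Subgroup.coe_mul, Subgroup.coe_mul, Subgroup.coe_inv, pt_val, sh_val, conj_iota]

omit [TopologicalSpace A] [DiscreteTopology A] in
theorem nul_ne {c : A} (hc : c ≠ 1) (n : ℕ) : nul c n ≠ 1 := by
  intro h
  have h1 := congrArg (fun g : GG A => (g : RegularWreathProduct A F2).left
    (FreeGroup.of 0 ^ n)) h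
  simp only [nul_val, iota_left] at h1
  rw [inv_mul_cancel, mulIndicator_of_mem (mem_singleton (1 : F2))] at h1
  exact hc h1

theorem of_pow_injective : Function.Injective (fun n : ℕ => (FreeGroup.of (0 : Fin 2) : F2) ^ n) := by
  intro m n h
  have h1 := congrArg (fun g : F2 => g.toWord.length) h
  simpa using h1

theorem tendsto_nul (c : A) : Tendsto (fun n => (nul c n : RegularWreathProduct A F2)) atTop
    (𝓝 1) := by
  rw [isInducing_W.tendsto_nhds_iff]
  have h1 : Tendsto (fun n => (nul c n : RegularWreathProduct A F2).left) atTop
      (𝓝 (1 : F2 → A)) := by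
    rw [tendsto_pi_nhds]
    intro ω
    apply tendsto_nhds_of_eventually_eq
    have hfin : {n : ℕ | (FreeGroup.of (0 : Fin 2) : F2) ^ n = ω}.Finite := by
      apply Set.Subsingleton.finite
      intro m hm n hn
      have hm' : (FreeGroup.of (0 : Fin 2) : F2) ^ m = ω := hm
      have hn' : (FreeGroup.of (0 : Fin 2) : F2) ^ n = ω := hn
      exact of_pow_injective (hm'.trans hn'.symm)
    have h2 : ∀ᶠ n in atTop, ¬ (FreeGroup.of (0 : Fin 2) : F2) ^ n = ω := by
      have := hfin.eventually_cofinite_notMem
      rw [Nat.cofinite_eq_atTop] at this
      exact this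
    filter_upwards [h2] with n hn
    rw [nul_val, iota_left]
    apply mulIndicator_of_notMem
    intro hcon
    apply hn
    rw [mem_singleton_iff, inv_mul_eq_one] at hcon
    exact hcon
  have h2 : Tendsto (fun n => (nul c n : RegularWreathProduct A F2).right) atTop
      (𝓝 (1 : F2)) := by
    have : (fun n => (nul c n : RegularWreathProduct A F2).right) = fun _ => 1 := by
      funext n
      rw [nul_val]
      rfl
    rw [this]
    exact tendsto_const_nhds
  exact h1.prodMk_nhds h2

theorem topologizable_aux [Nontrivial A] : Topologizable (GG A) := by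
  have hW : IsTopologicalGroup (RegularWreathProduct A F2) := isTopologicalGroup_W
  have hT : T2Space (RegularWreathProduct A F2) := t2_W
  refine ⟨inferInstance, inferInstance, inferInstance, ?_⟩
  intro hdisc
  obtain ⟨c, hc⟩ := exists_ne (1 : A)
  have h1 : Tendsto (fun n => nul c n) atTop (𝓝 (1 : GG A)) := by
    rw [tendsto_subtype_rng]
    exact tendsto_nul c
  rw [nhds_discrete, tendsto_pure] at h1
  obtain ⟨n, hn⟩ := h1.exists
  exact nul_ne hc n hn

end

theorem topologizable_GG {A : Type} [Group A] [Nontrivial A] : Topologizable (GG A) := by
  let _ : TopologicalSpace A := ⊥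
  have : DiscreteTopology A := ⟨rfl⟩
  exact topologizable_aux

/-- **ZFC.** There is a countable topologizable group all of whose sequential Hausdorff group
topologies have sequential order at most one or equal to `ω₁`. -/
theorem exists_countable_group : ∃ (G : Type) (_ : Group G), Countable G ∧ Topologizable G ∧
    ∀ t : TopologicalSpace G, IsTopologicalGroup G → T2Space G → IsSequential G →
      seqOrder G ≤ 1 ∨ seqOrder G = Ordinal.omega 1 := by
  have hs : IsSimpleGroup (alternatingGroup (Fin 5)) :=
    alternatingGroup.isSimpleGroup (by simp)
  have hA : ∃ x y : alternatingGroup (Fin 5), x * y ≠ y * x := by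
    refine ⟨⟨Equiv.swap 0 1 * Equiv.swap 1 2, ?_⟩, ⟨Equiv.swap 0 1 * Equiv.swap 1 3, ?_⟩, ?_⟩
    · rw [Equiv.Perm.mem_alternatingGroup]
      decide
    · rw [Equiv.Perm.mem_alternatingGroup]
      decide
    · intro h
      have h1 := congrArg (fun g : alternatingGroup (Fin 5) => (g : Equiv.Perm (Fin 5)) 0) h
      revert h1
      decide
  refine ⟨GG (alternatingGroup (Fin 5)), inferInstance, countable_GG, topologizable_GG, ?_⟩
  intro t h1 h2 h3
  exact seqOrder_GG hA h3

end Pool.Agent.Lib.MP_37efd7_lc.Para
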