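import Mathlib

/-!
A countable group with a paradoxical wreath structure: algebra.
-/

namespace Pool.Agent.Lib.MP_37efd7_lc.Para

open Set

/-- The free group on two generators. -/
abbrev F2 : Type := FreeGroup (Fin 2)

/-- The reduced words starting with the letter `(x, ε)`. -/
def St (x : Fin 2) (ε : Bool) : Set F2 := {w | w.toWord.head? = some (x, ε)}

theorem inv_mul_mem_St (x : Fin 2) (w : F2) :
    (FreeGroup.of x)⁻¹ * w ∈ St x false ↔ w ∉ St x true := by
  have h1 : ((FreeGroup.of x)⁻¹ * w).toWord =
      FreeGroup.reduce ((x, false) :: w.toWord) := by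
    rw [FreeGroup.toWord_mul, FreeGroup.toWord_inv, FreeGroup.toWord_of]
    rfl
  have h2 : FreeGroup.reduce w.toWord = w.toWord := FreeGroup.reduce_toWord w
  unfold St
  simp only [mem_ofPred_eq]
  rw [h1, FreeGroup.reduce.cons, h2]
  cases hL : w.toWord with
  | nil => simp
  | cons hd tl =>
    obtain ⟨y, δ⟩ := hd
    by_cases hyd : y = x ∧ δ = true
    · obtain ⟨rfl, rfl⟩ := hyd
      simp only [Bool.not_true, and_self, if_true, List.head?_cons, not_true_eq_false, iff_false]
      intro hcon
      cases tl with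
      | nil => simp at hcon
      | cons hd' tl' =>
        simp only [List.head?_cons, Option.some.injEq] at hcon
        subst hcon
        rw [hL] at h2
        exact FreeGroup.reduce.not (L₂ := []) (L₃ := tl') (x := y) (b := true) h2
    · have hne : ¬ (x = y ∧ false = !δ) := by
        rintro ⟨rfl, h⟩
        apply hyd
        refine ⟨rfl, ?_⟩
        cases δ
        · simp at h
        · rfl
      simp only
      rw [if_neg hne]
      simp only [List.head?_cons, Option.some.injEq, Prod.mk.injEq, true_iff]
      exact fun h => hyd ⟨h.1, h.2⟩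

theorem St_disjoint {x y : Fin 2} {ε δ : Bool} (h : (x, ε) ≠ (y, δ)) {w : F2}
    (hw : w ∈ St x ε) : w ∉ St y δ := by
  intro hw'
  unfold St at hw hw'
  simp only [mem_ofPred_eq] at hw hw'
  rw [hw] at hw'
  exact h (Option.some.inj hw')

theorem mul_notMem_St (x : Fin 2) (w : F2) : FreeGroup.of x * w ∉ St x true ↔ w ∈ St x false := by
  rw [← inv_mul_mem_St, inv_mul_cancel_left]

variable {A : Type} [Group A]

/-- Restriction of a function on the free group. -/
noncomputable def RV (x : Fin 2) (d : F2 → A) : F2 → A := fun ω =>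
  (St x true).mulIndicator d ω * ((St x true)ᶜ).mulIndicator d (FreeGroup.of x * ω)

/-- The decoding function. -/
noncomputable def SV (x : Fin 2) (d : F2 → A) : F2 → A := fun ω =>
  (St x true).mulIndicator d ω * (St x false).mulIndicator d ((FreeGroup.of x)⁻¹ * ω)

theorem RV_true {x : Fin 2} (d : F2 → A) {ω : F2} (h : ω ∈ St x true) : RV x d ω = d ω := by
  unfold RV
  have h1 : FreeGroup.of x * ω ∈ St x true := by
    by_contra hcon
    rw [mul_notMem_St] at hcon
    exact St_disjoint (by simp) h hcon
  rw [mulIndicator_of_mem h, mulIndicator_of_notMem (by simpa using h1), mul_one]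

theorem RV_false {x : Fin 2} (d : F2 → A) {ω : F2} (h : ω ∈ St x false) :
    RV x d ω = d (FreeGroup.of x * ω) := by
  unfold RV
  have h1 : FreeGroup.of x * ω ∈ (St x true)ᶜ := (mul_notMem_St x ω).2 h
  rw [mulIndicator_of_notMem (St_disjoint (by simp) h), mulIndicator_of_mem h1, one_mul]

theorem RV_other {x : Fin 2} (d : F2 → A) {ω : F2} (h : ω ∉ St x true) (h' : ω ∉ St x false) :
    RV x d ω = 1 := by
  unfold RV
  have h1 : FreeGroup.of x * ω ∉ (St x true)ᶜ := by
    intro hcon
    exact h' ((mul_notMem_St x ω).1 hcon)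
  rw [mulIndicator_of_notMem h, mulIndicator_of_notMem h1, one_mul]

theorem SV_true {x : Fin 2} (d : F2 → A) {ω : F2} (h : ω ∈ St x true) : SV x d ω = d ω := by
  unfold SV
  have h1 : (FreeGroup.of x)⁻¹ * ω ∉ St x false := by
    rw [inv_mul_mem_St]
    exact not_not.2 h
  rw [mulIndicator_of_mem h, mulIndicator_of_notMem h1, mul_one]

theorem SV_other {x : Fin 2} (d : F2 → A) {ω : F2} (h : ω ∉ St x true) :
    SV x d ω = d ((FreeGroup.of x)⁻¹ * ω) := by
  unfold SV
  rw [mulIndicator_of_notMem h, mulIndicator_of_mem ((inv_mul_mem_St x ω).2 h), one_mul]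

theorem RV_of_mem {x y : Fin 2} (hxy : x ≠ y) (ε : Bool) (d : F2 → A) {ω : F2}
    (h : ω ∈ St x ε) : RV y d ω = 1 :=
  RV_other d (St_disjoint (fun h => hxy (Prod.mk.inj h).1) h)
    (St_disjoint (fun h => hxy (Prod.mk.inj h).1) h)

theorem SV_RV_left {x y : Fin 2} (hxy : x ≠ y) (d d' : F2 → A) :
    SV x (RV x d * RV y d') = d := by
  funext ω
  by_cases h : ω ∈ St x true
  · rw [SV_true _ h, Pi.mul_apply, RV_true d h, RV_of_mem hxy true d' h, mul_one]
  · have h1 := (inv_mul_mem_St x ω).2 h
    rw [SV_other _ h, Pi.mul_apply, RV_false d h1, RV_of_mem hxy false d' h1, mul_one,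
      mul_inv_cancel_left]

theorem SV_RV_right {x y : Fin 2} (hxy : x ≠ y) (d d' : F2 → A) :
    SV y (RV x d * RV y d') = d' := by
  funext ω
  by_cases h : ω ∈ St y true
  · rw [SV_true _ h, Pi.mul_apply, RV_true d' h, RV_of_mem hxy.symm true d h, one_mul]
  · have h1 := (inv_mul_mem_St y ω).2 h
    rw [SV_other _ h, Pi.mul_apply, RV_false d' h1, RV_of_mem hxy.symm false d h1, one_mul,
      mul_inv_cancel_left]

/-- The base group of the wreath product. -/
def iota : (F2 → A) →* RegularWreathProduct A F2 where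
  toFun d := ⟨d, 1⟩
  map_one' := rfl
  map_mul' _ _ := by
    ext <;> simp

theorem iota_left (d : F2 → A) : (iota d).left = d := rfl

theorem iota_right (d : F2 → A) : (iota d).right = 1 := rfl

theorem eq_iota {g : RegularWreathProduct A F2} (h : g.right = 1) : g = iota g.left := by
  ext
  · rfl
  · rw [h]; rfl

theorem conj_iota (q : F2) (d : F2 → A) :
    (RegularWreathProduct.inl q : RegularWreathProduct A F2) * iota d *
      (RegularWreathProduct.inl q)⁻¹ = iota (fun ω => d (q⁻¹ * ω)) := by
  ext
  · simp [iota]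
  · simp [iota]

theorem map_lift {H K α : Type*} [Group H] [Group K] (φ : H →* K) (f : α → H)
    (w : FreeGroup α) : φ (FreeGroup.lift f w) = FreeGroup.lift (fun o => φ (f o)) w := by
  have : φ.comp (FreeGroup.lift f) = FreeGroup.lift (fun o => φ (f o)) := by
    ext x
    simp
  exact DFunLike.congr_fun this w

/-- The word restricts functions to the set `E`. -/
theorem lift_mulIndicator {w : FreeGroup (Option A)}
    (hw1 : ∀ x : A, FreeGroup.lift (fun o : Option A => o.elim x id) w = x)
    (hw2 : ∀ x : A, FreeGroup.lift (fun o : Option A => o.elim x (fun _ => 1)) w = 1)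
    (E : Set F2) (d : F2 → A) :
    FreeGroup.lift (fun o : Option A => o.elim d (fun c => E.mulIndicator (fun _ => c))) w =
      E.mulIndicator d := by
  funext ω
  have h1 := map_lift (Pi.evalMonoidHom (fun _ : F2 => A) ω)
    (fun o : Option A => o.elim d (fun c => E.mulIndicator (fun _ => c))) w
  rw [Pi.evalMonoidHom_apply] at h1
  rw [h1]
  by_cases hω : ω ∈ E
  · rw [mulIndicator_of_mem hω]
    rw [← hw1 (d ω)]
    congr 2
    funext o
    cases o with
    | none => rfl
    | some c =>
      change (E.mulIndicator (fun _ => c) : F2 → A) ω = c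
      exact mulIndicator_of_mem hω _
  · rw [mulIndicator_of_notMem hω]
    rw [← hw2 (d ω)]
    congr 2
    funext o
    cases o with
    | none => rfl
    | some c =>
      change (E.mulIndicator (fun _ => c) : F2 → A) ω = 1
      exact mulIndicator_of_notMem hω _

/-- The generators. -/
noncomputable def gen : (A × Fin 2 × Bool) ⊕ A ⊕ F2 → RegularWreathProduct A F2
  | Sum.inl p => iota ((St p.2.1 p.2.2).mulIndicator (fun _ => p.1))
  | Sum.inr (Sum.inl c) => iota (({1} : Set F2).mulIndicator (fun _ => c))
  | Sum.inr (Sum.inr q) => RegularWreathProduct.inl q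

variable (A) in
/-- The group. -/
noncomputable def GG : Subgroup (RegularWreathProduct A F2) := (FreeGroup.lift (gen (A := A))).range

theorem gen_mem (i : (A × Fin 2 × Bool) ⊕ A ⊕ F2) : gen i ∈ GG A :=
  ⟨FreeGroup.of i, by simp⟩

instance countable_freeGroup {α : Type*} [Countable α] : Countable (FreeGroup α) :=
  inferInstanceAs (Countable (Quot _))

theorem countable_GG [Countable A] : Countable (GG A) := by
  have : Function.Surjective (FreeGroup.lift (gen (A := A))).rangeRestrict :=
    MonoidHom.rangeRestrict_surjective _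
  exact this.countable

/-- Constants. -/
noncomputable def cst (x : Fin 2) (ε : Bool) (c : A) : GG A := ⟨_, gen_mem (Sum.inl (c, x, ε))⟩

/-- Elements supported at the point `1`. -/
noncomputable def pt (c : A) : GG A := ⟨_, gen_mem (Sum.inr (Sum.inl c))⟩

/-- The shifts. -/
noncomputable def sh (q : F2) : GG A := ⟨_, gen_mem (Sum.inr (Sum.inr q))⟩

theorem cst_val (x : Fin 2) (ε : Bool) (c : A) :
    (cst x ε c : RegularWreathProduct A F2) = iota ((St x ε).mulIndicator (fun _ => c)) := rfl

theorem pt_val (c : A) :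
    (pt c : RegularWreathProduct A F2) = iota (({1} : Set F2).mulIndicator (fun _ => c)) := rfl

theorem sh_val (q : F2) :
    ((sh q : GG A) : RegularWreathProduct A F2) = RegularWreathProduct.inl q := rfl

/-- The restriction map, as a word map. -/
noncomputable def pE (w : FreeGroup (Option A)) (x : Fin 2) (ε : Bool) (g : GG A) : GG A :=
  FreeGroup.lift (fun o : Option A => o.elim g (fun c => cst x ε c)) w

theorem pE_val {w : FreeGroup (Option A)}
    (hw1 : ∀ x : A, FreeGroup.lift (fun o : Option A => o.elim x id) w = x)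
    (hw2 : ∀ x : A, FreeGroup.lift (fun o : Option A => o.elim x (fun _ => 1)) w = 1)
    (x : Fin 2) (ε : Bool) {g : GG A} {d : F2 → A}
    (hg : (g : RegularWreathProduct A F2) = iota d) :
    (pE w x ε g : RegularWreathProduct A F2) = iota ((St x ε).mulIndicator d) := by
  unfold pE
  have h1 := map_lift (GG A).subtype
    (fun o : Option A => o.elim g (fun c => cst x ε c)) w
  rw [Subgroup.subtype_apply] at h1
  have h2 := map_lift (iota (A := A))
    (fun o : Option A => o.elim d (fun c => (St x ε).mulIndicator (fun _ => c))) w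
  rw [lift_mulIndicator hw1 hw2] at h2
  rw [h1, h2]
  congr 2
  funext o
  cases o with
  | none => exact hg
  | some c => exact cst_val x ε c

/-- The encoding map. -/
noncomputable def rr (w : FreeGroup (Option A)) (x : Fin 2) (g : GG A) : GG A :=
  pE w x true g * (sh (FreeGroup.of x)⁻¹ * (g * (pE w x true g)⁻¹) * (sh (FreeGroup.of x)⁻¹)⁻¹)

/-- The decoding map. -/
noncomputable def ss (w : FreeGroup (Option A)) (x : Fin 2) (g : GG A) : GG A :=
  pE w x true g * (sh (FreeGroup.of x) * pE w x false g * (sh (FreeGroup.of x))⁻¹)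

section

variable {w : FreeGroup (Option A)}
    (hw1 : ∀ x : A, FreeGroup.lift (fun o : Option A => o.elim x id) w = x)
    (hw2 : ∀ x : A, FreeGroup.lift (fun o : Option A => o.elim x (fun _ => 1)) w = 1)

include hw1 hw2

theorem rr_val (x : Fin 2) {g : GG A} {d : F2 → A}
    (hg : (g : RegularWreathProduct A F2) = iota d) :
    (rr w x g : RegularWreathProduct A F2) = iota (RV x d) := by
  have h1 := pE_val hw1 hw2 x true hg
  have h2 : (((g * (pE w x true g)⁻¹ : GG A)) : RegularWreathProduct A F2) =
      iota (((St x true)ᶜ).mulIndicator d) := by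
    rw [Subgroup.coe_mul, Subgroup.coe_inv, h1, hg, ← map_inv, ← map_mul]
    congr 1
    rw [mulIndicator_compl]
  unfold rr
  rw [Subgroup.coe_mul, Subgroup.coe_mul, Subgroup.coe_mul, Subgroup.coe_inv, h1, h2, sh_val,
    conj_iota, ← map_mul, inv_inv]
  rfl

theorem ss_val (x : Fin 2) {g : GG A} {d : F2 → A}
    (hg : (g : RegularWreathProduct A F2) = iota d) :
    (ss w x g : RegularWreathProduct A F2) = iota (SV x d) := by
  have h1 := pE_val hw1 hw2 x true hg
  have h2 := pE_val hw1 hw2 x false hg
  unfold ss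
  rw [Subgroup.coe_mul, Subgroup.coe_mul, Subgroup.coe_mul, Subgroup.coe_inv, h1, h2, sh_val,
    conj_iota, ← map_mul]
  congr 1

/-- The pairing. -/
theorem ss_rr_left {g h : GG A} (hg : (g : RegularWreathProduct A F2).right = 1)
    (hh : (h : RegularWreathProduct A F2).right = 1) :
    ss w 0 (rr w 0 g * rr w 1 h) = g := by
  apply Subtype.ext
  have h1 : ((rr w 0 g * rr w 1 h : GG A) : RegularWreathProduct A F2) =
      iota (RV 0 g.1.left * RV 1 h.1.left) := by
    rw [Subgroup.coe_mul, rr_val hw1 hw2 0 (eq_iota hg), rr_val hw1 hw2 1 (eq_iota hh), map_mul]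
  rw [ss_val hw1 hw2 0 h1, SV_RV_left (by decide), ← eq_iota hg]

theorem ss_rr_right {g h : GG A} (hg : (g : RegularWreathProduct A F2).right = 1)
    (hh : (h : RegularWreathProduct A F2).right = 1) :
    ss w 1 (rr w 0 g * rr w 1 h) = h := by
  apply Subtype.ext
  have h1 : ((rr w 0 g * rr w 1 h : GG A) : RegularWreathProduct A F2) =
      iota (RV 0 g.1.left * RV 1 h.1.left) := by
    rw [Subgroup.coe_mul, rr_val hw1 hw2 0 (eq_iota hg), rr_val hw1 hw2 1 (eq_iota hh), map_mul]
  rw [ss_val hw1 hw2 1 h1, SV_RV_right (by decide), ← eq_iota hh]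

theorem rr_mul_right {g h : GG A} (hg : (g : RegularWreathProduct A F2).right = 1)
    (hh : (h : RegularWreathProduct A F2).right = 1) :
    ((rr w 0 g * rr w 1 h : GG A) : RegularWreathProduct A F2).right = 1 := by
  rw [Subgroup.coe_mul, rr_val hw1 hw2 0 (eq_iota hg), rr_val hw1 hw2 1 (eq_iota hh), ← map_mul]
  rfl

end

theorem inv_conj_iota (g : RegularWreathProduct A F2) (u : F2 → A) :
    g⁻¹ * iota u * g =
      iota (fun ω => (g.left (g.right * ω))⁻¹ * u (g.right * ω) * g.left (g.right * ω)) := by
  ext ω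
  · simp [iota]
  · simp [iota]

/-- The two elements at the point `1` detect the elements outside the base group. -/
theorem comm_of_right_ne {g : GG A} (hg : (g : RegularWreathProduct A F2).right ≠ 1) (c c' : A) :
    g⁻¹ * pt c * g * pt c' = pt c' * (g⁻¹ * pt c * g) := by
  apply Subtype.ext
  simp only [Subgroup.coe_mul, Subgroup.coe_inv, pt_val]
  rw [inv_conj_iota, ← map_mul, ← map_mul]
  congr 1
  funext ω
  rw [Pi.mul_apply, Pi.mul_apply]
  by_cases hω : ω = 1
  · subst hω
    have h1 : (({1} : Set F2).mulIndicator (fun _ => c) : F2 → A)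
        ((g : RegularWreathProduct A F2).right * 1) = 1 := by
      apply mulIndicator_of_notMem
      rw [mul_one]
      exact hg
    rw [h1, mul_one, inv_mul_cancel, one_mul, mul_one]
  · have h1 : (({1} : Set F2).mulIndicator (fun _ => c') : F2 → A) ω = 1 :=
      mulIndicator_of_notMem (fun h => hω (mem_singleton_iff.1 h)) _
    rw [h1, mul_one, one_mul]

end Pool.Agent.Lib.MP_37efd7_lc.Para
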