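import Pool.Agent.Lib.MP_37efd7_lc.Seq

/-!
A sequential group with a pairing is Frechet-Urysohn or has sequential order `ω₁`.
-/

namespace Pool.Agent.Lib.MP_37efd7_lc.Para

open Filter Topology Set Ordinal

variable {G : Type*} [Group G] [TopologicalSpace G]

/-- A fan of sequences in `D`: every row tends to `1`, no diagonal sequence converges. -/
structure Fan (a : ℕ → ℕ → G) (D : Set G) : Prop where
  mem : ∀ k m, a k m ∈ D
  ne : ∀ k m, a k m ≠ 1
  lim : ∀ k, Tendsto (a k) atTop (𝓝 1)
  diag : ∀ φ ψ : ℕ → ℕ, StrictMono φ → ∀ x, ¬ Tendsto (fun i => a (φ i) (ψ i)) atTop (𝓝 x)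

/-- A continuous pairing on `D`, with continuous decoding maps. -/
structure Pairing (D : Set G) (P : G → G → G) (s t : G → G) : Prop where
  cP : Continuous (fun p : G × G => P p.1 p.2)
  cs : Continuous s
  ct : Continuous t
  one : P 1 1 = 1
  mem : ∀ x ∈ D, ∀ y ∈ D, P x y ∈ D
  s_eq : ∀ x ∈ D, ∀ y ∈ D, s (P x y) = x
  t_eq : ∀ x ∈ D, ∀ y ∈ D, t (P x y) = y

theorem seqIter_one' {X : Type*} [TopologicalSpace X] (A : Set X) : seqIter A 1 = seqLim A := by
  have := seqIter_add_one A 0
  rwa [zero_add, seqIter_zero] at this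

/-- A sequentially closed set containing `A` contains all iterated sequential closures. -/
theorem seqIter_subset_of_seqLim {X : Type*} [TopologicalSpace X] {A Z : Set X} (hAZ : A ⊆ Z)
    (hZ : seqLim Z ⊆ Z) (α : Ordinal.{0}) : seqIter A α ⊆ Z := by
  induction α using Ordinal.limitRecOn with
  | zero => rw [seqIter_zero]; exact hAZ
  | add_one α ih =>
    rw [seqIter_add_one]
    exact (seqLim_mono ih).trans hZ
  | limit α hα ih =>
    rw [seqIter_limit A α hα]
    exact iUnion_subset (fun β => ih β.1 β.2)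

theorem closure_subset_of_seqLim {X : Type*} [TopologicalSpace X] (hseq : IsSequential X)
    {A Z : Set X} (hAZ : A ⊆ Z) (hZ : seqLim Z ⊆ Z) : closure A ⊆ Z := by
  rw [← hseq A]
  exact seqIter_subset_of_seqLim hAZ hZ _

theorem exists_seqLim_seqLim {X : Type*} [TopologicalSpace X] (hseq : IsSequential X)
    (h : ∃ A : Set X, seqLim A ≠ closure A) :
    ∃ A : Set X, ∃ x ∈ seqLim (seqLim A), x ∉ seqLim A := by
  obtain ⟨A, hA⟩ := h
  by_contra hcon
  push Not at hcon
  apply hA
  apply Subset.antisymm (seqLim_subset_closure A)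
  exact closure_subset_of_seqLim hseq (subset_seqLim A) (fun x hx => hcon A x hx)

theorem exists_fan [IsTopologicalGroup G] [T2Space G] [Countable G] (hseq : IsSequential G)
    (D : Set G) (hD : D ∈ 𝓝 (1 : G)) (h : ∃ A : Set G, seqLim A ≠ closure A) :
    ∃ a : ℕ → ℕ → G, Fan a D := by
  obtain ⟨A, x, ⟨y, hyA, hyx⟩, hx⟩ := exists_seqLim_seqLim hseq h
  choose z hzA hzy using hyA
  -- `y n ∉ A` for large `n`
  have hyA' : ∀ᶠ n in atTop, y n ∉ A := by
    by_contra hcon
    rw [Filter.not_eventually] at hcon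
    have hcon' : ∃ᶠ n in atTop, y n ∈ A := hcon.mono (fun n hn => not_not.1 hn)
    obtain ⟨φ, hφ, hφA⟩ := extraction_of_frequently_atTop hcon'
    exact hx ⟨y ∘ φ, hφA, hyx.comp hφ.tendsto_atTop⟩
  obtain ⟨n0, hn0⟩ := eventually_atTop.1 hyA'
  -- separating neighbourhoods
  obtain ⟨f, hf⟩ := exists_surjective_nat G
  have hU : ∀ j, ∃ U ∈ 𝓝 (1 : G), f j ≠ 1 → ∃ W ∈ 𝓝 (f j), Disjoint U W := by
    intro j
    by_cases hj : f j = 1
    · exact ⟨univ, univ_mem, fun h => absurd hj h⟩
    · obtain ⟨U, W, hU, hW, hUW⟩ := t2_separation_nhds (Ne.symm hj)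
      exact ⟨U, hU, fun _ => ⟨W, hW, hUW⟩⟩
  choose U hU1 hU2 using hU
  have hb : ∀ n, Tendsto (fun m => (y n)⁻¹ * z n m) atTop (𝓝 1) := by
    intro n
    have := (hzy n).const_mul (y n)⁻¹
    rwa [inv_mul_cancel] at this
  have hM : ∀ n, ∃ M, ∀ m, M ≤ m → (y n)⁻¹ * z n m ∈ D ∧ ∀ j < n, (y n)⁻¹ * z n m ∈ U j := by
    intro n
    have h1 : ∀ᶠ m in atTop, (y n)⁻¹ * z n m ∈ D := (hb n) hD
    have h2 : ∀ᶠ m in atTop, ∀ j < n, (y n)⁻¹ * z n m ∈ U j := by
      have : ∀ j ∈ Finset.range n, ∀ᶠ m in atTop, (y n)⁻¹ * z n m ∈ U j :=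
        fun j _ => (hb n) (hU1 j)
      rw [← Filter.eventually_all_finset] at this
      filter_upwards [this] with m hm j hj
      exact hm j (Finset.mem_range.2 hj)
    exact eventually_atTop.1 (h1.and h2)
  choose M hM using hM
  refine ⟨fun n m => (y (n + n0))⁻¹ * z (n + n0) (m + M (n + n0)), ?_, ?_, ?_, ?_⟩
  · intro k m
    exact (hM (k + n0) _ (Nat.le_add_left _ _)).1
  · intro k m hkm
    apply hn0 (k + n0) (Nat.le_add_left _ _)
    rw [inv_mul_eq_one] at hkm
    rw [hkm]
    exact hzA _ _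
  · intro k
    exact (hb (k + n0)).comp (tendsto_add_atTop_nat _)
  · intro φ ψ hφ g hg
    obtain ⟨j, rfl⟩ := hf g
    by_cases hj : f j = 1
    · rw [hj] at hg
      apply hx
      refine ⟨fun i => z (φ i + n0) (ψ i + M (φ i + n0)), fun i => hzA _ _, ?_⟩
      have h1 : Tendsto (fun i => y (φ i + n0)) atTop (𝓝 x) :=
        hyx.comp ((tendsto_add_atTop_nat n0).comp hφ.tendsto_atTop)
      have h2 := h1.mul hg
      rw [mul_one] at h2
      refine h2.congr (fun i => ?_)
      exact mul_inv_cancel_left _ _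
    · obtain ⟨W, hW, hUW⟩ := hU2 j hj
      have h1 := hg hW
      have h2 : ∀ᶠ i in atTop, j < φ i + n0 := by
        filter_upwards [hφ.tendsto_atTop.eventually_gt_atTop j] with i hi
        exact hi.trans_le (Nat.le_add_right _ _)
      obtain ⟨i, hi1, hi2⟩ := (h2.and h1).exists
      exact Set.disjoint_left.1 hUW ((hM (φ i + n0) _ (Nat.le_add_left _ _)).2 j hi1) hi2

/-- Properties of the closure of a set tagged by the row `k` of the fan. -/
structure Tagged (a : ℕ → ℕ → G) (D : Set G) (s : G → G) (k : ℕ) (B : Set G) : Prop where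
  sub : B ⊆ D
  one : (1 : G) ∈ closure B
  tag : ∀ z ∈ closure B, s z = 1 ∨ ∃ m, s z = a k m
  eq : ∀ z ∈ closure B, s z = 1 → z = 1

section build

variable {D : Set G} {P : G → G → G} {s t : G → G} {a : ℕ → ℕ → G}

theorem Pairing.s_one (hP : Pairing D P s t) (h1 : (1 : G) ∈ D) : s 1 = 1 := by
  have := hP.s_eq 1 h1 1 h1
  rwa [hP.one] at this

theorem Pairing.t_one (hP : Pairing D P s t) (h1 : (1 : G) ∈ D) : t 1 = 1 := by
  have := hP.t_eq 1 h1 1 h1
  rwa [hP.one] at this

/-- The behaviour of convergent sequences of tagged elements. -/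
theorem seq_dichotomy [T2Space G] (hP : Pairing D P s t) (ha : Fan a D) (hDc : IsClosed D)
    (h1 : (1 : G) ∈ D) {B : ℕ → Set G} (hB : ∀ m, Tagged a D s m (B m)) (k : ℕ)
    {z : ℕ → G} {z' : G} (hz : Tendsto z atTop (𝓝 z')) {m : ℕ → ℕ} {y : ℕ → G}
    (hy : ∀ i, y i ∈ closure (B (m i))) (hzy : ∀ i, z i = P (a k (m i)) (y i)) :
    (∃ m0, ∃ᶠ i in atTop, m i = m0) ∨
      (z' = 1 ∧ (∀ᶠ i in atTop, y i = 1) ∧ Tendsto m atTop atTop) := by
  by_cases hm : ∃ m0, ∃ᶠ i in atTop, m i = m0
  · exact Or.inl hm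
  right
  push Not at hm
  have hm' : ∀ m0, ∀ᶠ i in atTop, m i ≠ m0 := fun m0 => hm m0
  have htend : Tendsto m atTop atTop := by
    rw [tendsto_atTop]
    intro b
    have : ∀ m0 ∈ Finset.range b, ∀ᶠ i in atTop, m i ≠ m0 := fun m0 _ => hm' m0
    rw [← Filter.eventually_all_finset] at this
    filter_upwards [this] with i hi
    by_contra hlt
    exact hi (m i) (Finset.mem_range.2 (not_le.1 hlt)) rfl
  have hyD : ∀ i, y i ∈ D := fun i =>
    closure_minimal (hB (m i)).sub hDc (hy i)
  have hyt : Tendsto y atTop (𝓝 (t z')) := by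
    have h2 := (hP.ct.tendsto z').comp hz
    refine h2.congr (fun i => ?_)
    change t (z i) = y i
    rw [hzy i]
    exact hP.t_eq _ (ha.mem _ _) _ (hyD i)
  have hs1 : ∀ᶠ i in atTop, s (y i) = 1 := by
    by_contra hcon
    rw [Filter.not_eventually] at hcon
    obtain ⟨φ, hφ, hφs⟩ := extraction_of_frequently_atTop hcon
    have hmφ : Tendsto (m ∘ φ) atTop atTop := htend.comp hφ.tendsto_atTop
    obtain ⟨χ, hχ, hmχ⟩ := strictMono_subseq_of_tendsto_atTop hmφ
    have htag : ∀ i, ∃ l, s (y (φ (χ i))) = a (m (φ (χ i))) l := by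
      intro i
      rcases (hB (m (φ (χ i)))).tag _ (hy _) with h | h
      · exact absurd h (hφs _)
      · exact h
    choose ψ hψ using htag
    apply ha.diag (fun i => m (φ (χ i))) ψ hmχ (s (t z'))
    have h3 : Tendsto (fun i => s (y (φ (χ i)))) atTop (𝓝 (s (t z'))) :=
      (hP.cs.tendsto _).comp (hyt.comp (hφ.tendsto_atTop.comp hχ.tendsto_atTop))
    exact h3.congr (fun i => hψ i)
  have hy1 : ∀ᶠ i in atTop, y i = 1 := by
    filter_upwards [hs1] with i hi
    exact (hB (m i)).eq _ (hy i) hi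
  refine ⟨?_, hy1, htend⟩
  have h4 : Tendsto (fun i => a k (m i)) atTop (𝓝 1) := (ha.lim k).comp htend
  have h5 : Tendsto (fun i => P (a k (m i)) 1) atTop (𝓝 (P 1 1)) :=
    (hP.cP.tendsto (1, 1)).comp (h4.prodMk_nhds tendsto_const_nhds)
  rw [hP.one] at h5
  have h6 : Tendsto z atTop (𝓝 1) := by
    refine h5.congr' ?_
    filter_upwards [hy1] with i hi
    rw [hzy i, hi]
  exact tendsto_nhds_unique hz h6

/-- The next tagged set. -/
theorem exists_build [T2Space G] (hseq : IsSequential G) (hP : Pairing D P s t) (ha : Fan a D)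
    (hDc : IsClosed D) (h1 : (1 : G) ∈ D) {B : ℕ → Set G} (hB : ∀ m, Tagged a D s m (B m))
    (k : ℕ) : ∃ C : Set G, Tagged a D s k C ∧
      ∀ α : Ordinal.{0}, (∀ β < α, ∀ᶠ m in atTop, (1 : G) ∉ seqIter (B m) β) →
        (1 : G) ∉ seqIter C α := by
  let C : Set G := {z | ∃ m, ∃ y ∈ B m, z = P (a k m) y}
  let Z : Set G := {z | z = 1 ∨ ∃ m, ∃ y ∈ closure (B m), z = P (a k m) y}
  have hBD : ∀ m, closure (B m) ⊆ D := fun m => closure_minimal (hB m).sub hDc
  have hCZ : C ⊆ Z := by
    rintro z ⟨m, y, hy, rfl⟩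
    exact Or.inr ⟨m, y, subset_closure hy, rfl⟩
  -- passing to the limit in one row
  have hrow : ∀ {z : ℕ → G} {z' : G}, Tendsto z atTop (𝓝 z') → ∀ {m : ℕ → ℕ} {y : ℕ → G},
      (∀ i, y i ∈ closure (B (m i))) → (∀ i, z i = P (a k (m i)) (y i)) → ∀ m0,
      (∃ᶠ i in atTop, m i = m0) → ∃ φ : ℕ → ℕ, StrictMono φ ∧ (∀ i, m (φ i) = m0) ∧
        Tendsto (fun i => y (φ i)) atTop (𝓝 (t z')) ∧ z' = P (a k m0) (t z') ∧
        s z' = a k m0 := by
    intro z z' hz m y hy hzy m0 hm0
    obtain ⟨φ, hφ, hφm⟩ := extraction_of_frequently_atTop hm0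
    have hyt : Tendsto (fun i => y (φ i)) atTop (𝓝 (t z')) := by
      have h2 := (hP.ct.tendsto z').comp (hz.comp hφ.tendsto_atTop)
      refine h2.congr (fun i => ?_)
      change t (z (φ i)) = y (φ i)
      rw [hzy (φ i)]
      exact hP.t_eq _ (ha.mem _ _) _ (hBD _ (hy _))
    have hz' : z' = P (a k m0) (t z') := by
      have h3 : Tendsto (fun i => P (a k m0) (y (φ i))) atTop (𝓝 (P (a k m0) (t z'))) :=
        (hP.cP.tendsto (a k m0, t z')).comp (tendsto_const_nhds.prodMk_nhds hyt)
      have h4 : Tendsto (fun i => P (a k m0) (y (φ i))) atTop (𝓝 z') := by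
        refine (hz.comp hφ.tendsto_atTop).congr (fun i => ?_)
        change z (φ i) = _
        rw [hzy (φ i), hφm i]
      exact tendsto_nhds_unique h4 h3
    have htD : t z' ∈ D := by
      refine hDc.mem_of_tendsto hyt (Eventually.of_forall fun i => hBD _ (hy _))
    refine ⟨φ, hφ, hφm, hyt, hz', ?_⟩
    rw [hz']
    exact hP.s_eq _ (ha.mem _ _) _ htD
  -- `Z` is sequentially closed
  have hZ : seqLim Z ⊆ Z := by
    rintro z' ⟨z, hzZ, hz⟩
    by_cases hone : ∃ᶠ i in atTop, z i = 1
    · left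
      obtain ⟨φ, hφ, hφ1⟩ := extraction_of_frequently_atTop hone
      have h2 := hz.comp hφ.tendsto_atTop
      have h3 : Tendsto (z ∘ φ) atTop (𝓝 1) :=
        tendsto_const_nhds.congr (fun i => (hφ1 i).symm)
      exact tendsto_nhds_unique h2 h3
    · rw [Filter.not_frequently] at hone
      obtain ⟨i0, hi0⟩ := eventually_atTop.1 hone
      have h2 : ∀ i, ∃ m, ∃ y ∈ closure (B m), z (i + i0) = P (a k m) y := by
        intro i
        rcases hzZ (i + i0) with h | h
        · exact absurd h (hi0 _ (Nat.le_add_left _ _))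
        · exact h
      choose m y hy hzy using h2
      have hz2 : Tendsto (fun i => z (i + i0)) atTop (𝓝 z') := hz.comp (tendsto_add_atTop_nat i0)
      rcases seq_dichotomy hP ha hDc h1 hB k hz2 hy hzy with ⟨m0, hm0⟩ | ⟨h, _⟩
      · obtain ⟨φ, hφ, hφm, hyt, hz', _⟩ := hrow hz2 hy hzy m0 hm0
        right
        refine ⟨m0, t z', ?_, hz'⟩
        have : ∀ i, y (φ i) ∈ closure (B m0) := fun i => by
          have := hy (φ i)
          rwa [hφm i] at this
        exact isClosed_closure.mem_of_tendsto hyt (Eventually.of_forall this)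
      · exact Or.inl h
  have hclC : closure C ⊆ Z := closure_subset_of_seqLim hseq hCZ hZ
  have hsZ : ∀ m, ∀ y ∈ closure (B m), s (P (a k m) y) = a k m := fun m y hy =>
    hP.s_eq _ (ha.mem _ _) _ (hBD m hy)
  have hs1 : s 1 = 1 := hP.s_one h1
  refine ⟨C, ⟨?_, ?_, ?_, ?_⟩, ?_⟩
  · rintro z ⟨m, y, hy, rfl⟩
    exact hP.mem _ (ha.mem _ _) _ ((hB m).sub hy)
  · -- `1 ∈ closure C`
    have h2 : ∀ m, P (a k m) 1 ∈ closure C := by
      intro m
      have hc : Continuous (fun y => P (a k m) y) :=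
        hP.cP.comp (continuous_const.prodMk continuous_id)
      have h3 : (fun y => P (a k m) y) '' closure (B m) ⊆ closure ((fun y => P (a k m) y) '' B m) :=
        image_closure_subset_closure_image hc
      have h4 : (fun y => P (a k m) y) '' B m ⊆ C := by
        rintro _ ⟨y, hy, rfl⟩
        exact ⟨m, y, hy, rfl⟩
      exact closure_mono h4 (h3 ⟨1, (hB m).one, rfl⟩)
    have h5 : Tendsto (fun m => P (a k m) 1) atTop (𝓝 (P 1 1)) :=
      (hP.cP.tendsto (1, 1)).comp ((ha.lim k).prodMk_nhds tendsto_const_nhds)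
    rw [hP.one] at h5
    exact isClosed_closure.mem_of_tendsto h5 (Eventually.of_forall h2)
  · intro z hz
    rcases hclC hz with rfl | ⟨m, y, hy, rfl⟩
    · exact Or.inl hs1
    · exact Or.inr ⟨m, hsZ m y hy⟩
  · intro z hz hsz
    rcases hclC hz with rfl | ⟨m, y, hy, rfl⟩
    · rfl
    · rw [hsZ m y hy] at hsz
      exact absurd hsz (ha.ne _ _)
  · -- structure of the iterated closures
    have hR : ∀ β : Ordinal.{0}, ∀ z ∈ seqIter C β, z = 1 ∨ ∃ m, ∃ y ∈ seqIter (B m) β,
        z = P (a k m) y := by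
      intro β
      induction β using Ordinal.limitRecOn with
      | zero =>
        intro z hz
        rw [seqIter_zero] at hz
        obtain ⟨m, y, hy, rfl⟩ := hz
        exact Or.inr ⟨m, y, by rw [seqIter_zero]; exact hy, rfl⟩
      | add_one β ih =>
        intro z' hz'
        rw [seqIter_add_one] at hz'
        obtain ⟨z, hzC, hz⟩ := hz'
        by_cases hone : ∃ᶠ i in atTop, z i = 1
        · left
          obtain ⟨φ, hφ, hφ1⟩ := extraction_of_frequently_atTop hone
          have h2 := hz.comp hφ.tendsto_atTop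
          have h3 : Tendsto (z ∘ φ) atTop (𝓝 1) :=
            tendsto_const_nhds.congr (fun i => (hφ1 i).symm)
          exact tendsto_nhds_unique h2 h3
        · rw [Filter.not_frequently] at hone
          obtain ⟨i0, hi0⟩ := eventually_atTop.1 hone
          have h2 : ∀ i, ∃ m, ∃ y ∈ seqIter (B m) β, z (i + i0) = P (a k m) y := by
            intro i
            rcases ih _ (hzC (i + i0)) with h | h
            · exact absurd h (hi0 _ (Nat.le_add_left _ _))
            · exact h
          choose m y hy hzy using h2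
          have hy' : ∀ i, y i ∈ closure (B (m i)) := fun i => seqIter_subset_closure _ _ (hy i)
          have hz2 : Tendsto (fun i => z (i + i0)) atTop (𝓝 z') :=
            hz.comp (tendsto_add_atTop_nat i0)
          rcases seq_dichotomy hP ha hDc h1 hB k hz2 hy' hzy with ⟨m0, hm0⟩ | ⟨h, _⟩
          · obtain ⟨φ, hφ, hφm, hyt, hz', _⟩ := hrow hz2 hy' hzy m0 hm0
            right
            refine ⟨m0, t z', ?_, hz'⟩
            rw [seqIter_add_one]
            refine ⟨fun i => y (φ i), fun i => ?_, hyt⟩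
            have := hy (φ i)
            rwa [hφm i] at this
          · exact Or.inl h
      | limit β hβ ih =>
        intro z hz
        rw [seqIter_limit C β hβ] at hz
        obtain ⟨γ, hγ⟩ := mem_iUnion.1 hz
        rcases ih γ.1 γ.2 z hγ with h | ⟨m, y, hy, h⟩
        · exact Or.inl h
        · exact Or.inr ⟨m, y, seqIter_mono_right _ (le_of_lt γ.2) hy, h⟩
    intro α
    induction α using Ordinal.limitRecOn with
    | zero =>
      intro _ hcon
      rw [seqIter_zero] at hcon
      obtain ⟨m, y, hy, h⟩ := hcon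
      have h2 := hsZ m y (subset_closure hy)
      rw [← h, hs1] at h2
      exact ha.ne _ _ h2.symm
    | add_one β ih =>
      intro hβ hcon
      have hβ1 : (1 : G) ∉ seqIter C β :=
        ih (fun γ hγ => hβ γ (hγ.trans (Order.lt_add_one_iff.2 le_rfl)))
      rw [seqIter_add_one] at hcon
      obtain ⟨z, hzC, hz⟩ := hcon
      have h2 : ∀ i, ∃ m, ∃ y ∈ seqIter (B m) β, z i = P (a k m) y := by
        intro i
        rcases hR β _ (hzC i) with h | h
        · exact absurd (h ▸ hzC i) hβ1
        · exact h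
      choose m y hy hzy using h2
      have hy' : ∀ i, y i ∈ closure (B (m i)) := fun i => seqIter_subset_closure _ _ (hy i)
      rcases seq_dichotomy hP ha hDc h1 hB k hz hy' hzy with ⟨m0, hm0⟩ | ⟨_, hy1, htend⟩
      · obtain ⟨φ, hφ, hφm, hyt, hz', hs⟩ := hrow hz hy' hzy m0 hm0
        rw [hs1] at hs
        exact ha.ne _ _ hs.symm
      · have h3 := htend.eventually (hβ β (Order.lt_add_one_iff.2 le_rfl))
        obtain ⟨i, hi1, hi2⟩ := (h3.and hy1).exists
        apply hi1
        rw [← hi2]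
        exact hy i
    | limit α hα ih =>
      intro hβ hcon
      rw [seqIter_limit C α hα] at hcon
      obtain ⟨γ, hγ⟩ := mem_iUnion.1 hcon
      exact ih γ.1 γ.2 (fun δ hδ => hβ δ (hδ.trans γ.2)) hγ

theorem tagged_one (hs1 : s 1 = 1) (h1 : (1 : G) ∈ D) [T1Space G] (k : ℕ) :
    Tagged a D s k {1} := by
  refine ⟨?_, subset_closure rfl, ?_, ?_⟩
  · rintro z rfl
    exact h1
  · intro z hz
    rw [closure_singleton] at hz
    rw [hz]
    exact Or.inl hs1
  · intro z hz _
    rw [closure_singleton] at hz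
    exact hz

theorem exists_rank [T2Space G] (hseq : IsSequential G) (hP : Pairing D P s t) (ha : Fan a D)
    (hDc : IsClosed D) (h1 : (1 : G) ∈ D) (α : Ordinal.{0}) (hα : α < ω_ 1) :
    ∀ k, ∃ C : Set G, Tagged a D s k C ∧ (1 : G) ∉ seqIter C α := by
  induction α using WellFoundedLT.induction with
  | ind α ih =>
    intro k
    by_cases h0 : α = 0
    · obtain ⟨C, hC1, hC2⟩ := exists_build hseq hP ha hDc h1
        (fun m => tagged_one (a := a) (D := D) (hP.s_one h1) h1 m) k
      refine ⟨C, hC1, hC2 α ?_⟩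
      intro β hβ
      rw [h0] at hβ
      exact absurd hβ (not_lt.2 bot_le)
    · have hpos : 0 < α := bot_lt_iff_ne_bot.2 h0
      have hcount : (Iio α).Countable := by
        have h2 : α.card < Cardinal.aleph.{0} 1 :=
          Cardinal.lt_ord.1 (by rwa [← Cardinal.ord_aleph] at hα)
        have h3 : α.card ≤ Cardinal.aleph0 := by
          have h4 : Cardinal.aleph.{0} 1 = Order.succ Cardinal.aleph0 := by
            rw [← Cardinal.aleph_zero, Cardinal.succ_aleph]; simp
          exact Order.lt_succ_iff.1 (h2.trans_eq h4)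
        have h5 : Cardinal.mk (Iio α) ≤ Cardinal.aleph0 := by
          rw [Cardinal.mk_Iio_ordinal]
          exact Cardinal.lift_le_aleph0.2 h3
        exact Cardinal.mk_le_aleph0_iff.1 h5
      have hne : (Iio α).Nonempty := ⟨0, hpos⟩
      obtain ⟨f, hf⟩ := hcount.exists_eq_range hne
      have hfα : ∀ n, f n < α := fun n => by
        have : f n ∈ Iio α := by rw [hf]; exact ⟨n, rfl⟩
        exact this
      have hps : ∀ n, partialSups f n < α := by
        intro n
        induction n with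
        | zero => rw [partialSups_zero]; exact hfα 0
        | succ n ihn =>
          rw [← Order.succ_eq_add_one, partialSups_succ]
          exact max_lt ihn (hfα _)
      have hB : ∀ m, ∃ C : Set G, Tagged a D s m C ∧ (1 : G) ∉ seqIter C (partialSups f m) :=
        fun m => ih _ (hps m) ((hps m).trans hα) m
      choose B hB1 hB2 using hB
      obtain ⟨C, hC1, hC2⟩ := exists_build hseq hP ha hDc h1 hB1 k
      refine ⟨C, hC1, hC2 α ?_⟩
      intro β hβ
      obtain ⟨n, rfl⟩ : β ∈ range f := by rw [← hf]; exact hβ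
      filter_upwards [eventually_ge_atTop n] with m hm hcon
      exact hB2 m (seqIter_mono_right _ (le_partialSups_of_le f hm) hcon)

end build

/-- A countable Hausdorff sequential group with a pairing on a closed neighbourhood of `1` is
Frechet-Urysohn or has sequential order `ω₁`. -/
theorem seqOrder_le_one_or_eq [IsTopologicalGroup G] [T2Space G] [Countable G]
    (hseq : IsSequential G) {D : Set G} (hDn : D ∈ 𝓝 (1 : G)) (hDc : IsClosed D)
    {P : G → G → G} {s t : G → G} (hP : Pairing D P s t) :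
    seqOrder G ≤ 1 ∨ seqOrder G = ω_ 1 := by
  by_cases h : ∃ A : Set G, seqLim A ≠ closure A
  · right
    obtain ⟨a, ha⟩ := exists_fan hseq D hDn h
    have hmem : (ω_ 1 : Ordinal.{0}) ∈
        {α : Ordinal.{0} | ∀ A : Set G, seqIter A α = closure A} := hseq
    have hle : seqOrder G ≤ ω_ 1 := csInf_le' hmem
    apply le_antisymm hle
    by_contra hlt
    rw [not_le] at hlt
    have hall : ∀ A : Set G, seqIter A (seqOrder G) = closure A :=
      csInf_mem (s := {α : Ordinal.{0} | ∀ A : Set G, seqIter A α = closure A}) ⟨_, hmem⟩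
    obtain ⟨C, hC1, hC2⟩ := exists_rank hseq hP ha hDc (mem_of_mem_nhds hDn) _ hlt 0
    apply hC2
    rw [hall C]
    exact hC1.one
  · left
    push Not at h
    apply csInf_le'
    intro A
    rw [seqIter_one']
    exact h A

end Pool.Agent.Lib.MP_37efd7_lc.Para
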