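import Mathlib

/-!
Words with constants over a finite simple nonabelian group (module PGWord).

Proof. For `w : FreeGroup (Option A)` let `f_w x := FreeGroup.lift (fun o => o.elim x id) w` and
`u_w x := FreeGroup.lift (fun o => o.elim x (fun _ => 1)) w`. Both are homomorphisms in `w` for fixed
`x`, and `u_w x` is a power of `x`, so `u` of a commutator is `1`: `u_[w,w'] = 1`
(e.g. all values `u_w x` lie in `Subgroup.zpowers x`, which is commutative).
Fix `x0 : A`. For a finite set `T` of elements of `A` not containing `x0` let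
`M T := {c | ∃ w, f_w x0 = c ∧ ∀ t ∈ T, f_w t = 1}`. Claim: `M T = A`. `T = ∅`: the word `of (some c)`.
For `T = {t}`: `M {t}` is a normal subgroup (conjugate by `of (some g)`) which contains
`x0 * t⁻¹ ≠ 1` (the word `of none * (of (some t))⁻¹`), so `M {t} = A` by simplicity.
For `insert t T`: commutators of a word for `T` and a word for `{t}` vanish on `insert t T`, so
`M (insert t T)` is a subgroup containing all commutators `⁅c, c'⁆`, hence everything
(`A` is simple and nonabelian, so `commutator A = ⊤`).
Once more: `M' := {c | ∃ w, f_w x0 = c ∧ (∀ t ≠ x0, f_w t = 1) ∧ ∀ x, u_w x = 1}` is a subgroup which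
contains all commutators, so it is everything; take `c = x0` and multiply over all `x0 : A`
(a `List`/`Finset.noncommProd` product over the finite type `A`, or an induction over a finite set
`X` of elements: there is `w` with `f_w x = x` for `x ∈ X`, `f_w x = 1` for `x ∉ X`, `u_w = 1`).
-/

namespace Pool.Agent.Lib.MP_37efd7_lc.Para

/-- Evaluation of a word with constants. -/
private def evF {A : Type*} [Group A] (x : A) : FreeGroup (Option A) →* A :=
  FreeGroup.lift (fun o : Option A => o.elim x id)

/-- Evaluation of a word with the constants deleted. -/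
private def evU {A : Type*} [Group A] (x : A) : FreeGroup (Option A) →* A :=
  FreeGroup.lift (fun o : Option A => o.elim x (fun _ => 1))

private theorem evU_mem {A : Type*} [Group A] (x : A) (w : FreeGroup (Option A)) :
    evU x w ∈ Subgroup.zpowers x := by
  have h : (evU x).range ≤ Subgroup.zpowers x := by
    unfold evU
    apply FreeGroup.range_lift_le
    intro y hy
    obtain ⟨o, rfl⟩ := hy
    cases o with
    | none => exact Subgroup.mem_zpowers x
    | some a => exact Subgroup.one_mem _
  exact h ⟨w, rfl⟩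

private theorem evU_comm {A : Type*} [Group A] (x : A) (v w : FreeGroup (Option A)) :
    evU x (v * w * v⁻¹ * w⁻¹) = 1 := by
  obtain ⟨m, hm⟩ := Subgroup.mem_zpowers_iff.mp (evU_mem x v)
  obtain ⟨n, hn⟩ := Subgroup.mem_zpowers_iff.mp (evU_mem x w)
  rw [map_mul, map_mul, map_mul, map_inv, map_inv, ← hm, ← hn, ← zpow_add, ← zpow_neg, ← zpow_neg,
    ← zpow_add, ← zpow_add]
  have : m + n + -m + -n = 0 := by ring
  rw [this, zpow_zero]

private theorem evF_some {A : Type*} [Group A] (x c : A) :
    evF x (FreeGroup.of (some c)) = c := by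
  unfold evF
  rw [FreeGroup.lift_apply_of]
  rfl

private theorem evF_none {A : Type*} [Group A] (x : A) :
    evF x (FreeGroup.of none) = x := by
  unfold evF
  rw [FreeGroup.lift_apply_of]
  rfl

private theorem evF_surj {A : Type*} [Group A] (x : A) : Function.Surjective (evF x) :=
  fun c => ⟨FreeGroup.of (some c), evF_some x c⟩

/-- A normal subgroup of words whose values contain a nontrivial element has all values. -/
private theorem full_of_ne {A : Type*} [Group A] [IsSimpleGroup A] (x0 : A)
    (N : Subgroup (FreeGroup (Option A))) (hN : N.Normal) (w : FreeGroup (Option A)) (hw : w ∈ N)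
    (h1 : evF x0 w ≠ 1) (c : A) : ∃ v ∈ N, evF x0 v = c := by
  have hn : (N.map (evF x0)).Normal := hN.map (evF x0) (evF_surj x0)
  have htop : N.map (evF x0) = ⊤ := by
    rcases hn.eq_bot_or_eq_top with h | h
    · exfalso
      apply h1
      have : evF x0 w ∈ N.map (evF x0) := ⟨w, hw, rfl⟩
      rw [h] at this
      exact Subgroup.mem_bot.mp this
    · exact h
  have : c ∈ N.map (evF x0) := by rw [htop]; exact Subgroup.mem_top c
  exact this

/-- The words vanishing on `T`. -/
private def van {A : Type*} [Group A] (T : Set A) : Subgroup (FreeGroup (Option A)) where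
  carrier := {w | ∀ t ∈ T, evF t w = 1}
  mul_mem' := by
    intro a b ha hb t ht
    rw [map_mul, ha t ht, hb t ht, one_mul]
  one_mem' := by
    intro t _
    exact map_one _
  inv_mem' := by
    intro a ha t ht
    rw [map_inv, ha t ht, inv_one]

private theorem van_normal {A : Type*} [Group A] (T : Set A) : (van T).Normal := by
  constructor
  intro n hn g t ht
  have h : evF t n = 1 := hn t ht
  rw [map_mul, map_mul, map_inv, h, mul_one, mul_inv_cancel]

private theorem comm_ne {A : Type*} [Group A] {x y : A} (h : x * y ≠ y * x) :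
    x * y * x⁻¹ * y⁻¹ ≠ 1 := by
  intro h1
  apply h
  have h2 : x * y * x⁻¹ = y := by
    have := mul_inv_eq_one.mp h1
    exact this
  exact mul_inv_eq_iff_eq_mul.mp h2

private theorem van_full {A : Type*} [Group A] [IsSimpleGroup A]
    (hA : ∃ x y : A, x * y ≠ y * x) (x0 : A) (T : Finset A) (hT : x0 ∉ T) (c : A) :
    ∃ v, (∀ t ∈ T, evF t v = 1) ∧ evF x0 v = c := by
  classical
  induction T using Finset.induction_on generalizing c with
  | empty =>
    exact ⟨FreeGroup.of (some c), by simp, evF_some x0 c⟩
  | insert t T ht ih =>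
    have hx0t : x0 ≠ t := fun h => hT (by rw [h]; exact Finset.mem_insert_self t T)
    have hx0T : x0 ∉ T := fun h => hT (Finset.mem_insert_of_mem h)
    have ih' := ih hx0T
    -- the single point
    have hone : ∀ c : A, ∃ v, v ∈ van ({t} : Set A) ∧ evF x0 v = c := by
      intro c
      refine full_of_ne x0 (van {t}) (van_normal {t})
        (FreeGroup.of none * (FreeGroup.of (some t))⁻¹) ?_ ?_ c
      · intro s hs
        have hs' : s = t := hs
        subst hs'
        rw [map_mul, map_inv, evF_none, evF_some, mul_inv_cancel]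
      · rw [map_mul, map_inv, evF_none, evF_some]
        intro h
        exact hx0t (mul_inv_eq_one.mp h)
    obtain ⟨x, y, hxy⟩ := hA
    obtain ⟨v1, hv1, hv1x⟩ := ih' x
    obtain ⟨v2, hv2, hv2y⟩ := hone y
    have hv2t : evF t v2 = 1 := hv2 t rfl
    obtain ⟨v, hv, hvc⟩ := full_of_ne x0 (van (insert t (T : Set A))) (van_normal _)
      (v1 * v2 * v1⁻¹ * v2⁻¹) (by
        intro s hs
        rcases hs with hs | hs
        · subst hs
          rw [map_mul, map_mul, map_mul, map_inv, map_inv, hv2t, mul_one, mul_inv_cancel, inv_one,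
            mul_one]
        · have h1 : evF s v1 = 1 := hv1 s hs
          rw [map_mul, map_mul, map_mul, map_inv, map_inv, h1, one_mul, inv_one, mul_one,
            mul_inv_cancel]) (by
        rw [map_mul, map_mul, map_mul, map_inv, map_inv, hv1x, hv2y]
        exact comm_ne hxy) c
    refine ⟨v, ?_, hvc⟩
    intro s hs
    apply hv
    rcases Finset.mem_insert.mp hs with h | h
    · left; exact h
    · right; exact h

/-- The words vanishing on `T` whose constant-free part is trivial. -/
private def vanU {A : Type*} [Group A] (T : Set A) : Subgroup (FreeGroup (Option A)) where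
  carrier := {w | (∀ t ∈ T, evF t w = 1) ∧ ∀ x : A, evU x w = 1}
  mul_mem' := by
    intro a b ha hb
    refine ⟨fun t ht => ?_, fun x => ?_⟩
    · rw [map_mul, ha.1 t ht, hb.1 t ht, one_mul]
    · rw [map_mul, ha.2 x, hb.2 x, one_mul]
  one_mem' := ⟨fun t _ => map_one _, fun x => map_one _⟩
  inv_mem' := by
    intro a ha
    refine ⟨fun t ht => ?_, fun x => ?_⟩
    · rw [map_inv, ha.1 t ht, inv_one]
    · rw [map_inv, ha.2 x, inv_one]

private theorem vanU_normal {A : Type*} [Group A] (T : Set A) : (vanU T).Normal := by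
  constructor
  intro n hn g
  refine ⟨fun t ht => ?_, fun x => ?_⟩
  · have h : evF t n = 1 := hn.1 t ht
    rw [map_mul, map_mul, map_inv, h, mul_one, mul_inv_cancel]
  · have h : evU x n = 1 := hn.2 x
    rw [map_mul, map_mul, map_inv, h, mul_one, mul_inv_cancel]

private theorem exists_single {A : Type*} [Group A] [Finite A] [IsSimpleGroup A]
    (hA : ∃ x y : A, x * y ≠ y * x) (x0 : A) :
    ∃ w, evF x0 w = x0 ∧ (∀ t, t ≠ x0 → evF t w = 1) ∧ ∀ x : A, evU x w = 1 := by
  classical
  have : Fintype A := Fintype.ofFinite A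
  obtain ⟨x, y, hxy⟩ := hA
  have hmem : x0 ∉ (Finset.univ.erase x0 : Finset A) := Finset.notMem_erase x0 _
  obtain ⟨v1, hv1, hv1x⟩ := van_full ⟨x, y, hxy⟩ x0 (Finset.univ.erase x0) hmem x
  obtain ⟨v2, hv2, hv2y⟩ := van_full ⟨x, y, hxy⟩ x0 (Finset.univ.erase x0) hmem y
  obtain ⟨v, hv, hvc⟩ := full_of_ne x0 (vanU {t : A | t ≠ x0}) (vanU_normal _)
    (v1 * v2 * v1⁻¹ * v2⁻¹) (by
      refine ⟨fun t ht => ?_, fun z => evU_comm z v1 v2⟩
      have ht' : t ∈ (Finset.univ.erase x0 : Finset A) :=
        Finset.mem_erase.mpr ⟨ht, Finset.mem_univ t⟩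
      rw [map_mul, map_mul, map_mul, map_inv, map_inv, hv1 t ht', hv2 t ht', one_mul, inv_one,
        one_mul, mul_one]) (by
      rw [map_mul, map_mul, map_mul, map_inv, map_inv, hv1x, hv2y]
      exact comm_ne hxy) x0
  exact ⟨v, hvc, fun t ht => hv.1 t ht, hv.2⟩

private theorem exists_fin {A : Type*} [Group A] [Finite A] [IsSimpleGroup A]
    (hA : ∃ x y : A, x * y ≠ y * x) (X : Finset A) :
    ∃ w, (∀ x ∈ X, evF x w = x) ∧ (∀ x, x ∉ X → evF x w = 1) ∧ ∀ x : A, evU x w = 1 := by
  classical
  induction X using Finset.induction_on with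
  | empty =>
    exact ⟨1, by simp, fun x _ => map_one _, fun x => map_one _⟩
  | insert x0 X hx0 ih =>
    obtain ⟨w, hw1, hw2, hw3⟩ := ih
    obtain ⟨v, hv1, hv2, hv3⟩ := exists_single hA x0
    refine ⟨v * w, fun x hx => ?_, fun x hx => ?_, fun x => ?_⟩
    · rw [map_mul]
      rcases Finset.mem_insert.mp hx with h | h
      · subst h
        rw [hv1, hw2 x hx0, mul_one]
      · have hne : x ≠ x0 := fun h' => hx0 (h' ▸ h)
        rw [hv2 x hne, hw1 x h, one_mul]
    · rw [Finset.mem_insert, not_or] at hx
      rw [map_mul, hv2 x hx.1, hw2 x hx.2, one_mul]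
    · rw [map_mul, hv3 x, hw3 x, one_mul]

theorem exists_word (A : Type*) [Group A] [Finite A] [IsSimpleGroup A]
    (hA : ∃ x y : A, x * y ≠ y * x) :
    ∃ w : FreeGroup (Option A), (∀ x : A, FreeGroup.lift (fun o : Option A => o.elim x id) w = x) ∧
      ∀ x : A, FreeGroup.lift (fun o : Option A => o.elim x (fun _ => 1)) w = 1 := by
  classical
  have : Fintype A := Fintype.ofFinite A
  obtain ⟨w, hw1, _, hw3⟩ := exists_fin hA (Finset.univ : Finset A)
  exact ⟨w, fun x => hw1 x (Finset.mem_univ x), hw3⟩

end Pool.Agent.Lib.MP_37efd7_lc.Para
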