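import Pool.Agent.Lib.MP_37efd7_lc.PGGroup
import Pool.Agent.Lib.MP_37efd7_lc.PGRank
import Pool.Agent.Lib.MP_37efd7_lc.PGWord

/-!
A countable topologizable group all of whose sequential group topologies have sequential order at
most one or equal to `ω₁`.
-/

namespace Pool.Agent.Lib.MP_37efd7_lc.Para

open Filter Topology Set

theorem continuous_lift {α H : Type*} [Group H] [TopologicalSpace H] [IsTopologicalGroup H]
    {f : H → α → H} (hf : ∀ o, Continuous (fun g => f g o)) (w : FreeGroup α) :
    Continuous (fun g => FreeGroup.lift (f g) w) := by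
  induction w using FreeGroup.induction_on with
  | C1 => simpa using continuous_const
  | of x => simpa using hf x
  | inv_of x ih =>
    simp only [map_inv, FreeGroup.lift_apply_of]
    exact (hf x).inv
  | mul x y hx hy =>
    simp only [map_mul]
    exact hx.mul hy

section

variable {A : Type} [Group A]

theorem continuous_pE [TopologicalSpace (GG A)] [IsTopologicalGroup (GG A)]
    (w : FreeGroup (Option A)) (x : Fin 2) (ε : Bool) : Continuous (pE w x ε) := by
  unfold pE
  apply continuous_lift
  intro o
  cases o with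
  | none => exact continuous_id
  | some c => exact continuous_const

theorem continuous_rr [TopologicalSpace (GG A)] [IsTopologicalGroup (GG A)]
    (w : FreeGroup (Option A)) (x : Fin 2) : Continuous (rr w x) := by
  have h := continuous_pE w x true
  unfold rr
  fun_prop

theorem continuous_ss [TopologicalSpace (GG A)] [IsTopologicalGroup (GG A)]
    (w : FreeGroup (Option A)) (x : Fin 2) : Continuous (ss w x) := by
  have h := continuous_pE w x true
  have h' := continuous_pE w x false
  unfold ss
  fun_prop

variable (A) in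
/-- The base group. -/
noncomputable def DD : Subgroup (GG A) :=
  (RegularWreathProduct.rightHom.comp (GG A).subtype).ker

theorem mem_DD {g : GG A} : g ∈ DD A ↔ (g : RegularWreathProduct A F2).right = 1 := Iff.rfl

theorem DD_mem_nhds [TopologicalSpace (GG A)] [IsTopologicalGroup (GG A)] [T2Space (GG A)]
    {c c' : A} (hc : c * c' ≠ c' * c) : (DD A : Set (GG A)) ∈ 𝓝 1 := by
  have hopen : IsOpen {g : GG A | g⁻¹ * pt c * g * pt c' = pt c' * (g⁻¹ * pt c * g)}ᶜ := by
    apply IsClosed.isOpen_compl (self := isClosed_eq (by fun_prop) (by fun_prop))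
  apply mem_of_superset (hopen.mem_nhds ?_)
  · intro g hg
    change g ∈ DD A
    rw [mem_DD]
    by_contra hne
    exact hg (comm_of_right_ne hne c c')
  · intro hcon
    have h1 : (1 : GG A)⁻¹ * pt c * 1 * pt c' = pt c' * ((1 : GG A)⁻¹ * pt c * 1) := hcon
    rw [inv_one, one_mul, mul_one] at h1
    have h2 := congrArg (fun g : GG A => (g : RegularWreathProduct A F2).left 1) h1
    simp only [Subgroup.coe_mul, pt_val, ← map_mul] at h2
    rw [iota_left, iota_left, Pi.mul_apply, Pi.mul_apply,
      mulIndicator_of_mem (mem_singleton (1 : F2)),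
      mulIndicator_of_mem (mem_singleton (1 : F2))] at h2
    exact hc h2

theorem pairing [TopologicalSpace (GG A)] [IsTopologicalGroup (GG A)]
    {w : FreeGroup (Option A)}
    (hw1 : ∀ x : A, FreeGroup.lift (fun o : Option A => o.elim x id) w = x)
    (hw2 : ∀ x : A, FreeGroup.lift (fun o : Option A => o.elim x (fun _ => 1)) w = 1) :
    Pairing (DD A : Set (GG A)) (fun g h => rr w 0 g * rr w 1 h) (ss w 0) (ss w 1) where
  cP := ((continuous_rr w 0).comp continuous_fst).mul ((continuous_rr w 1).comp continuous_snd)
  cs := continuous_ss w 0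
  ct := continuous_ss w 1
  one := by
    apply Subtype.ext
    have h1 : ((1 : GG A) : RegularWreathProduct A F2) = iota 1 := rfl
    have hR : ∀ x : Fin 2, RV x (1 : F2 → A) = 1 := by
      intro x
      funext p
      simp [RV]
    rw [Subgroup.coe_mul, rr_val hw1 hw2 0 h1, rr_val hw1 hw2 1 h1, hR, hR, ← map_mul, mul_one]
    rfl
  mem x hx y hy := rr_mul_right hw1 hw2 hx hy
  s_eq x hx y hy := ss_rr_left hw1 hw2 hx hy
  t_eq x hx y hy := ss_rr_right hw1 hw2 hx hy

theorem seqOrder_GG [Finite A] [IsSimpleGroup A] (hA : ∃ x y : A, x * y ≠ y * x)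
    [TopologicalSpace (GG A)] [IsTopologicalGroup (GG A)] [T2Space (GG A)]
    (hseq : IsSequential (GG A)) : seqOrder (GG A) ≤ 1 ∨ seqOrder (GG A) = Ordinal.omega 1 := by
  obtain ⟨w, hw1, hw2⟩ := exists_word A hA
  obtain ⟨c, c', hc⟩ := hA
  have : Countable (GG A) := countable_GG
  have hn := DD_mem_nhds (A := A) hc
  have hopen : IsOpen (DD A : Set (GG A)) := Subgroup.isOpen_of_mem_nhds _ hn
  exact seqOrder_le_one_or_eq hseq hn (Subgroup.isClosed_of_isOpen _ hopen) (pairing hw1 hw2)

end

end Pool.Agent.Lib.MP_37efd7_lc.Para
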