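import Pool.Agent.Lib.MP_37efd7_lc.Word

/-!
Commutator identities, and the key algebraic statement about sequences.
-/

namespace Pool.Agent.Lib.MP_37efd7_lc

open Module LinearMap
open scoped commutatorElement

theorem comm_ring {R : Type*} [Ring R] {A B : R} (hA : A * A = 0) (hB : B * B = 0)
    (hBA : B * A = 0) : (1 + A) * (1 + B) * (1 - A) * (1 - B) = 1 + A * B := by
  have h1 : (1 + A) * (1 + B) * (1 - A) = 1 + B + A * B := by
    have : (1 + A) * (1 + B) * (1 - A) = 1 + B + A * B - A * A - B * A - A * (B * A) := by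
      noncomm_ring
    rw [this, hA, hBA, mul_zero]; abel
  rw [h1]
  have : (1 + B + A * B) * (1 - B) = 1 + A * B - B * B - A * (B * B) := by noncomm_ring
  rw [this, hB, mul_zero]; abel

/-- The unit `1 + T` for `T² = 0`. -/
def oneAdd {R : Type*} [Ring R] (T : R) (hT : T * T = 0) : Rˣ where
  val := 1 + T
  inv := 1 - T
  val_inv := by
    have : (1 + T) * (1 - T) = 1 - T * T := by noncomm_ring
    rw [this, hT, sub_zero]
  inv_val := by
    have : (1 - T) * (1 + T) = 1 - T * T := by noncomm_ring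
    rw [this, hT, sub_zero]

theorem comm_unit {R : Type*} [Ring R] {a b : Rˣ} {A B : R} (ha : a.val = 1 + A)
    (hb : b.val = 1 + B) (hA : A * A = 0) (hB : B * B = 0) (hBA : B * A = 0) :
    (⁅a, b⁆ : Rˣ).val = 1 + A * B := by
  have ha' : a = oneAdd A hA := Units.ext ha
  have hb' : b = oneAdd B hB := Units.ext hb
  subst ha'; subst hb'
  exact comm_ring hA hB hBA

theorem word_unit {R : Type*} [Ring R] {x y z g : Rˣ} {X Y Z : R} (hx : x.val = 1 + X)
    (hy : y.val = 1 + Y) (hz : z.val = 1 + Z) (hX : X * X = 0) (hY : Y * Y = 0)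
    (hZ : Z * Z = 0) (hZX : Z * X = 0) (hYX : Y * (g⁻¹ : Rˣ).val * X = 0) :
    (⁅⁅x, g * y * g⁻¹⁆, z⁆ : Rˣ).val = 1 + X * g.val * Y * (g⁻¹ : Rˣ).val * Z := by
  have hh : (g * y * g⁻¹ : Rˣ).val = 1 + g.val * Y * (g⁻¹ : Rˣ).val := by
    rw [Units.val_mul, Units.val_mul, hy, mul_add, mul_one, add_mul, Units.mul_inv]
  have hHH : g.val * Y * (g⁻¹ : Rˣ).val * (g.val * Y * (g⁻¹ : Rˣ).val) = 0 := by
    have : g.val * Y * (g⁻¹ : Rˣ).val * (g.val * Y * (g⁻¹ : Rˣ).val)
        = g.val * Y * ((g⁻¹ : Rˣ).val * g.val) * Y * (g⁻¹ : Rˣ).val := by noncomm_ring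
    rw [this, Units.inv_mul, mul_one, mul_assoc g.val Y Y, hY, mul_zero, zero_mul]
  have hHX : g.val * Y * (g⁻¹ : Rˣ).val * X = 0 := by
    rw [mul_assoc g.val Y, mul_assoc g.val, hYX, mul_zero]
  have h1 := comm_unit (a := x) (b := g * y * g⁻¹) hx hh hX hHH hHX
  have h2 : (⁅x, g * y * g⁻¹⁆ : Rˣ).val = 1 + X * g.val * Y * (g⁻¹ : Rˣ).val := by
    rw [h1]; noncomm_ring
  have hT : X * g.val * Y * (g⁻¹ : Rˣ).val * (X * g.val * Y * (g⁻¹ : Rˣ).val) = 0 := by
    have : X * g.val * Y * (g⁻¹ : Rˣ).val * (X * g.val * Y * (g⁻¹ : Rˣ).val)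
       = X * g.val * (Y * (g⁻¹ : Rˣ).val * X) * (g.val * Y * (g⁻¹ : Rˣ).val) := by noncomm_ring
    rw [this, hYX, mul_zero, zero_mul]
  have hZT : Z * (X * g.val * Y * (g⁻¹ : Rˣ).val) = 0 := by
    have : Z * (X * g.val * Y * (g⁻¹ : Rˣ).val) = (Z * X) * (g.val * Y * (g⁻¹ : Rˣ).val) := by
      noncomm_ring
    rw [this, hZX, zero_mul]
  exact comm_unit h2 hz hT hZ hZT

variable {F : Type*} [Field F] {V : Type*} [AddCommGroup V] [Module F V]

variable (F V) in
/-- The finitary subgroup: operators that differ from the identity by a finite rank operator. -/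
def finitary : Subgroup (Module.End F V)ˣ := (Units.map (frMk F V : Module.End F V →* FrQuot F V)).ker

instance : (finitary F V).Normal := by unfold finitary; infer_instance

theorem mem_finitary {g : (Module.End F V)ˣ} : g ∈ finitary F V ↔ FinRank (g.val - 1) := by
  unfold finitary
  rw [MonoidHom.mem_ker, ← frMk_eq_iff, map_one, Units.ext_iff]
  rfl

theorem mk_eq_iff {g h : (Module.End F V)ˣ} :
    (QuotientGroup.mk g : (Module.End F V)ˣ ⧸ finitary F V) = QuotientGroup.mk h ↔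
      frMk F V g.val = frMk F V h.val := by
  rw [QuotientGroup.eq]
  unfold finitary
  rw [MonoidHom.mem_ker, map_mul, map_inv, inv_mul_eq_one, Units.ext_iff]
  rfl

/-- **Key algebraic statement.** For an independent sequence `g n` there are `x, y, z, c` such
that the double commutators `[[x, g y g⁻¹], z]` are all equal to `c ≠ 1` modulo finitary
operators, for `g = g n`, while for `g = 1` the double commutator is trivial. -/
theorem exists_xyz [Finite F] (g : ℕ → (Module.End F V)ˣ) (hg : ∀ m, IndepMod (opg g) m)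
    (hgi : ∀ m, IndepMod (opi g) m) :
    ∃ x y z c : (Module.End F V)ˣ ⧸ finitary F V, c ≠ 1 ∧
      (∀ n, ⁅⁅x, (g n : (Module.End F V)ˣ ⧸ finitary F V) * y *
        (g n : (Module.End F V)ˣ ⧸ finitary F V)⁻¹⁆, z⁆ = c) ∧
      ⁅⁅x, 1 * y * 1⁻¹⁆, z⁆ = 1 := by
  obtain ⟨X, Y, Z, C, hX, hY, hZ, hZX, hYX, hXYZ, hC, hgX, hgC⟩ := exists_word g hg hgi
  let π := frMk F V
  let φ : (Module.End F V)ˣ →* (FrQuot F V)ˣ := Units.map (π : Module.End F V →* FrQuot F V)
  let x := oneAdd X hX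
  let y := oneAdd Y hY
  let z := oneAdd Z hZ
  have hmap : ∀ u : (Module.End F V)ˣ, (φ u).val = π u.val := fun u => rfl
  have hx' : (φ x).val = 1 + π X := by
    rw [hmap]; change π (1 + X) = _; rw [map_add, map_one]
  have hy' : (φ y).val = 1 + π Y := by
    rw [hmap]; change π (1 + Y) = _; rw [map_add, map_one]
  have hz' : (φ z).val = 1 + π Z := by
    rw [hmap]; change π (1 + Z) = _; rw [map_add, map_one]
  have hπX : π X * π X = 0 := by rw [← map_mul, hX, map_zero]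
  have hπY : π Y * π Y = 0 := by rw [← map_mul, hY, map_zero]
  have hπZ : π Z * π Z = 0 := by rw [← map_mul, hZ, map_zero]
  have hπZX : π Z * π X = 0 := by rw [← map_mul, hZX, map_zero]
  have hword : ∀ n, (φ ⁅⁅x, g n * y * (g n)⁻¹⁆, z⁆).val = 1 + π C := by
    intro n
    have h1 : φ ⁅⁅x, g n * y * (g n)⁻¹⁆, z⁆ = ⁅⁅φ x, φ (g n) * φ y * (φ (g n))⁻¹⁆, φ z⁆ := by
      simp only [map_commutatorElement, map_mul, map_inv]
    have hYgX : π Y * ((φ (g n))⁻¹ : (FrQuot F V)ˣ).val * π X = 0 := by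
      rw [← map_inv, hmap, ← map_mul, ← map_mul]
      exact frMk_eq_zero_iff.mpr (hgX n)
    rw [h1, word_unit hx' hy' hz' hπX hπY hπZ hπZX hYgX]
    congr 1
    rw [← map_inv, hmap, hmap, ← map_mul, ← map_mul, ← map_mul, ← map_mul]
    exact frMk_eq_iff.mpr (hgC n)
  have hone : (φ ⁅⁅x, 1 * y * 1⁻¹⁆, z⁆).val = 1 := by
    have h1 : φ ⁅⁅x, 1 * y * 1⁻¹⁆, z⁆ = ⁅⁅φ x, φ 1 * φ y * (φ 1)⁻¹⁆, φ z⁆ := by
      simp only [map_commutatorElement, map_mul, map_inv]
    have hYgX : π Y * ((φ 1)⁻¹ : (FrQuot F V)ˣ).val * π X = 0 := by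
      rw [map_one, inv_one, Units.val_one, mul_one, ← map_mul, hYX, map_zero]
    rw [h1, word_unit hx' hy' hz' hπX hπY hπZ hπZX hYgX]
    rw [map_one, inv_one, Units.val_one, mul_one, mul_one, ← map_mul, ← map_mul, hXYZ, map_zero,
      add_zero]
  refine ⟨x, y, z, QuotientGroup.mk ⁅⁅x, g 0 * y * (g 0)⁻¹⁆, z⁆, ?_, ?_, ?_⟩
  · intro h
    have h' : (QuotientGroup.mk ⁅⁅x, g 0 * y * (g 0)⁻¹⁆, z⁆ : (Module.End F V)ˣ ⧸ finitary F V)
      = QuotientGroup.mk 1 := h
    rw [mk_eq_iff] at h'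
    have h2 : 1 + π C = 1 := by rw [← hword 0, hmap, h', Units.val_one, map_one]
    have h3 : π C = 0 := by simpa using h2
    exact hC (frMk_eq_zero_iff.mp h3)
  · intro n
    have : (QuotientGroup.mk ⁅⁅x, g n * y * (g n)⁻¹⁆, z⁆ : (Module.End F V)ˣ ⧸ finitary F V)
      = QuotientGroup.mk ⁅⁅x, g 0 * y * (g 0)⁻¹⁆, z⁆ := by
      rw [mk_eq_iff]
      change (φ _).val = (φ _).val
      rw [hword n, hword 0]
    rw [← this]
    rfl
  · have : (QuotientGroup.mk ⁅⁅x, 1 * y * 1⁻¹⁆, z⁆ : (Module.End F V)ˣ ⧸ finitary F V)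
      = QuotientGroup.mk 1 := by
      rw [mk_eq_iff]
      change (φ _).val = _
      rw [hone, Units.val_one, map_one]
    exact this

end Pool.Agent.Lib.MP_37efd7_lc
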