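import Pool.Agent.Lib.MP_37efd7_lc.SQCs

/-!
The countable Boolean group with its product topology (module SQBase).

`V := ℕ × ℕ →₀ ZMod 2` with the topology induced from `ℕ × ℕ → ZMod 2`,
`e n m := single (n, m) 1`, `ρ₀ v := ∑ p ∈ support v, (1/2) ^ (Nat.pair p.1 p.2)`.
-/

namespace Pool.Agent.Lib.MP_37efd7_lc.Ctbl

open Filter Topology Set Pointwise

namespace SQB

/-- The group. -/
abbrev VV : Type := ℕ × ℕ →₀ ZMod 2

/-- The functions, as a homomorphism. -/
noncomputable def cf : VV →+ (ℕ × ℕ → ZMod 2) where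
  toFun v := fun p => v p
  map_zero' := rfl
  map_add' v w := by
    funext p
    exact Finsupp.add_apply v w p

/-- The topology. -/
@[reducible] noncomputable def tV : TopologicalSpace VV :=
  TopologicalSpace.induced cf inferInstance

attribute [local instance] tV

/-- The weights. -/
noncomputable def wt (p : ℕ × ℕ) : ℝ := (1 / 2) ^ (Nat.pair p.1 p.2)

theorem wt_pos (p : ℕ × ℕ) : 0 < wt p := by
  unfold wt
  positivity

/-- The seminorm. -/
noncomputable def rho : AddGroupSeminorm VV where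
  toFun v := ∑ p ∈ v.support, wt p
  map_zero' := by simp
  add_le' v w := by
    calc ∑ p ∈ (v + w).support, wt p ≤ ∑ p ∈ v.support ∪ w.support, wt p :=
          Finset.sum_le_sum_of_subset_of_nonneg Finsupp.support_add
            (fun p _ _ => (wt_pos p).le)
      _ ≤ ∑ p ∈ v.support ∪ w.support, wt p + ∑ p ∈ v.support ∩ w.support, wt p :=
          le_add_of_nonneg_right (Finset.sum_nonneg fun p _ => (wt_pos p).le)
      _ = ∑ p ∈ v.support, wt p + ∑ p ∈ w.support, wt p := Finset.sum_union_inter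
  neg' v := by rw [Finsupp.support_neg]

theorem rho_apply (v : VV) : rho v = ∑ p ∈ v.support, wt p := rfl

/-- The sequences. -/
noncomputable def ee (n m : ℕ) : VV := Finsupp.single (n, m) 1

theorem ee_self (n m : ℕ) : ee n m (n, m) = 1 := Finsupp.single_eq_same

theorem ee_ne {n m : ℕ} {p : ℕ × ℕ} (h : (n, m) ≠ p) : ee n m p = 0 :=
  Finsupp.single_eq_of_ne h.symm

theorem rho_ee (n m : ℕ) : rho (ee n m) = wt (n, m) := by
  rw [rho_apply, ee, Finsupp.support_single _ (one_ne_zero)]
  exact Finset.sum_singleton _ _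

theorem wt_le_rho {v : VV} {p : ℕ × ℕ} (h : v p ≠ 0) : wt p ≤ rho v := by
  rw [rho_apply]
  exact Finset.single_le_sum (f := wt) (fun q _ => (wt_pos q).le) (Finsupp.mem_support_iff.2 h)

theorem tendsto_of_null {u : ℕ → VV} (h : NullSeq rho u) : Tendsto u atTop (𝓝 0) := by
  rw [nhds_induced, tendsto_comap_iff, map_zero, tendsto_pi_nhds]
  intro p
  have h1 : ∀ᶠ i in atTop, rho (u i) < wt p := (tendsto_order.1 h).2 _ (wt_pos p)
  refine tendsto_const_nhds.congr' ?_
  filter_upwards [h1] with i hi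
  show (0 : ZMod 2) = u i p
  by_contra hne
  exact absurd (wt_le_rho (fun h0 => hne h0.symm)) (not_le.2 hi)

theorem null_ee (n : ℕ) : NullSeq rho (ee n) := by
  show Tendsto (fun i => rho (ee n i)) atTop (𝓝 0)
  have h1 : Tendsto (fun k : ℕ => ((1 : ℝ) / 2) ^ k) atTop (𝓝 0) :=
    tendsto_pow_atTop_nhds_zero_of_lt_one (by norm_num) (by norm_num)
  have h2 : Tendsto (fun m : ℕ => Nat.pair n m) atTop atTop :=
    tendsto_atTop_mono (fun m => Nat.right_le_pair n m) tendsto_id
  refine (h1.comp h2).congr fun m => ?_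
  rw [rho_ee]
  rfl

theorem Cs_vanish (J l : ℕ) : ∀ v ∈ Cs (KS ee J) l, ∀ n, J ≤ n → ∀ m, v (n, m) = 0 := by
  induction l with
  | zero =>
    intro v hv n _ m
    have h : v = 0 := hv
    rw [h]
    rfl
  | succ l ih =>
    intro v hv n hn m
    obtain ⟨w, hw, k, hk, rfl⟩ := mem_Cs_succ.1 hv
    rw [Finsupp.add_apply, ih w hw n hn m, zero_add]
    rcases hk with rfl | ⟨j, hj, i, rfl⟩
    · rfl
    · exact ee_ne fun h => by
        have := congrArg Prod.fst h
        simp only at this
        omega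

theorem exists_mem (v : VV) : ∃ J l, v ∈ Cs (KS ee J) l := by
  induction v using Finsupp.induction_linear with
  | zero => exact ⟨0, 0, rfl⟩
  | add f g hf hg =>
    obtain ⟨J, l, h1⟩ := hf
    obtain ⟨J', l', h2⟩ := hg
    exact ⟨max J J', l + l', Cs_add (CsKS_mono ee (le_max_left _ _) le_rfl h1)
      (CsKS_mono ee (le_max_right _ _) le_rfl h2)⟩
  | single p a =>
    rcases p with ⟨n, m⟩
    have ha : a = 0 ∨ a = 1 := by
      revert a
      decide
    rcases ha with rfl | rfl
    · exact ⟨0, 0, Finsupp.single_zero _⟩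
    · exact ⟨n + 1, 1, subset_Cs_one (mem_KS (Nat.lt_succ_self n) m)⟩

end SQB

open SQB in
attribute [local instance] tV in
theorem exists_base : ∃ (V : Type) (_ : AddCommGroup V) (_ : TopologicalSpace V)
    (e : ℕ → ℕ → V) (ρ₀ : AddGroupSeminorm V), Countable V ∧ IsTopologicalAddGroup V ∧
      T2Space V ∧ FirstCountableTopology V ∧ (∀ v : V, v + v = 0) ∧
      (∀ u : ℕ → V, NullSeq ρ₀ u → Tendsto u atTop (𝓝 0)) ∧ (∀ n, NullSeq ρ₀ (e n)) ∧
      (∀ J, Avoid e (KS e J)) ∧ (∀ v : V, ∃ J l, v ∈ Cs (KS e J) l) ∧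
      (∀ n m, e n m ≠ 0) ∧ (∀ n m, 1 ≤ n → e 0 n + e n m ≠ 0) := by
  have hinj : Function.Injective cf := by
    intro v w h
    ext p
    exact congrFun h p
  refine ⟨VV, inferInstance, tV, ee, rho, inferInstance, topologicalAddGroup_induced cf, ?_, ?_,
    ?_, fun u hu => tendsto_of_null hu, null_ee, ?_, exists_mem, ?_, ?_⟩
  · exact T2Space.of_injective_continuous hinj continuous_induced_dom
  · exact TopologicalSpace.firstCountableTopology_induced _ _ cf
  · intro v
    ext p
    rw [Finsupp.add_apply]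
    have h : ∀ a : ZMod 2, a + a = 0 := by decide
    rw [h (v p)]
    rfl
  · intro J l
    refine ⟨J, fun n hn m hm => ?_⟩
    have h1 := Cs_vanish J l _ hm n hn m
    rw [ee_self] at h1
    exact one_ne_zero h1
  · intro n m h
    have h1 := ee_self n m
    rw [h] at h1
    exact zero_ne_one h1
  · intro n m hn h
    have h1 : (ee 0 n + ee n m) (0, n) = 0 := by rw [h]; rfl
    rw [Finsupp.add_apply, ee_self, ee_ne (fun h2 => by
      have := congrArg Prod.fst h2
      simp only at this
      omega), add_zero] at h1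
    exact one_ne_zero h1

end Pool.Agent.Lib.MP_37efd7_lc.Ctbl
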