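import Pool.Agent.Lib.MP_37efd7_lc.SQDefs

/-!
Basic facts on the sets `Cs K l`, `KS s J`, `KF e a J S`.
-/

namespace Pool.Agent.Lib.MP_37efd7_lc.Ctbl

open Filter Topology Set Pointwise

variable {V : Type*} [AddCommGroup V]

theorem mem_Cs_succ {K : Set V} {l : ℕ} {v : V} :
    v ∈ Cs K (l + 1) ↔ ∃ w ∈ Cs K l, ∃ k ∈ K, w + k = v := Set.mem_add

theorem zero_mem_Cs {K : Set V} (h0 : (0 : V) ∈ K) (l : ℕ) : (0 : V) ∈ Cs K l := by
  induction l with
  | zero => exact rfl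
  | succ l ih => exact mem_Cs_succ.2 ⟨0, ih, 0, h0, add_zero 0⟩

theorem Cs_mono_left {K K' : Set V} (h : K ⊆ K') (l : ℕ) : Cs K l ⊆ Cs K' l := by
  induction l with
  | zero => exact subset_rfl
  | succ l ih => exact Set.add_subset_add ih h

theorem Cs_mono_right {K : Set V} (h0 : (0 : V) ∈ K) {l l' : ℕ} (h : l ≤ l') :
    Cs K l ⊆ Cs K l' := by
  induction l' with
  | zero =>
    have : l = 0 := Nat.le_zero.1 h
    rw [this]
  | succ l' ih =>
    rcases Nat.lt_or_ge l (l' + 1) with h1 | h1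
    · intro v hv
      exact mem_Cs_succ.2 ⟨v, ih (Nat.lt_succ_iff.1 h1) hv, 0, h0, add_zero v⟩
    · have : l = l' + 1 := le_antisymm h h1
      rw [this]

theorem Cs_mono {K K' : Set V} (h0 : (0 : V) ∈ K) (h : K ⊆ K') {l l' : ℕ} (hl : l ≤ l') :
    Cs K l ⊆ Cs K' l' :=
  (Cs_mono_right h0 hl).trans (Cs_mono_left h l')

theorem Cs_add {K : Set V} {l l' : ℕ} {v w : V} (hv : v ∈ Cs K l) (hw : w ∈ Cs K l') :
    v + w ∈ Cs K (l + l') := by
  induction l' generalizing w with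
  | zero =>
    have h : w = 0 := hw
    subst h
    simpa using hv
  | succ l' ih =>
    obtain ⟨w', hw', k, hk, rfl⟩ := mem_Cs_succ.1 hw
    exact mem_Cs_succ.2 ⟨v + w', ih hw', k, hk, add_assoc _ _ _⟩

theorem subset_Cs_one {K : Set V} : K ⊆ Cs K 1 := fun v hv =>
  mem_Cs_succ.2 ⟨0, rfl, v, hv, zero_add v⟩

theorem isCompact_Cs [TopologicalSpace V] [IsTopologicalAddGroup V] {K : Set V}
    (hK : IsCompact K) (l : ℕ) : IsCompact (Cs K l) := by
  induction l with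
  | zero => exact isCompact_singleton
  | succ l ih => exact ih.add hK

theorem zero_mem_KS (s : ℕ → ℕ → V) (J : ℕ) : (0 : V) ∈ KS s J := Or.inl rfl

theorem KS_mono (s : ℕ → ℕ → V) {J J' : ℕ} (h : J ≤ J') : KS s J ⊆ KS s J' := by
  rintro v (rfl | ⟨j, hj, i, rfl⟩)
  · exact zero_mem_KS s J'
  · exact Or.inr ⟨j, hj.trans_le h, i, rfl⟩

theorem mem_KS {s : ℕ → ℕ → V} {J j : ℕ} (h : j < J) (i : ℕ) : s j i ∈ KS s J :=
  Or.inr ⟨j, h, i, rfl⟩

theorem CsKS_mono (s : ℕ → ℕ → V) {J J' l l' : ℕ} (h : J ≤ J') (hl : l ≤ l') :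
    Cs (KS s J) l ⊆ Cs (KS s J') l' := Cs_mono (zero_mem_KS s J) (KS_mono s h) hl

theorem KS_succ (s : ℕ → ℕ → V) (J : ℕ) : KS s (J + 1) = KS s J ∪ insert 0 (range (s J)) := by
  ext v
  constructor
  · rintro (rfl | ⟨j, hj, i, rfl⟩)
    · exact Or.inl (zero_mem_KS s J)
    · rcases Nat.lt_or_ge j J with h | h
      · exact Or.inl (mem_KS h i)
      · have : j = J := le_antisymm (Nat.lt_succ_iff.1 hj) h
        subst this
        exact Or.inr (Or.inr ⟨i, rfl⟩)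
  · rintro (h | h)
    · exact KS_mono s (Nat.le_succ J) h
    · rcases h with rfl | ⟨i, rfl⟩
      · exact zero_mem_KS s _
      · exact mem_KS (Nat.lt_succ_self J) i

theorem isCompact_KS [TopologicalSpace V] (s : ℕ → ℕ → V)
    (hs : ∀ j, Tendsto (s j) atTop (𝓝 0)) (J : ℕ) : IsCompact (KS s J) := by
  induction J with
  | zero =>
    have : KS s 0 = {0} := by
      ext v
      constructor
      · rintro (rfl | ⟨j, hj, _⟩)
        · rfl
        · exact absurd hj (Nat.not_lt_zero j)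
      · rintro rfl
        exact zero_mem_KS s 0
    rw [this]
    exact isCompact_singleton
  | succ J ih =>
    rw [KS_succ]
    exact ih.union (hs J).isCompact_insert_range

theorem isCompact_CsKS [TopologicalSpace V] [IsTopologicalAddGroup V] (s : ℕ → ℕ → V)
    (hs : ∀ j, Tendsto (s j) atTop (𝓝 0)) (J l : ℕ) : IsCompact (Cs (KS s J) l) :=
  isCompact_Cs (isCompact_KS s hs J) l

theorem zero_mem_KF {Λ : Type*} (e : ℕ → ℕ → V) (a : Λ → ℕ → V) (J : ℕ) (S : Finset Λ) :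
    (0 : V) ∈ KF e a J S := Or.inl rfl

theorem KF_mono {Λ : Type*} (e : ℕ → ℕ → V) (a : Λ → ℕ → V) {J J' : ℕ} (h : J ≤ J')
    {S S' : Finset Λ} (hS : S ⊆ S') : KF e a J S ⊆ KF e a J' S' := by
  rintro v (rfl | ⟨j, hj, i, rfl⟩ | ⟨ξ, hξ, i, rfl⟩)
  · exact zero_mem_KF e a J' S'
  · exact Or.inr (Or.inl ⟨j, hj.trans_le h, i, rfl⟩)
  · exact Or.inr (Or.inr ⟨ξ, hS hξ, i, rfl⟩)

theorem Avoid.mono {e : ℕ → ℕ → V} {K K' : Set V} (h : Avoid e K') (hK : K ⊆ K') :
    Avoid e K := by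
  intro l
  obtain ⟨ν, hν⟩ := h l
  exact ⟨ν, fun n hn m hm => hν n hn m (Cs_mono_left hK l hm)⟩

/-- A sum of at most `l` elements of `K ∋ 0` lies in `Cs K l`. -/
theorem multiset_sum_mem_Cs {K : Set V} (h0 : (0 : V) ∈ K) (L : Multiset V)
    (hL : ∀ x ∈ L, x ∈ K) {l : ℕ} (hl : Multiset.card L ≤ l) : L.sum ∈ Cs K l := by
  induction L using Multiset.induction_on generalizing l with
  | empty =>
    rw [Multiset.sum_zero]
    exact zero_mem_Cs h0 l
  | cons x L ih =>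
    rw [Multiset.card_cons] at hl
    obtain ⟨l', rfl⟩ : ∃ l', l = l' + 1 := ⟨l - 1, by omega⟩
    rw [Multiset.sum_cons, add_comm x]
    have hl' : Multiset.card L ≤ l' := by omega
    exact mem_Cs_succ.2 ⟨L.sum, ih (fun y hy => hL y (Multiset.mem_cons_of_mem hy)) hl',
      x, hL x (Multiset.mem_cons_self x L), rfl⟩

/-- An element of `Cs K l` is a sum of `l` elements of `K`. -/
theorem exists_multiset_of_mem_Cs {K : Set V} {l : ℕ} {v : V} (hv : v ∈ Cs K l) :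
    ∃ L : Multiset V, Multiset.card L = l ∧ (∀ x ∈ L, x ∈ K) ∧ L.sum = v := by
  induction l generalizing v with
  | zero =>
    have : v = 0 := hv
    exact ⟨0, rfl, by simp, by simp [this]⟩
  | succ l ih =>
    obtain ⟨w, hw, k, hk, rfl⟩ := mem_Cs_succ.1 hv
    obtain ⟨L, hL1, hL2, rfl⟩ := ih hw
    refine ⟨k ::ₘ L, by simp [hL1], ?_, by rw [Multiset.sum_cons, add_comm]⟩
    intro x hx
    rcases Multiset.mem_cons.1 hx with rfl | hx
    · exact hk
    · exact hL2 x hx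

end Pool.Agent.Lib.MP_37efd7_lc.Ctbl
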