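import Mathlib
import Pool.Agent.Lib.MP_37efd7_lc.Seq

/-!
Definitions for the construction, under the continuum hypothesis, of a countable group with a
group topology of sequential order two.
-/

namespace Pool.Agent.Lib.MP_37efd7_lc.Ctbl

open Filter Topology Set Pointwise

variable {V : Type*} [AddCommGroup V]

/-- `Cs K l`: the sums of `l` elements of `K` (of at most `l` elements, when `0 ∈ K`). -/
def Cs (K : Set V) : ℕ → Set V
  | 0 => {0}
  | l + 1 => Cs K l + K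

/-- Zero together with all the terms of the sequences `s j`, `j < J`. -/
def KS (s : ℕ → ℕ → V) (J : ℕ) : Set V := {v | v = 0 ∨ ∃ j < J, ∃ i, v = s j i}

/-- Zero together with all the terms of the sequences `e j`, `j < J`, and of the sequences
`a ξ`, `ξ ∈ S`. -/
def KF {Λ : Type*} (e : ℕ → ℕ → V) (a : Λ → ℕ → V) (J : ℕ) (S : Finset Λ) : Set V :=
  {v | v = 0 ∨ (∃ j < J, ∃ i, v = e j i) ∨ ∃ ξ ∈ S, ∃ i, v = a ξ i}

/-- `s` is a null sequence for the seminorm `ρ`. -/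
def NullSeq (ρ : AddGroupSeminorm V) (u : ℕ → V) : Prop := Tendsto (fun i => ρ (u i)) atTop (𝓝 0)

/-- `0` can be reached from `A` in two steps, inside the sets `Cs (KS s J) l`. -/
def TwoStep [TopologicalSpace V] (s : ℕ → ℕ → V) (A : Set V) : Prop :=
  ∃ J l, (0 : V) ∈ closure {b | b ∈ Cs (KS s J) l ∧ ∃ J' l', b ∈ closure (A ∩ Cs (KS s J') l')}

/-- The same for the sequences `e j` and `a ξ`, `ξ < ζ`. -/
def TwoStepF {Λ : Type*} [LT Λ] [TopologicalSpace V] (e : ℕ → ℕ → V) (a : Λ → ℕ → V) (ζ : Λ)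
    (A : Set V) : Prop :=
  ∃ J, ∃ S : Finset Λ, (∀ ξ ∈ S, ξ < ζ) ∧ ∃ l,
    (0 : V) ∈ closure {b | b ∈ Cs (KF e a J S) l ∧
      ∃ J', ∃ S' : Finset Λ, (∀ ξ ∈ S', ξ < ζ) ∧ ∃ l', b ∈ closure (A ∩ Cs (KF e a J' S') l')}

/-- No member `e n m` with large `n` is a sum of boundedly many elements of a set `K`. -/
def Avoid (e : ℕ → ℕ → V) (K : Set V) : Prop := ∀ l, ∃ ν, ∀ n, ν ≤ n → ∀ m, e n m ∉ Cs K l

/-- The data chosen at a stage: a seminorm and a sequence. -/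
structure SDat (V : Type*) [AddCommGroup V] where
  /-- the seminorm -/
  ρ : AddGroupSeminorm V
  /-- the sequence -/
  a : ℕ → V

/-- The conditions on the data `d` of stage `ζ`, given the data `D η` of the stages `η < ζ`. -/
structure SGood {Λ : Type*} [LT Λ] [TopologicalSpace V] (e : ℕ → ℕ → V) (ρ₀ : AddGroupSeminorm V)
    (A : Λ → Set V) (D : Λ → SDat V) (ζ : Λ) (d : SDat V) : Prop where
  g1 : ∀ n, NullSeq d.ρ (e n)
  g2 : ∀ η, η < ζ → NullSeq d.ρ (D η).a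
  g3 : ∀ η, η < ζ → NullSeq (D η).ρ d.a
  g4 : NullSeq ρ₀ d.a
  g5 : NullSeq d.ρ d.a
  g6 : ∀ J, ∀ S : Finset Λ, (∀ η ∈ S, η < ζ) →
    Avoid e (KF e (fun η => (D η).a) J S ∪ range d.a)
  g7 : (∀ v ∈ A ζ, 1 ≤ d.ρ v) ∨ (∀ k, d.a k ∈ A ζ) ∨ TwoStepF e (fun η => (D η).a) ζ (A ζ)

end Pool.Agent.Lib.MP_37efd7_lc.Ctbl
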