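import Pool.Agent.Lib.MP_37efd7_lc.SQCs

/-!
Diagonal sequences do not converge to zero (module SQDiag).

Proof. Let `Y := range (fun i => e (ν i) (μ i))` and `Y = A ζ` (surjectivity). `g7`:
(1) `1 ≤ (D ζ).ρ` on `Y`: contradicts `hnull ζ` at `e (ν i) (μ i)`.
(2) `(D ζ).a k ∈ Y` for all `k`: then `g6` (with `J = 0`, `S = ∅`, `l = 1`) gives `ν₀` with
`e n m ∉ range (D ζ).a` for `n ≥ ν₀`, so `range (D ζ).a` is contained in the finite set of the
`e (ν i) (μ i)` with `ν i < ν₀` (`ν` is strictly increasing). But `(D ζ).a → 0` (`hρ₀`, `g4`), a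
finite set is closed in a T2 space, so `0` would be an `e n m`, against `hne`.
(3) `TwoStepF`: every `Y ∩ Cs (KF ..) l'` is finite (by `hav`), hence closed, so every `b` as in the
definition lies in `Y ∩ Cs (KF e a J S) l`, which is finite, hence closed; so `0 ∈ Y`, against
`hne`.
-/

namespace Pool.Agent.Lib.MP_37efd7_lc.Ctbl

open Filter Topology Set Pointwise

variable {V : Type*} [AddCommGroup V]

/-- All the finite families avoid the members `e n m` with large `n`. -/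
theorem avoid_KF {Λ : Type*} [LinearOrder Λ] [TopologicalSpace V] (e : ℕ → ℕ → V)
    (ρ₀ : AddGroupSeminorm V) (heJ : ∀ J, Avoid e (KS e J)) (A : Λ → Set V) (D : Λ → SDat V)
    (S : Finset Λ) (hD : ∀ ζ ∈ S, SGood e ρ₀ A D ζ (D ζ)) (J : ℕ) :
    Avoid e (KF e (fun η => (D η).a) J S) := by
  classical
  rcases S.eq_empty_or_nonempty with rfl | hS
  · refine (heJ J).mono ?_
    rintro v (rfl | ⟨j, hj, i, rfl⟩ | ⟨ξ, hξ, i, rfl⟩)
    · exact zero_mem_KS e J
    · exact mem_KS hj i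
    · exact absurd hξ (Finset.notMem_empty ξ)
  · have hζ := S.max'_mem hS
    have h6 := (hD _ hζ).g6 J (S.erase (S.max' hS)) (fun η hη =>
      lt_of_le_of_ne (S.le_max' η (Finset.mem_of_mem_erase hη)) (Finset.ne_of_mem_erase hη))
    refine h6.mono ?_
    rintro v (rfl | ⟨j, hj, i, rfl⟩ | ⟨ξ, hξ, i, rfl⟩)
    · exact Or.inl (zero_mem_KF _ _ _ _)
    · exact Or.inl (Or.inr (Or.inl ⟨j, hj, i, rfl⟩))
    · by_cases h : ξ = S.max' hS
      · right
        rw [← h]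
        exact ⟨i, rfl⟩
      · exact Or.inl (Or.inr (Or.inr ⟨ξ, Finset.mem_erase.2 ⟨h, hξ⟩, i, rfl⟩))

private theorem diag_finite (e : ℕ → ℕ → V) {K : Set V} (hK : Avoid e K) (l : ℕ)
    (ν μ : ℕ → ℕ) (hν : StrictMono ν) :
    ((range fun i => e (ν i) (μ i)) ∩ Cs K l).Finite := by
  obtain ⟨ν₀, h0⟩ := hK l
  refine ((Set.finite_lt_nat ν₀).image fun i => e (ν i) (μ i)).subset ?_
  rintro v ⟨⟨i, rfl⟩, hv⟩
  refine ⟨i, ?_, rfl⟩
  by_contra hi
  exact h0 (ν i) ((not_lt.1 hi).trans (hν.id_le i)) (μ i) hv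

theorem diag_not_null {Λ : Type*} [LinearOrder Λ] [TopologicalSpace V] [T2Space V]
    (e : ℕ → ℕ → V) (ρ₀ : AddGroupSeminorm V)
    (hρ₀ : ∀ u : ℕ → V, NullSeq ρ₀ u → Tendsto u atTop (𝓝 0))
    (heJ : ∀ J, Avoid e (KS e J)) (A : Λ → Set V) (hA : Function.Surjective A)
    (D : Λ → SDat V) (hD : ∀ ζ, SGood e ρ₀ A D ζ (D ζ))
    (ν μ : ℕ → ℕ) (hν : StrictMono ν) (hne : ∀ i, e (ν i) (μ i) ≠ 0)
    (hnull : ∀ ξ, NullSeq (D ξ).ρ (fun i => e (ν i) (μ i))) : False := by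
  obtain ⟨ζ, hζ⟩ := hA (range fun i => e (ν i) (μ i))
  have h0 : (0 : V) ∉ range fun i => e (ν i) (μ i) := by
    rintro ⟨i, hi⟩
    exact hne i hi
  have hKF : ∀ J S, Avoid e (KF e (fun η => (D η).a) J S) := fun J S =>
    avoid_KF e ρ₀ heJ A D S (fun ξ _ => hD ξ) J
  rcases (hD ζ).g7 with h | h | h
  · -- the first case
    rw [hζ] at h
    have h1 : ∀ᶠ i in atTop, (D ζ).ρ (e (ν i) (μ i)) < 1 :=
      (hnull ζ).eventually (gt_mem_nhds one_pos)
    obtain ⟨i, hi⟩ := h1.exists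
    exact absurd (h _ ⟨i, rfl⟩) (not_le.2 hi)
  · -- the second case
    rw [hζ] at h
    have h6 := (hD ζ).g6 0 ∅ (fun η hη => absurd hη (Finset.notMem_empty η))
    have hfin := diag_finite e h6 1 ν μ hν
    have hsub : range (D ζ).a ⊆ (range fun i => e (ν i) (μ i)) ∩
        Cs (KF e (fun η => (D η).a) 0 ∅ ∪ range (D ζ).a) 1 := by
      rintro v ⟨k, rfl⟩
      exact ⟨h k, subset_Cs_one (Or.inr ⟨k, rfl⟩)⟩
    have h1 := hρ₀ _ (hD ζ).g4
    have h2 := mem_closure_of_tendsto h1 (Filter.Eventually.of_forall fun k => hsub ⟨k, rfl⟩)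
    rw [hfin.isClosed.closure_eq] at h2
    exact h0 h2.1
  · -- the third case
    rw [hζ] at h
    obtain ⟨J, S, -, l, h⟩ := h
    have hfin := diag_finite e (hKF J S) l ν μ hν
    have h1 : (0 : V) ∈ closure ((range fun i => e (ν i) (μ i)) ∩
        Cs (KF e (fun η => (D η).a) J S) l) := by
      refine closure_mono ?_ h
      rintro b ⟨hb, J', S', -, l', hb'⟩
      have hfin' := diag_finite e (hKF J' S') l' ν μ hν
      rw [hfin'.isClosed.closure_eq] at hb'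
      exact ⟨hb'.1, hb⟩
    rw [hfin.isClosed.closure_eq] at h1
    exact h0 h1.1

end Pool.Agent.Lib.MP_37efd7_lc.Ctbl
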