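import Pool.Agent.Lib.MP_37efd7_lc.SQCs

/-!
From thresholds to a seminorm (module SQNorm).

Proof. Level `lam j i := Nat.findGreatest (fun l => N j l ≤ i) i`, weight
`w j i := (1/2) ^ (lam j i)`. For each `j`, `w j i → 0` as `i → ∞` (for `i ≥ max l (N j l)` the
level is at least `l`: `Nat.le_findGreatest`).
`ρ v := sInf ({1} ∪ {r | ∃ L : Multiset (ℕ × ℕ), (L.map (fun p => s p.1 p.2)).sum = v ∧
r = (L.map (fun p => w p.1 p.2)).sum})` (a set of nonnegative reals containing `1`).
`ρ 0 = 0` (empty multiset), subadditive (add the multisets, or use `1`), `ρ (-v) = ρ v` because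
`-v = v`. `ρ (s j i) ≤ w j i`. For `v ∈ F`: if `ρ v < 1` there is a multiset `L` of pairs with sum
`v` and weight `< 1`; then no member of `L` has level `0` (its weight would be `1`), so all
members satisfy `N j (lam j i) ≤ i` (`Nat.findGreatest_spec` / `Nat.findGreatest_of_ne_zero`), and
at most `2 ^ l` members have level `l`. Apply `hN` to the multiset of the `(j, lam j i, i)`.
-/

namespace Pool.Agent.Lib.MP_37efd7_lc.Ctbl

open Filter Topology Set Pointwise

variable {V : Type*} [AddCommGroup V]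

/-- the level -/
private noncomputable def lamN (N : ℕ → ℕ → ℕ) (j i : ℕ) : ℕ :=
  Nat.findGreatest (fun l => N j l ≤ i) i

/-- the weight -/
private noncomputable def wtN (N : ℕ → ℕ → ℕ) (j i : ℕ) : ℝ := (1 / 2 : ℝ) ^ (lamN N j i)

private noncomputable def WN (N : ℕ → ℕ → ℕ) (L : Multiset (ℕ × ℕ)) : ℝ :=
  (L.map (fun p => wtN N p.1 p.2)).sum

private def SmN (s : ℕ → ℕ → V) (L : Multiset (ℕ × ℕ)) : V := (L.map (fun p => s p.1 p.2)).sum

private def setN (s : ℕ → ℕ → V) (N : ℕ → ℕ → ℕ) (v : V) : Set ℝ :=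
  insert 1 {r | ∃ L : Multiset (ℕ × ℕ), SmN s L = v ∧ r = WN N L}

private theorem wtN_nonneg (N : ℕ → ℕ → ℕ) (j i : ℕ) : 0 ≤ wtN N j i := by
  unfold wtN; positivity

private theorem WN_nonneg (N : ℕ → ℕ → ℕ) (L : Multiset (ℕ × ℕ)) : 0 ≤ WN N L := by
  unfold WN
  refine Multiset.sum_nonneg fun x hx => ?_
  obtain ⟨p, _, rfl⟩ := Multiset.mem_map.1 hx
  exact wtN_nonneg N p.1 p.2

private theorem WN_add (N : ℕ → ℕ → ℕ) (L L' : Multiset (ℕ × ℕ)) :
    WN N (L + L') = WN N L + WN N L' := by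
  unfold WN
  rw [Multiset.map_add, Multiset.sum_add]

private theorem SmN_add (s : ℕ → ℕ → V) (L L' : Multiset (ℕ × ℕ)) :
    SmN s (L + L') = SmN s L + SmN s L' := by
  unfold SmN
  rw [Multiset.map_add, Multiset.sum_add]

private theorem setN_nonneg {s : ℕ → ℕ → V} {N : ℕ → ℕ → ℕ} {v : V} {r : ℝ}
    (hr : r ∈ setN s N v) : 0 ≤ r := by
  rcases hr with rfl | ⟨L, _, rfl⟩
  · norm_num
  · exact WN_nonneg N L

private theorem setN_bdd (s : ℕ → ℕ → V) (N : ℕ → ℕ → ℕ) (v : V) : BddBelow (setN s N v) :=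
  ⟨0, fun _ hr => setN_nonneg hr⟩

private theorem setN_ne (s : ℕ → ℕ → V) (N : ℕ → ℕ → ℕ) (v : V) : (setN s N v).Nonempty :=
  ⟨1, Set.mem_insert _ _⟩

private theorem setN_add {s : ℕ → ℕ → V} {N : ℕ → ℕ → ℕ} {v w : V} {a b : ℝ}
    (ha : a ∈ setN s N v) (hb : b ∈ setN s N w) : sInf (setN s N (v + w)) ≤ a + b := by
  rcases ha with rfl | ⟨L, hL, rfl⟩
  · have h1 := csInf_le (setN_bdd s N (v + w)) (Set.mem_insert _ _)
    have h2 := setN_nonneg hb
    linarith
  · rcases hb with rfl | ⟨L', hL', rfl⟩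
    · have h1 := csInf_le (setN_bdd s N (v + w)) (Set.mem_insert _ _)
      have h2 := WN_nonneg N L
      linarith
    · refine csInf_le (setN_bdd s N (v + w)) (Or.inr ⟨L + L', ?_, ?_⟩)
      · rw [SmN_add, hL, hL']
      · rw [WN_add]

private theorem tendsto_lamN (N : ℕ → ℕ → ℕ) (j : ℕ) : Tendsto (lamN N j) atTop atTop := by
  refine tendsto_atTop.2 fun l => ?_
  filter_upwards [eventually_ge_atTop (max l (N j l))] with i hi
  exact Nat.le_findGreatest ((le_max_left _ _).trans hi) ((le_max_right _ _).trans hi)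

private theorem setN_F {s : ℕ → ℕ → V} {F : Set V} {N : ℕ → ℕ → ℕ}
    (hN : ∀ L : Multiset (ℕ × ℕ × ℕ), (∀ p ∈ L, N p.1 p.2.1 ≤ p.2.2) →
      (∀ j l, Multiset.card (L.filter (fun p => p.1 = j ∧ p.2.1 = l)) ≤ 2 ^ l) →
      (L.map (fun p => s p.1 p.2.2)).sum ∉ F) {v : V} (hv : v ∈ F) {r : ℝ}
    (hr : r ∈ setN s N v) : 1 ≤ r := by
  rcases hr with rfl | ⟨L, hL, rfl⟩
  · exact le_refl _
  · by_contra hlt
    push Not at hlt
    refine hN (L.map (fun p => (p.1, lamN N p.1 p.2, p.2))) ?_ ?_ ?_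
    · intro p hp
      obtain ⟨q, hq, rfl⟩ := Multiset.mem_map.1 hp
      have h0 : lamN N q.1 q.2 ≠ 0 := by
        intro h0
        have h1 : wtN N q.1 q.2 ≤ WN N L := by
          unfold WN
          exact Multiset.single_le_sum (fun x hx => by
            obtain ⟨p, _, rfl⟩ := Multiset.mem_map.1 hx
            exact wtN_nonneg N p.1 p.2) _ (Multiset.mem_map_of_mem _ hq)
        unfold wtN at h1
        rw [h0, pow_zero] at h1
        linarith
      exact Nat.findGreatest_of_ne_zero (P := fun l => N q.1 l ≤ q.2) (n := q.2) rfl h0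
    · intro j l
      rw [Multiset.filter_map, Multiset.card_map]
      set L1 := L.filter ((fun p : ℕ × ℕ × ℕ => p.1 = j ∧ p.2.1 = l) ∘
        (fun p : ℕ × ℕ => (p.1, lamN N p.1 p.2, p.2))) with hL1
      have h1 : WN N L1 ≤ WN N L := by
        have h2 := Multiset.filter_add_not ((fun p : ℕ × ℕ × ℕ => p.1 = j ∧ p.2.1 = l) ∘
          (fun p : ℕ × ℕ => (p.1, lamN N p.1 p.2, p.2))) L
        rw [← h2, WN_add, ← hL1]
        have := WN_nonneg N (L.filter fun a => ¬((fun p : ℕ × ℕ × ℕ => p.1 = j ∧ p.2.1 = l) ∘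
          (fun p : ℕ × ℕ => (p.1, lamN N p.1 p.2, p.2))) a)
        linarith
      have h3 : WN N L1 = (Multiset.card L1 : ℝ) * (1 / 2 : ℝ) ^ l := by
        unfold WN
        have h4 : L1.map (fun p => wtN N p.1 p.2) = L1.map (fun _ => (1 / 2 : ℝ) ^ l) := by
          refine Multiset.map_congr rfl fun p hp => ?_
          have := (Multiset.mem_filter.1 hp).2
          simp only [Function.comp] at this
          unfold wtN
          rw [this.2]
        rw [h4, Multiset.map_const', Multiset.sum_replicate, nsmul_eq_mul]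
      have h5 : (Multiset.card L1 : ℝ) < (2 : ℝ) ^ l := by
        have h6 : (Multiset.card L1 : ℝ) * (1 / 2 : ℝ) ^ l < 1 := by
          rw [← h3]; linarith
        rw [one_div, inv_pow] at h6
        have h7 : (0 : ℝ) < 2 ^ l := by positivity
        calc (Multiset.card L1 : ℝ) = (Multiset.card L1 : ℝ) * ((2 : ℝ) ^ l)⁻¹ * 2 ^ l := by
              rw [mul_assoc, inv_mul_cancel₀ h7.ne', mul_one]
          _ < 1 * 2 ^ l := mul_lt_mul_of_pos_right h6 h7
          _ = 2 ^ l := one_mul _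
      have h8 : Multiset.card L1 < 2 ^ l := by exact_mod_cast h5
      exact h8.le
    · rw [Multiset.map_map]
      have : (L.map ((fun p : ℕ × ℕ × ℕ => s p.1 p.2.2) ∘
          (fun p : ℕ × ℕ => (p.1, lamN N p.1 p.2, p.2)))).sum = SmN s L := rfl
      rw [this, hL]
      exact hv

theorem exists_seminorm_of_thresholds (h2 : ∀ v : V, v + v = 0) (s : ℕ → ℕ → V) (F : Set V)
    (N : ℕ → ℕ → ℕ)
    (hN : ∀ L : Multiset (ℕ × ℕ × ℕ), (∀ p ∈ L, N p.1 p.2.1 ≤ p.2.2) →
      (∀ j l, Multiset.card (L.filter (fun p => p.1 = j ∧ p.2.1 = l)) ≤ 2 ^ l) →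
      (L.map (fun p => s p.1 p.2.2)).sum ∉ F) :
    ∃ ρ : AddGroupSeminorm V, (∀ j, NullSeq ρ (s j)) ∧ ∀ v ∈ F, 1 ≤ ρ v := by
  have hneg : ∀ v : V, -v = v := fun v => neg_eq_of_add_eq_zero_left (h2 v)
  let ρ : AddGroupSeminorm V :=
    { toFun := fun v => sInf (setN s N v)
      map_zero' := by
        refine le_antisymm ?_ (le_csInf (setN_ne s N 0) fun _ hr => setN_nonneg hr)
        refine csInf_le (setN_bdd s N 0) (Or.inr ⟨0, ?_, ?_⟩)
        · simp [SmN]
        · simp [WN]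
      add_le' := by
        intro v w
        have h1 : ∀ a ∈ setN s N v, sInf (setN s N (v + w)) - a ≤ sInf (setN s N w) := by
          intro a ha
          refine le_csInf (setN_ne s N w) fun b hb => ?_
          have := setN_add ha hb
          linarith
        have h3 : sInf (setN s N (v + w)) - sInf (setN s N w) ≤ sInf (setN s N v) := by
          refine le_csInf (setN_ne s N v) fun a ha => ?_
          have := h1 a ha
          linarith
        show sInf (setN s N (v + w)) ≤ sInf (setN s N v) + sInf (setN s N w)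
        linarith
      neg' := fun v => by rw [hneg v] }
  refine ⟨ρ, fun j => ?_, fun v hv => ?_⟩
  · have hw : Tendsto (fun i => wtN N j i) atTop (𝓝 0) :=
      (tendsto_pow_atTop_nhds_zero_of_lt_one (by norm_num) (by norm_num)).comp (tendsto_lamN N j)
    refine squeeze_zero (fun i => apply_nonneg ρ _) (fun i => ?_) hw
    show sInf (setN s N (s j i)) ≤ wtN N j i
    refine csInf_le (setN_bdd s N _) (Or.inr ⟨{(j, i)}, ?_, ?_⟩)
    · simp [SmN]
    · simp [WN]
  · show 1 ≤ sInf (setN s N v)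
    exact le_csInf (setN_ne s N v) fun r hr => setN_F hN hv hr

end Pool.Agent.Lib.MP_37efd7_lc.Ctbl
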