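import Pool.Agent.Lib.MP_37efd7_lc.SQThr
import Pool.Agent.Lib.MP_37efd7_lc.SQNorm

/-!
The second alternative (module SQDich).

Proof. `exists_seminorm` (below) combines `exists_thresholds` and `exists_seminorm_of_thresholds`.
For `twoStep_of_type`: let `C := Cs (KS s i) i` (compact, closed, contains `0`),
`A' := {a ∈ A | ∀ r ≤ i, ρ r a < 1 / (i + 1)}`, `E k := insert 0 (range (e k))` (compact),
`L k := closure (A' ∩ (E k + C))`, contained in the compact closed set `E k + C`, and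
`E k + C ⊆ Cs (KS s J) l` for some `J l` (as `e k = s j`), so every `b ∈ L k` lies in
`closure (A ∩ Cs (KS s J') l')`. Let `B := {b ∈ C | ∃ k, b ∈ L k}`. If `0 ∈ closure B` we get
`TwoStep s A` (with `J = l = i`). If `0 ∈ L k` for some `k`, then `b = 0` itself shows `TwoStep s A`.
Otherwise let `F := (⋃ k, L k) ∪ closure B`, so `0 ∉ F`, `A' ⊆ F`. `F ∩ Cs (KS s J) l` is closed:
by `hJ` for `J' := max J i`, `l' := l + i` there is `ν` such that for `k ≥ ν` no `e k m` lies in
`Cs (KS s J') l'`; so for `k ≥ ν`, an element `e k m + c` (`c ∈ C`) of `E k + C` cannot lie in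
`Cs (KS s J) l` (as `e k m = (e k m + c) + c`), hence `L k ∩ Cs (KS s J) l ⊆ B`, and
`F ∩ Cs (KS s J) l = ((⋃ k < ν, L k) ∪ closure B) ∩ Cs (KS s J) l`, an intersection of closed
sets. So `exists_seminorm` gives `ρF` with `1 ≤ ρF` on `F ⊇ A'`, and
`ρ' := ρF + ∑ r ∈ range (i+1), (i+1) • ρ r` is null on all `s j` and `≥ 1` on `A`, against `hA`.
-/

namespace Pool.Agent.Lib.MP_37efd7_lc.Ctbl

open Filter Topology Set Pointwise

variable {V : Type*} [AddCommGroup V]

theorem exists_seminorm [TopologicalSpace V] [IsTopologicalAddGroup V] [T2Space V]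
    (h2 : ∀ v : V, v + v = 0)
    (s : ℕ → ℕ → V) (hs : ∀ j, Tendsto (s j) atTop (𝓝 0)) (F : Set V) (h0 : (0 : V) ∉ F)
    (hF : ∀ J l, IsClosed (F ∩ Cs (KS s J) l)) :
    ∃ ρ : AddGroupSeminorm V, (∀ j, NullSeq ρ (s j)) ∧ ∀ v ∈ F, 1 ≤ ρ v := by
  obtain ⟨N, hN⟩ := exists_thresholds s hs F h0 hF
  exact exists_seminorm_of_thresholds h2 s F N hN

/-- A null seminorm dominating finitely many others. -/
theorem exists_dom (s : ℕ → ℕ → V) (ρ : ℕ → AddGroupSeminorm V)
    (hρ : ∀ r j, NullSeq (ρ r) (s j)) (ρF : AddGroupSeminorm V) (hρF : ∀ j, NullSeq ρF (s j))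
    {c : ℝ} (hc : 0 ≤ c) (n : ℕ) :
    ∃ ρ' : AddGroupSeminorm V, (∀ j, NullSeq ρ' (s j)) ∧ (∀ v, ρF v ≤ ρ' v) ∧
      ∀ r < n, ∀ v, c * ρ r v ≤ ρ' v := by
  induction n with
  | zero => exact ⟨ρF, hρF, fun v => le_rfl, fun r hr => absurd hr (Nat.not_lt_zero r)⟩
  | succ n ih =>
    obtain ⟨ρ', h1, h2, h3⟩ := ih
    have hnn : ∀ v, 0 ≤ c * ρ n v := fun v => mul_nonneg hc (apply_nonneg (ρ n) v)
    let ρ'' : AddGroupSeminorm V :=
      { toFun := fun v => ρ' v + c * ρ n v
        map_zero' := by simp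
        add_le' := by
          intro x y
          have h4 := map_add_le_add ρ' x y
          have h5 := mul_le_mul_of_nonneg_left (map_add_le_add (ρ n) x y) hc
          linarith
        neg' := by
          intro x
          simp }
    have hval : ∀ v, ρ'' v = ρ' v + c * ρ n v := fun v => rfl
    refine ⟨ρ'', ?_, ?_, ?_⟩
    · intro j
      unfold NullSeq
      have h4 := (h1 j).add ((hρ n j).const_mul c)
      rw [mul_zero, add_zero] at h4
      exact h4.congr (fun i => (hval _).symm)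
    · intro v
      rw [hval]
      have := h2 v
      have := hnn v
      linarith
    · intro r hr v
      rw [hval]
      rcases Nat.lt_or_ge r n with h | h
      · have := h3 r h v
        have := hnn v
        linarith
      · have hrn : r = n := le_antisymm (Nat.lt_succ_iff.1 hr) h
        rw [hrn]
        have : 0 ≤ ρ' v := apply_nonneg ρ' v
        linarith

theorem twoStep_of_type [TopologicalSpace V] [IsTopologicalAddGroup V] [T2Space V]
    (h2 : ∀ v : V, v + v = 0)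
    (s : ℕ → ℕ → V) (hs : ∀ j, Tendsto (s j) atTop (𝓝 0))
    (e : ℕ → ℕ → V) (he : ∀ n, ∃ j, s j = e n) (hJ : ∀ J, Avoid e (KS s J))
    (ρ : ℕ → AddGroupSeminorm V) (hρ : ∀ r j, NullSeq (ρ r) (s j)) (A : Set V)
    (hA : ∀ ρ' : AddGroupSeminorm V, (∀ j, NullSeq ρ' (s j)) → ∃ a ∈ A, ρ' a < 1)
    (i : ℕ)
    (hi : ∀ a ∈ A, (∀ r ≤ i, ρ r a < 1 / ((i : ℝ) + 1)) →
      ∃ c ∈ Cs (KS s i) i, a = c ∨ ∃ n m, a = e n m + c) :
    TwoStep s A := by
  classical
  set C := Cs (KS s i) i with hCdef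
  have hCc : IsCompact C := isCompact_CsKS s hs i i
  have hC0 : (0 : V) ∈ C := zero_mem_Cs (zero_mem_KS s i) i
  let A' : Set V := {a | a ∈ A ∧ ∀ r ≤ i, ρ r a < 1 / ((i : ℝ) + 1)}
  let E : ℕ → Set V := fun k => insert 0 (range (e k))
  have het : ∀ k, Tendsto (e k) atTop (𝓝 0) := by
    intro k
    obtain ⟨j, hj⟩ := he k
    rw [← hj]
    exact hs j
  have hEC : ∀ k, IsCompact (E k + C) := fun k => ((het k).isCompact_insert_range).add hCc
  let L : ℕ → Set V := fun k => closure (A' ∩ (E k + C))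
  have hLsub : ∀ k, L k ⊆ E k + C := fun k =>
    closure_minimal inter_subset_right (hEC k).isClosed
  have hECs : ∀ k, ∃ J l, E k + C ⊆ Cs (KS s J) l := by
    intro k
    obtain ⟨j, hj⟩ := he k
    refine ⟨max (j + 1) i, 1 + i, ?_⟩
    rintro _ ⟨x, hx, c, hc, rfl⟩
    apply Cs_add
    · apply subset_Cs_one
      rcases hx with rfl | ⟨m, rfl⟩
      · exact zero_mem_KS s _
      · rw [← hj]
        exact mem_KS (lt_of_lt_of_le (Nat.lt_succ_self j) (le_max_left _ _)) m
    · exact CsKS_mono s (le_max_right _ _) le_rfl hc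
  have hLA : ∀ k b, b ∈ L k → ∃ J' l', b ∈ closure (A ∩ Cs (KS s J') l') := by
    intro k b hb
    obtain ⟨J, l, hJl⟩ := hECs k
    refine ⟨J, l, closure_mono ?_ hb⟩
    rintro a ⟨ha1, ha2⟩
    exact ⟨ha1.1, hJl ha2⟩
  let B : Set V := {b | b ∈ C ∧ ∃ k, b ∈ L k}
  by_contra hno
  have h0B : (0 : V) ∉ closure B := by
    intro h
    apply hno
    refine ⟨i, i, closure_mono ?_ h⟩
    rintro b ⟨hb1, k, hk⟩
    exact ⟨hb1, hLA k b hk⟩
  have h0L : ∀ k, (0 : V) ∉ L k := by
    intro k hk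
    apply hno
    exact ⟨i, i, subset_closure ⟨hC0, hLA k 0 hk⟩⟩
  let F : Set V := (⋃ k, L k) ∪ closure B
  have hF0 : (0 : V) ∉ F := by
    rintro (h | h)
    · obtain ⟨k, hk⟩ := mem_iUnion.1 h
      exact h0L k hk
    · exact h0B h
  have hFc : ∀ J l, IsClosed (F ∩ Cs (KS s J) l) := by
    intro J l
    obtain ⟨ν, hν⟩ := hJ (max J i) (l + i)
    have heq : F ∩ Cs (KS s J) l =
        ((⋃ k ∈ Iio ν, L k) ∪ closure B) ∩ Cs (KS s J) l := by
      ext v
      constructor
      · rintro ⟨hv | hv, hvC⟩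
        · obtain ⟨k, hk⟩ := mem_iUnion.1 hv
          rcases Nat.lt_or_ge k ν with hkν | hkν
          · exact ⟨Or.inl (mem_biUnion (mem_Iio.2 hkν) hk), hvC⟩
          · refine ⟨Or.inr (subset_closure ?_), hvC⟩
            obtain ⟨x, hx, c, hc, hxc⟩ := hLsub k hk
            rcases hx with hx | ⟨m, hm⟩
            · refine ⟨?_, k, hk⟩
              rw [← hxc, hx]
              change (0 : V) + c ∈ C
              rw [zero_add]
              exact hc
            · exfalso
              apply hν k hkν m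
              have h3 : e k m = v + c := by
                rw [← hxc, ← hm]
                change e k m = (e k m + c) + c
                rw [add_assoc, h2 c, add_zero]
              rw [h3]
              exact Cs_add (CsKS_mono s (le_max_left _ _) le_rfl hvC)
                (CsKS_mono s (le_max_right _ _) le_rfl hc)
        · exact ⟨Or.inr hv, hvC⟩
      · rintro ⟨hv | hv, hvC⟩
        · obtain ⟨k, _, hk⟩ := mem_iUnion₂.1 hv
          exact ⟨Or.inl (mem_iUnion.2 ⟨k, hk⟩), hvC⟩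
        · exact ⟨Or.inr hv, hvC⟩
    rw [heq]
    refine IsClosed.inter (IsClosed.union ?_ isClosed_closure) (isCompact_CsKS s hs J l).isClosed
    exact (finite_Iio ν).isClosed_biUnion (fun k _ => isClosed_closure)
  obtain ⟨ρF, hρF1, hρF2⟩ := exists_seminorm h2 s hs F hF0 hFc
  have hA'F : A' ⊆ F := by
    intro a ha
    obtain ⟨c, hc, h | ⟨n, m, h⟩⟩ := hi a ha.1 ha.2
    · refine Or.inl (mem_iUnion.2 ⟨0, subset_closure ⟨ha, ?_⟩⟩)
      exact ⟨0, mem_insert _ _, c, hc, by rw [h]; exact zero_add c⟩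
    · refine Or.inl (mem_iUnion.2 ⟨n, subset_closure ⟨ha, ?_⟩⟩)
      exact ⟨e n m, mem_insert_of_mem _ ⟨m, rfl⟩, c, hc, h.symm⟩
  have hipos : (0 : ℝ) < (i : ℝ) + 1 := by positivity
  obtain ⟨ρ', h1, h3, h4⟩ := exists_dom s ρ hρ ρF hρF1 hipos.le (i + 1)
  obtain ⟨a, haA, ha1⟩ := hA ρ' h1
  by_cases ha' : ∀ r ≤ i, ρ r a < 1 / ((i : ℝ) + 1)
  · have h5 := hρF2 a (hA'F ⟨haA, ha'⟩)
    have h6 := h3 a
    linarith
  · push Not at ha'
    obtain ⟨r, hr, hra⟩ := ha'
    have h5 := h4 r (Nat.lt_succ_iff.2 hr) a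
    have h6 : 1 ≤ ((i : ℝ) + 1) * ρ r a := by
      rw [div_le_iff₀ hipos] at hra
      linarith
    linarith

end Pool.Agent.Lib.MP_37efd7_lc.Ctbl
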