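import Pool.Agent.Lib.MP_37efd7_lc.SQCs

/-!
Two steps in the fine topology (module SQTwo).

`mem_seqLim_of_mem_closure`: `b ∈ closure X` for `σ` (first countable) gives `u : ℕ → V` in `X`
with `u → b` for `σ` (`mem_closure_iff_seq_limit`). As `u` stays in the `τ`-compact set `C` and `b` is its
only `σ`-cluster point (`σ` is Hausdorff), hence its only `τ`-cluster point, `u → b` for `τ`
(`IsCompact.tendsto_nhds_of_unique_mapClusterPt`).
`isCompact_KF`: a finite union of compact sets `insert 0 (range u)` with `u → 0`.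
`twoStepF_seqLim`: apply the first lemma twice, with `C = Cs (KF e a J S) l` (compact for `τ`:
`isCompact_Cs`); for the inner closures it gives `b ∈ seqLim A` (`seqLim_mono`).
-/

namespace Pool.Agent.Lib.MP_37efd7_lc.Ctbl

open Filter Topology Set Pointwise

variable {V : Type*} [AddCommGroup V]

theorem mem_seqLim_of_mem_closure {X : Type*} (σ τ : TopologicalSpace X)
    (hσ1 : @FirstCountableTopology X σ) (hσ2 : @T2Space X σ) (h : τ ≤ σ) {C Y : Set X}
    (hC : @IsCompact X τ C) (hY : Y ⊆ C) {b : X} (hb : b ∈ @closure X σ Y) :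
    b ∈ @seqLim X τ Y := by
  have h1 : ∃ u : ℕ → X, (∀ n, u n ∈ Y) ∧ Tendsto u atTop (@nhds X σ b) := by
    letI := σ
    haveI := hσ1
    exact mem_closure_iff_seq_limit.1 hb
  obtain ⟨u, hu, hub⟩ := h1
  refine ⟨u, hu, ?_⟩
  refine @IsCompact.tendsto_nhds_of_unique_mapClusterPt X τ C ℕ atTop b u hC
    (Filter.Eventually.of_forall fun n => hY (hu n)) ?_
  intro x _ hcl
  have h3 : NeBot (@nhds X σ x ⊓ @nhds X σ b) :=
    NeBot.mono hcl (inf_le_inf (nhds_mono h) hub)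
  exact @eq_of_nhds_neBot X σ hσ2 x b h3

theorem isCompact_KF [TopologicalSpace V] {Λ : Type*} (e : ℕ → ℕ → V) (a : Λ → ℕ → V)
    (he : ∀ n, Tendsto (e n) atTop (𝓝 0)) (ha : ∀ ξ, Tendsto (a ξ) atTop (𝓝 0)) (J : ℕ)
    (S : Finset Λ) : IsCompact (KF e a J S) := by
  have h1 : KF e a J S = KS e J ∪ ⋃ ξ ∈ S, insert 0 (range (a ξ)) := by
    ext v
    constructor
    · rintro (rfl | ⟨j, hj, i, rfl⟩ | ⟨ξ, hξ, i, rfl⟩)
      · exact Or.inl (zero_mem_KS e J)
      · exact Or.inl (mem_KS hj i)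
      · exact Or.inr (Set.mem_biUnion hξ (Or.inr ⟨i, rfl⟩))
    · rintro (h | h)
      · rcases h with rfl | ⟨j, hj, i, rfl⟩
        · exact zero_mem_KF e a J S
        · exact Or.inr (Or.inl ⟨j, hj, i, rfl⟩)
      · obtain ⟨ξ, hξ, hv⟩ := Set.mem_iUnion₂.1 h
        rcases hv with rfl | ⟨i, rfl⟩
        · exact zero_mem_KF e a J S
        · exact Or.inr (Or.inr ⟨ξ, hξ, i, rfl⟩)
  rw [h1]
  exact (isCompact_KS e he J).union
    (S.isCompact_biUnion fun ξ _ => (ha ξ).isCompact_insert_range)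

theorem twoStepF_seqLim {Λ : Type*} [LT Λ] (σ τ : TopologicalSpace V)
    (hσ1 : @FirstCountableTopology V σ) (hσ2 : @T2Space V σ) (h : τ ≤ σ)
    (hτ : @IsTopologicalAddGroup V τ _) (e : ℕ → ℕ → V) (a : Λ → ℕ → V)
    (he : ∀ n, Tendsto (e n) atTop (@nhds V τ 0)) (ha : ∀ ξ, Tendsto (a ξ) atTop (@nhds V τ 0))
    (ζ : Λ) (A : Set V) (hA : @TwoStepF V _ Λ _ σ e a ζ A) :
    (0 : V) ∈ @seqLim V τ (@seqLim V τ A) := by
  obtain ⟨J, S, hS, l, h0⟩ := hA
  have hC : ∀ (J : ℕ) (S : Finset Λ) (l : ℕ), @IsCompact V τ (Cs (KF e a J S) l) := by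
    intro J S l
    letI := τ
    haveI := hτ
    exact isCompact_Cs (isCompact_KF e a he ha J S) l
  have h1 := mem_seqLim_of_mem_closure σ τ hσ1 hσ2 h (hC J S l) (fun b hb => hb.1) h0
  refine (@seqLim_mono V τ _ _ ?_) h1
  rintro b ⟨-, J', S', -, l', hb⟩
  have h2 := mem_seqLim_of_mem_closure σ τ hσ1 hσ2 h (hC J' S' l')
    (fun c hc => hc.2) hb
  exact (@seqLim_mono V τ _ _ Set.inter_subset_left) h2

end Pool.Agent.Lib.MP_37efd7_lc.Ctbl
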