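import Pool.Agent.Lib.MP_37efd7_lc.SQTau
import Pool.Agent.Lib.MP_37efd7_lc.SQTwo
import Pool.Agent.Lib.MP_37efd7_lc.SQDiag

/-!
The topology has sequential order two (module SQOrd).

Proof. `τ := tauTop σ (fun ξ => (D ξ).ρ)`. Every `e n` and every `(D η).a` is `τ`-null (`g1`,
`he`; `g2`, `g3`, `g5`, `g4`, `hρ₀`).
(a) `0 ∈ closure_τ B → 0 ∈ seqLim (seqLim B)`: `B = A ζ`; `g7`: (1) is impossible as
`{v | (D ζ).ρ v < 1}` is a `τ`-open neighbourhood of `0`; (2) `(D ζ).a` is a sequence in `B`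
converging to `0`; (3) `twoStepF_seqLim`.
(b) so `closure B ⊆ seqLim (seqLim B)` for all `B` (translate by `x`), `seqIter B 2 = closure B`,
hence `IsSequential` and `seqOrder ≤ 2`.
(c) `B := {v | ∃ n m, 1 ≤ n ∧ v = e 0 n + e n m}`: `0 ∈ seqLim (seqLim B)` (`e 0 n + e n m → e 0 n`
as `m → ∞`, and `e 0 (n + 1) → 0`), but `0 ∉ seqLim B`.
Not discrete: `e 0 n → 0` and `e 0 n ≠ 0`.
-/

namespace Pool.Agent.Lib.MP_37efd7_lc.Ctbl

open Filter Topology Set Pointwise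
open scoped Ordinal

variable {V : Type*} [AddCommGroup V]

theorem sq_translate [TopologicalSpace V] [IsTopologicalAddGroup V] (B : Set V) (x y : V)
    (h : y ∈ seqLim {v | v + x ∈ B}) : y + x ∈ seqLim B := by
  obtain ⟨u, hu, hlim⟩ := h
  exact ⟨fun n => u n + x, hu, hlim.add_const x⟩

theorem sq_translate_two [TopologicalSpace V] [IsTopologicalAddGroup V] (B : Set V) (x : V)
    (h : (0 : V) ∈ seqLim (seqLim {v | v + x ∈ B})) : x ∈ seqLim (seqLim B) := by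
  have h1 : (0 : V) ∈ seqLim {v | v + x ∈ seqLim B} := by
    obtain ⟨u, hu, hlim⟩ := h
    exact ⟨u, fun n => sq_translate B x (u n) (hu n), hlim⟩
  have h2 := sq_translate (seqLim B) x 0 h1
  rwa [zero_add] at h2

theorem sq_closure_translate [TopologicalSpace V] [IsTopologicalAddGroup V] (B : Set V) (x : V)
    (h : x ∈ closure B) : (0 : V) ∈ closure {v | v + x ∈ B} := by
  have h1 : {v : V | v + x ∈ B} = (fun v => v + x) ⁻¹' B := rfl
  have h2 : closure ((Homeomorph.addRight x) ⁻¹' B) = (Homeomorph.addRight x) ⁻¹' closure B :=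
    (Homeomorph.preimage_closure _ _).symm
  have h3 : (0 : V) ∈ (Homeomorph.addRight x) ⁻¹' closure B := by
    simpa using h
  rw [← h2] at h3
  exact h3

/-- a sequence of natural numbers has a strictly increasing or a constant subsequence -/
theorem sq_subseq (n : ℕ → ℕ) : (∃ φ : ℕ → ℕ, StrictMono φ ∧ StrictMono (n ∘ φ)) ∨
    ∃ n₀ : ℕ, ∃ φ : ℕ → ℕ, StrictMono φ ∧ ∀ k, n (φ k) = n₀ := by
  by_cases h : ∀ N, ∃ᶠ k in atTop, N ≤ n k
  · left
    obtain ⟨φ, hφ, hP⟩ := extraction_forall_of_frequently h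
    have ht : Tendsto (n ∘ φ) atTop atTop := tendsto_atTop_mono hP tendsto_id
    obtain ⟨ψ, hψ, hψ2⟩ := strictMono_subseq_of_tendsto_atTop ht
    exact ⟨φ ∘ ψ, hφ.comp hψ, hψ2⟩
  · right
    push Not at h
    obtain ⟨N, hN⟩ := h
    by_contra hcon
    push Not at hcon
    have h1 : ∀ n₀, ∀ᶠ k in atTop, n k ≠ n₀ := by
      intro n₀
      by_contra h2
      rw [← not_frequently, not_not] at h2
      obtain ⟨φ, hφ, hP⟩ := extraction_of_frequently_atTop h2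
      obtain ⟨k, hk⟩ := hcon n₀ φ hφ
      exact hk (hP k)
    have h3 : ∀ᶠ k in atTop, ∀ n₀ ∈ Set.Iio N, n k ≠ n₀ := by
      rw [eventually_all_finite (Set.finite_Iio N)]
      exact fun n₀ _ => h1 n₀
    obtain ⟨k, hk1, hk2⟩ := (hN.and h3).exists
    exact hk2 (n k) hk1 rfl

theorem sq_iter_one {X : Type*} [TopologicalSpace X] (A : Set X) : seqIter A 1 = seqLim A := by
  have := seqIter_add_one A 0
  rwa [zero_add, seqIter_zero] at this

theorem sq_iter_two {X : Type*} [TopologicalSpace X] (A : Set X) :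
    seqIter A 2 = seqLim (seqLim A) := by
  have := seqIter_add_one A 1
  rwa [sq_iter_one, one_add_one_eq_two] at this

theorem sq_two_lt_omega_one : (2 : Ordinal.{0}) < ω_ 1 :=
  (Ordinal.natCast_lt_omega0 2).trans Ordinal.omega0_lt_omega_one

/-- the abstract form: closures are reached in two steps, not in one -/
theorem sq_order [TopologicalSpace V] [IsTopologicalAddGroup V] [T2Space V]
    (hcl : ∀ B : Set V, closure B ⊆ seqLim (seqLim B)) (e : ℕ → ℕ → V)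
    (he : ∀ n, Tendsto (e n) atTop (𝓝 0))
    (hdiag : ∀ ν μ : ℕ → ℕ, StrictMono ν → ¬ Tendsto (fun i => e (ν i) (μ i)) atTop (𝓝 0))
    (hne : ∀ n m, e n m ≠ 0) (h1 : ∀ n m, 1 ≤ n → e 0 n + e n m ≠ 0) :
    ¬ DiscreteTopology V ∧ IsSequential V ∧ seqOrder V = 2 := by
  have hcl2 : ∀ B : Set V, seqIter B 2 = closure B := by
    intro B
    apply Set.Subset.antisymm (seqIter_subset_closure B 2)
    rw [sq_iter_two]
    exact hcl B
  obtain ⟨B, hB⟩ : ∃ B : Set V, B = {v | ∃ n m, 1 ≤ n ∧ v = e 0 n + e n m} := ⟨_, rfl⟩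
  have hB2 : (0 : V) ∈ seqLim (seqLim B) := by
    refine ⟨fun i => e 0 (i + 1), fun i => ?_, (he 0).comp (tendsto_add_atTop_nat 1)⟩
    refine ⟨fun m => e 0 (i + 1) + e (i + 1) m, fun m => ?_, ?_⟩
    · rw [hB]
      exact ⟨i + 1, m, by omega, rfl⟩
    · have := (he (i + 1)).const_add (e 0 (i + 1))
      rwa [add_zero] at this
  have hB1 : (0 : V) ∉ seqLim B := by
    rintro ⟨u, hu, hlim⟩
    rw [hB] at hu
    choose n m hn hum using hu
    rcases sq_subseq n with ⟨φ, hφ, hnφ⟩ | ⟨n₀, φ, hφ, hnφ⟩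
    · apply hdiag (n ∘ φ) (m ∘ φ) hnφ
      have t1 : Tendsto (fun i => e 0 (n (φ i))) atTop (𝓝 0) := (he 0).comp hnφ.tendsto_atTop
      have t2 : Tendsto (fun i => u (φ i)) atTop (𝓝 0) := hlim.comp hφ.tendsto_atTop
      have t3 := t2.sub t1
      rw [sub_zero] at t3
      refine t3.congr fun i => ?_
      rw [hum (φ i)]
      simp only [Function.comp]
      abel
    · rcases sq_subseq (m ∘ φ) with ⟨ψ, hψ, hmψ⟩ | ⟨m₀, ψ, hψ, hmψ⟩
      · have t1 : Tendsto (fun i => e n₀ (m (φ (ψ i)))) atTop (𝓝 0) :=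
          (he n₀).comp hmψ.tendsto_atTop
        have t2 : Tendsto (fun i => u (φ (ψ i))) atTop (𝓝 0) :=
          hlim.comp (hφ.comp hψ).tendsto_atTop
        have t3 := t2.sub t1
        rw [sub_zero] at t3
        have t4 : Tendsto (fun _ : ℕ => e 0 n₀) atTop (𝓝 0) := by
          refine t3.congr fun i => ?_
          rw [hum (φ (ψ i)), hnφ (ψ i)]
          abel
        exact hne 0 n₀ (tendsto_nhds_unique tendsto_const_nhds t4)
      · have t2 : Tendsto (fun i => u (φ (ψ i))) atTop (𝓝 0) :=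
          hlim.comp (hφ.comp hψ).tendsto_atTop
        have t4 : Tendsto (fun _ : ℕ => e 0 n₀ + e n₀ m₀) atTop (𝓝 0) := by
          refine t2.congr fun i => ?_
          have h5 : m (φ (ψ i)) = m₀ := hmψ i
          rw [hum (φ (ψ i)), hnφ (ψ i), h5]
        have hn0 : 1 ≤ n₀ := by
          rw [← hnφ 0]
          exact hn (φ 0)
        exact h1 n₀ m₀ hn0 (tendsto_nhds_unique tendsto_const_nhds t4)
  have hBc : (0 : V) ∈ closure B := by
    rw [← hcl2 B, sq_iter_two]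
    exact hB2
  refine ⟨fun hd => ?_, fun Y => ?_, ?_⟩
  · rw [closure_discrete] at hBc
    exact hB1 (subset_seqLim _ hBc)
  · apply Set.Subset.antisymm (seqIter_subset_closure Y _)
    rw [← hcl2 Y]
    exact seqIter_mono_right Y sq_two_lt_omega_one.le
  · have hne2 : (2 : Ordinal.{0}) ∈ {α : Ordinal.{0} | ∀ A : Set V, seqIter A α = closure A} := hcl2
    have hle : seqOrder V ≤ 2 := csInf_le' hne2
    have hmem : ∀ A : Set V, seqIter A (seqOrder V) = closure A := csInf_mem ⟨2, hne2⟩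
    apply le_antisymm hle
    by_contra hlt
    rw [not_le] at hlt
    have h1 : seqOrder V ≤ 1 := by
      rw [← Order.lt_add_one_iff, one_add_one_eq_two]
      exact hlt
    apply hB1
    rw [← sq_iter_one]
    apply seqIter_mono_right _ h1
    rw [hmem]
    exact hBc

section

variable {Λ : Type*} [LinearOrder Λ] (σ : TopologicalSpace V)
    (e : ℕ → ℕ → V) (ρ₀ : AddGroupSeminorm V)
    (hρ₀ : ∀ u : ℕ → V, NullSeq ρ₀ u → Tendsto u atTop (𝓝 0))
    (he : ∀ n, NullSeq ρ₀ (e n)) (A : Λ → Set V)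
    (D : Λ → SDat V) (hD : ∀ ζ, SGood e ρ₀ A D ζ (D ζ))

include hρ₀ he hD

theorem sq_e_tendsto (n : ℕ) :
    Tendsto (e n) atTop (@nhds V (tauTop σ (fun ξ => (D ξ).ρ)) 0) := by
  rw [tauTop_tendsto]
  refine ⟨hρ₀ _ (he n), fun ξ => ?_⟩
  simp only [sub_zero]
  exact (hD ξ).g1 n

omit he in
theorem sq_a_tendsto (η : Λ) :
    Tendsto (D η).a atTop (@nhds V (tauTop σ (fun ξ => (D ξ).ρ)) 0) := by
  rw [tauTop_tendsto]
  refine ⟨hρ₀ _ (hD η).g4, fun ξ => ?_⟩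
  simp only [sub_zero]
  rcases lt_trichotomy η ξ with h | h | h
  · exact (hD ξ).g2 η h
  · rw [← h]
    exact (hD η).g5
  · exact (hD η).g3 ξ h

end

theorem tau_sequential {Λ : Type*} [LinearOrder Λ] (σ : TopologicalSpace V)
    (hσ : IsTopologicalAddGroup V) (hσ1 : FirstCountableTopology V) (hσ2 : T2Space V)
    (h2 : ∀ v : V, v + v = 0) (e : ℕ → ℕ → V) (ρ₀ : AddGroupSeminorm V)
    (hρ₀ : ∀ u : ℕ → V, NullSeq ρ₀ u → Tendsto u atTop (𝓝 0))
    (he : ∀ n, NullSeq ρ₀ (e n)) (A : Λ → Set V) (hA : Function.Surjective A)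
    (D : Λ → SDat V) (hD : ∀ ζ, SGood e ρ₀ A D ζ (D ζ)) (B : Set V) :
    @closure V (tauTop σ (fun ξ => (D ξ).ρ)) B ⊆
      @seqLim V (tauTop σ (fun ξ => (D ξ).ρ)) (@seqLim V (tauTop σ (fun ξ => (D ξ).ρ)) B) := by
  have hτ : @IsTopologicalAddGroup V (tauTop σ (fun ξ => (D ξ).ρ)) _ :=
    tauTop_isTopologicalAddGroup σ _
  have hle : tauTop σ (fun ξ => (D ξ).ρ) ≤ σ := tauTop_le σ _
  have hte := sq_e_tendsto σ e ρ₀ hρ₀ he A D hD
  have hta := sq_a_tendsto σ e ρ₀ hρ₀ A D hD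
  intro x hx
  refine @sq_translate_two V _ (tauTop σ (fun ξ => (D ξ).ρ)) hτ B x ?_
  have h0 := @sq_closure_translate V _ (tauTop σ (fun ξ => (D ξ).ρ)) hτ B x hx
  obtain ⟨ζ, hζ⟩ := hA {v | v + x ∈ B}
  rw [← hζ] at h0 ⊢
  rcases (hD ζ).g7 with h | h | h
  · exfalso
    have hop := tauTop_isOpen σ (fun ξ => (D ξ).ρ) ζ 1
    have h3 := (@mem_closure_iff V (tauTop σ (fun ξ => (D ξ).ρ)) 0 (A ζ)).1 h0 _ hop (by
      simp)
    obtain ⟨v, hv1, hv2⟩ := h3
    have h4 := h v hv2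
    have h5 : (D ζ).ρ v < 1 := hv1
    linarith
  · have h3 : (0 : V) ∈ @seqLim V (tauTop σ (fun ξ => (D ξ).ρ)) (A ζ) := ⟨(D ζ).a, h, hta ζ⟩
    exact @subset_seqLim V (tauTop σ (fun ξ => (D ξ).ρ)) _ _ h3
  · exact twoStepF_seqLim σ (tauTop σ (fun ξ => (D ξ).ρ)) hσ1 hσ2 hle hτ e
      (fun η => (D η).a) hte hta ζ (A ζ) h

theorem exists_topology {Λ : Type*} [LinearOrder Λ] (σ : TopologicalSpace V)
    (hσ : IsTopologicalAddGroup V) (hσ1 : FirstCountableTopology V) (hσ2 : T2Space V)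
    (h2 : ∀ v : V, v + v = 0) (e : ℕ → ℕ → V) (ρ₀ : AddGroupSeminorm V)
    (hρ₀ : ∀ u : ℕ → V, NullSeq ρ₀ u → Tendsto u atTop (𝓝 0))
    (he : ∀ n, NullSeq ρ₀ (e n)) (heJ : ∀ J, Avoid e (KS e J))
    (hne : ∀ n m, e n m ≠ 0) (h1 : ∀ n m, 1 ≤ n → e 0 n + e n m ≠ 0)
    (A : Λ → Set V) (hA : Function.Surjective A)
    (D : Λ → SDat V) (hD : ∀ ζ, SGood e ρ₀ A D ζ (D ζ)) :
    ∃ τ : TopologicalSpace V, @IsTopologicalAddGroup V τ _ ∧ @T2Space V τ ∧
      ¬ @DiscreteTopology V τ ∧ @IsSequential V τ ∧ @seqOrder V τ = 2 := by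
  have hτ : @IsTopologicalAddGroup V (tauTop σ (fun ξ => (D ξ).ρ)) _ :=
    tauTop_isTopologicalAddGroup σ _
  have hτ2 : @T2Space V (tauTop σ (fun ξ => (D ξ).ρ)) := tauTop_t2 σ _
  have hte := sq_e_tendsto σ e ρ₀ hρ₀ he A D hD
  have hcl := tau_sequential σ hσ hσ1 hσ2 h2 e ρ₀ hρ₀ he A hA D hD
  have hdiag : ∀ ν μ : ℕ → ℕ, StrictMono ν →
      ¬ Tendsto (fun i => e (ν i) (μ i)) atTop (@nhds V (tauTop σ (fun ξ => (D ξ).ρ)) 0) := by
    intro ν μ hν ht
    rw [tauTop_tendsto] at ht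
    refine diag_not_null e ρ₀ hρ₀ heJ A hA D hD ν μ hν (fun i => hne _ _) fun ξ => ?_
    have := ht.2 ξ
    simp only [sub_zero] at this
    exact this
  exact ⟨_, hτ, hτ2, @sq_order V _ (tauTop σ (fun ξ => (D ξ).ρ)) hτ hτ2 hcl e hte hdiag hne h1⟩

end Pool.Agent.Lib.MP_37efd7_lc.Ctbl
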