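import Pool.Agent.Lib.MP_37efd7_lc.SQRec
import Pool.Agent.Lib.MP_37efd7_lc.SQOrd
import Pool.Agent.Lib.MP_37efd7_lc.SQBase

/-!
Under the continuum hypothesis there is a countable group with a group topology of sequential
order two (module SQFin).

Proof. `exists_base`, `Λ := (Cardinal.aleph 1).ord.ToType`, `A : Λ → Set V` surjective
(cardinalities: `V` is countable, so `#(Set V) ≤ 𝔠 = ℵ₁ = #Λ`, and `Set V` is nonempty),
`exists_family`, `exists_topology`, and pass to `Multiplicative V`.
-/

namespace Pool.Agent.Lib.MP_37efd7_lc.Ctbl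

open Filter Topology Set Pointwise

/-- From an additive topology on `V` to a multiplicative one on `Multiplicative V`. -/
private theorem fin_mult {V : Type} [AddCommGroup V] (hc : Countable V) (τ : TopologicalSpace V)
    (t1 : @IsTopologicalAddGroup V τ _) (t2 : @T2Space V τ) (t3 : ¬ @DiscreteTopology V τ)
    (t4 : @IsSequential V τ) (t5 : @seqOrder V τ = 2) :
    ∃ (G : Type) (_ : CommGroup G) (_ : TopologicalSpace G), Countable G ∧ IsTopologicalGroup G ∧
      T2Space G ∧ ¬ DiscreteTopology G ∧ IsSequential G ∧ seqOrder G = 2 := by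
  refine ⟨Multiplicative V, inferInstance, inferInstance, hc, inferInstance, t2, ?_, t4, t5⟩
  intro h
  exact t3 ⟨h.eq_bot⟩

/-- The initial segments of `ω₁` are countable. -/
private theorem fin_countable (ξ : (Cardinal.aleph.{0} 1).ord.ToType) : {η | η < ξ}.Countable := by
  have h1 : Cardinal.mk (Set.Iio ξ) < Cardinal.aleph 1 := Cardinal.mk_Iio_toType_ord_lt ξ
  have h2 : Cardinal.mk (Set.Iio ξ) ≤ Cardinal.aleph0 := by
    have h3 : Cardinal.aleph.{0} 1 = Order.succ Cardinal.aleph0 := by
      rw [← Cardinal.aleph_zero, Cardinal.succ_aleph]; simp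
    exact Order.lt_succ_iff.mp (h1.trans_eq h3)
  exact Cardinal.mk_le_aleph0_iff.mp h2

/-- Under the continuum hypothesis, `ω₁` enumerates the subsets of a countable type. -/
private theorem fin_enum (CH : Cardinal.aleph.{0} 1 = Cardinal.continuum.{0}) (V : Type)
    (hc : Countable V) :
    ∃ A : (Cardinal.aleph.{0} 1).ord.ToType → Set V, Function.Surjective A := by
  have h : Cardinal.mk (Set V) ≤ Cardinal.mk ((Cardinal.aleph.{0} 1).ord.ToType) := by
    rw [Cardinal.mk_ord_toType, CH, Cardinal.mk_set, ← Cardinal.two_power_aleph0]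
    exact Cardinal.power_le_power_left two_ne_zero Cardinal.mk_le_aleph0
  obtain ⟨f⟩ := h
  exact ⟨Function.invFun f, Function.invFun_surjective f.injective⟩

theorem exists_countable_order_two (CH : Cardinal.aleph.{0} 1 = Cardinal.continuum.{0}) :
    ∃ (G : Type) (_ : CommGroup G) (_ : TopologicalSpace G), Countable G ∧ IsTopologicalGroup G ∧
      T2Space G ∧ ¬ DiscreteTopology G ∧ IsSequential G ∧ seqOrder G = 2 := by
  obtain ⟨V, iV, tV, e, ρ₀, hc, htg, hT2, hFC, h2, hρ₀, he, heJ, hgen, hne, h1⟩ := exists_base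
  obtain ⟨A, hA⟩ := fin_enum CH V hc
  obtain ⟨D, hD⟩ := exists_family fin_countable h2 e ρ₀ hρ₀ he heJ hgen A
  obtain ⟨τ, t1, t2, t3, t4, t5⟩ :=
    exists_topology tV htg hFC hT2 h2 e ρ₀ hρ₀ he heJ hne h1 A hA D hD
  exact fin_mult hc τ t1 t2 t3 t4 t5

end Pool.Agent.Lib.MP_37efd7_lc.Ctbl
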