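import Pool.Agent.Lib.MP_37efd7_lc.SQStep

/-!
The recursion (module SQRec). Same pattern as `exists_data` in `Family.lean` (copy it).
-/

namespace Pool.Agent.Lib.MP_37efd7_lc.Ctbl

open Filter Topology Set Pointwise

variable {V : Type*} [AddCommGroup V]

private theorem KF_congr_SQRec {Λ : Type*} (e : ℕ → ℕ → V) {a a' : Λ → ℕ → V} (J : ℕ)
    {S : Finset Λ} (h : ∀ ξ ∈ S, a ξ = a' ξ) : KF e a J S = KF e a' J S := by
  ext v
  simp only [KF, Set.mem_ofPred_eq]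
  refine or_congr Iff.rfl (or_congr Iff.rfl ?_)
  constructor
  · rintro ⟨ξ, hξ, i, hi⟩
    exact ⟨ξ, hξ, i, by rw [hi, h ξ hξ]⟩
  · rintro ⟨ξ, hξ, i, hi⟩
    exact ⟨ξ, hξ, i, by rw [hi, h ξ hξ]⟩

private theorem TwoStepF_congr_SQRec {Λ : Type*} [LT Λ] [TopologicalSpace V] (e : ℕ → ℕ → V)
    {a a' : Λ → ℕ → V} {ζ : Λ} (h : ∀ ξ, ξ < ζ → a ξ = a' ξ) {A : Set V}
    (hT : TwoStepF e a ζ A) : TwoStepF e a' ζ A := by
  obtain ⟨J, S, hS, l, hl⟩ := hT
  refine ⟨J, S, hS, l, ?_⟩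
  refine closure_mono ?_ hl
  rintro b ⟨hb1, J', S', hS', l', hb2⟩
  refine ⟨?_, J', S', hS', l', ?_⟩
  · rw [← KF_congr_SQRec e J (fun ξ hξ => h ξ (hS ξ hξ))]
    exact hb1
  · rw [← KF_congr_SQRec e J' (fun ξ hξ => h ξ (hS' ξ hξ))]
    exact hb2

/-- `SGood` depends only on the data of the earlier stages. -/
theorem SGood.congr {Λ : Type*} [LinearOrder Λ] [TopologicalSpace V] {e : ℕ → ℕ → V}
    {ρ₀ : AddGroupSeminorm V} {A : Λ → Set V} {D D' : Λ → SDat V} {ζ : Λ} {d : SDat V}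
    (h : SGood e ρ₀ A D ζ d) (hDD : ∀ η, η < ζ → D η = D' η) : SGood e ρ₀ A D' ζ d := by
  have ha : ∀ η, η < ζ → (fun η => (D η).a) η = (fun η => (D' η).a) η := fun η hη => by
    simp only [hDD η hη]
  refine ⟨h.g1, ?_, ?_, h.g4, h.g5, ?_, ?_⟩
  · intro η hη
    rw [← hDD η hη]
    exact h.g2 η hη
  · intro η hη
    rw [← hDD η hη]
    exact h.g3 η hη
  · intro J S hS
    rw [← KF_congr_SQRec e J (fun ξ hξ => ha ξ (hS ξ hξ))]
    exact h.g6 J S hS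
  · rcases h.g7 with h7 | h7 | h7
    · exact Or.inl h7
    · exact Or.inr (Or.inl h7)
    · exact Or.inr (Or.inr (TwoStepF_congr_SQRec e ha h7))

theorem exists_family {Λ : Type*} [LinearOrder Λ] [WellFoundedLT Λ]
    (hcount : ∀ ζ : Λ, {η | η < ζ}.Countable) [TopologicalSpace V] [IsTopologicalAddGroup V]
    [T2Space V] (h2 : ∀ v : V, v + v = 0) (e : ℕ → ℕ → V) (ρ₀ : AddGroupSeminorm V)
    (hρ₀ : ∀ u : ℕ → V, NullSeq ρ₀ u → Tendsto u atTop (𝓝 0))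
    (he : ∀ n, NullSeq ρ₀ (e n)) (heJ : ∀ J, Avoid e (KS e J))
    (hgen : ∀ v : V, ∃ J l, v ∈ Cs (KS e J) l) (A : Λ → Set V) :
    ∃ D : Λ → SDat V, ∀ ζ, SGood e ρ₀ A D ζ (D ζ) := by
  classical
  let dflt : SDat V := ⟨0, 0⟩
  let ext : ∀ ζ : Λ, (∀ η, η < ζ → SDat V) → Λ → SDat V :=
    fun ζ prev η => if h : η < ζ then prev η h else dflt
  let step : ∀ ζ : Λ, (∀ η, η < ζ → SDat V) → SDat V :=
    fun ζ prev => if h : ∃ d, SGood e ρ₀ A (ext ζ prev) ζ d then Classical.choose h else dflt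
  let D : Λ → SDat V := WellFounded.fix (wellFounded_lt (α := Λ)) step
  have hD : ∀ ζ, D ζ = step ζ (fun η _ => D η) := fun ζ =>
    WellFounded.fix_eq (wellFounded_lt (α := Λ)) step ζ
  refine ⟨D, fun ζ => ?_⟩
  induction ζ using WellFoundedLT.induction with
  | ind ζ ih =>
    have h1 : ∃ d, SGood e ρ₀ A D ζ d :=
      step_exists h2 e ρ₀ hρ₀ he heJ hgen A D ζ (hcount ζ) ih
    have hagree : ∀ η < ζ, D η = ext ζ (fun η _ => D η) η := by
      intro η hη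
      simp only [ext]
      rw [dif_pos hη]
    have h3 : ∃ d, SGood e ρ₀ A (ext ζ (fun η _ => D η)) ζ d := by
      obtain ⟨d, hd⟩ := h1
      exact ⟨d, hd.congr hagree⟩
    have h4 : D ζ = Classical.choose h3 := by
      rw [hD]
      simp only [step]
      rw [dif_pos h3]
    rw [h4]
    exact (Classical.choose_spec h3).congr (fun η hη => (hagree η hη).symm)

end Pool.Agent.Lib.MP_37efd7_lc.Ctbl
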