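import Pool.Agent.Lib.MP_37efd7_lc.SQCs

/-!
The first alternative: a sparse sequence (module SQSparse).

Proof. Choose `a 0, a 1, ...` recursively: given `a i`, `i < k`, pick `i_k ≥ k` so large that
`Cs (KS s i_k) i_k` contains `Cs (KS s k) k + Cs ({0} ∪ {a i | i < k}) k` (possible: each `a i`
lies in some `Cs (KS s J) l` by `hgen`, so sums of at most `k` of them and of an element of
`Cs (KS s k) k` lie in some `Cs (KS s J') l'`; take `i_k := max J' l'`, `k`), and let `a k` be the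
element of `A` given by `hA i_k`. Then `ρ r (a k) < 1 / (k + 1)` for `k ≥ r`, so `ρ r` is null.
Avoid: let `J`, `l` be given, `k0 := max J l`. Suppose `e n m ∈ Cs (KS s J ∪ range a) l`. Then
`e n m = c + ∑ k ∈ T, a k` with `c ∈ Cs (KS s J) l` and `T` a finite set, `#T ≤ l`
(write the `l` summands, group them, and cancel equal `a k`'s in pairs, using `h2`; by induction
on `l` one can prove directly: every element of `Cs (KS s J ∪ range a) l` is `c + ∑ k ∈ T, a k`
with `c ∈ Cs (KS s J) l`, `T.card ≤ l`: adding `a k` replaces `T` by `insert k T` or `T.erase k`).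
If `T` has an element `≥ k0` let `k` be its maximum: `a k = e n m + (c + ∑ i ∈ T.erase k, a i)`
and the bracket lies in `Cs (KS s k) k + Cs ({0} ∪ {a i | i < k}) k`, against the choice of
`a k`. So `T ⊆ range k0` and `e n m` lies in a fixed `Cs (KS s J') l'`; apply `hJ J'`.
-/

namespace Pool.Agent.Lib.MP_37efd7_lc.Ctbl

open Filter Topology Set Pointwise

variable {V : Type*} [AddCommGroup V]

namespace SparseAux

/-- a sequence whose `k`-th term is a given function of the terms before -/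
noncomputable def seqOf (g : ℕ → (ℕ → V) → V) : ℕ → V
  | k => g k (fun i => if _h : i < k then seqOf g i else 0)
termination_by k => k

theorem seqOf_eq (g : ℕ → (ℕ → V) → V) (k : ℕ) :
    seqOf g k = g k (fun i => if i < k then seqOf g i else 0) := by
  rw [seqOf]
  simp only [dite_eq_ite]

theorem sum_congr_lt (f f' : ℕ → V) {k : ℕ} (h : ∀ i < k, f i = f' i) {T : Finset ℕ}
    (hT : T ⊆ Finset.range k) : ∑ i ∈ T, f i = ∑ i ∈ T, f' i :=
  Finset.sum_congr rfl fun i hi => h i (Finset.mem_range.1 (hT hi))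

/-- all the sums over subsets of `range k` lie in one of the sets -/
theorem exists_index (s : ℕ → ℕ → V) (hgen : ∀ v : V, ∃ J l, v ∈ Cs (KS s J) l) (f : ℕ → V)
    (k : ℕ) : ∃ i, k ≤ i ∧ ∀ c ∈ Cs (KS s k) k, ∀ T ⊆ Finset.range k,
      c + ∑ j ∈ T, f j ∈ Cs (KS s i) i := by
  choose J l h using hgen
  set w : Finset ℕ → ℕ := fun T => J (∑ j ∈ T, f j) + l (∑ j ∈ T, f j) with hw
  refine ⟨k + ∑ T ∈ (Finset.range k).powerset, w T, Nat.le_add_right _ _, ?_⟩
  intro c hc T hT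
  have h1 : w T ≤ ∑ T ∈ (Finset.range k).powerset, w T :=
    Finset.single_le_sum (f := w) (fun _ _ => Nat.zero_le _) (Finset.mem_powerset.2 hT)
  have h2 : c ∈ Cs (KS s (k + J (∑ j ∈ T, f j))) k := CsKS_mono s (Nat.le_add_right _ _) le_rfl hc
  have h3 : ∑ j ∈ T, f j ∈ Cs (KS s (k + J (∑ j ∈ T, f j))) (l (∑ j ∈ T, f j)) :=
    CsKS_mono s (Nat.le_add_left _ _) le_rfl (h _)
  have h4 := Cs_add h2 h3
  have h5 : w T = J (∑ j ∈ T, f j) + l (∑ j ∈ T, f j) := rfl
  exact CsKS_mono s (by omega) (by omega) h4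

theorem decomp (h2 : ∀ v : V, v + v = 0) {K : Set V} (h0 : (0 : V) ∈ K) (a : ℕ → V) (l : ℕ) :
    ∀ v ∈ Cs (K ∪ range a) l, ∃ c ∈ Cs K l, ∃ T : Finset ℕ, v = c + ∑ j ∈ T, a j := by
  induction l with
  | zero =>
    intro v hv
    have h : v = 0 := hv
    exact ⟨0, rfl, ∅, by rw [h]; simp⟩
  | succ l ih =>
    intro v hv
    obtain ⟨w, hw, k, hk, rfl⟩ := mem_Cs_succ.1 hv
    obtain ⟨c, hc, T, rfl⟩ := ih w hw
    rcases hk with hk | ⟨j, rfl⟩
    · refine ⟨c + k, mem_Cs_succ.2 ⟨c, hc, k, hk, rfl⟩, T, ?_⟩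
      abel
    · refine ⟨c, Cs_mono_right h0 (Nat.le_succ l) hc, ?_⟩
      by_cases hj : j ∈ T
      · refine ⟨T.erase j, ?_⟩
        rw [← Finset.add_sum_erase T a hj]
        have h3 : c + (a j + ∑ x ∈ T.erase j, a x) + a j =
            c + ∑ x ∈ T.erase j, a x + (a j + a j) := by abel
        rw [h3, h2, add_zero]
      · refine ⟨insert j T, ?_⟩
        rw [Finset.sum_insert hj]
        abel

end SparseAux

open SparseAux in
theorem exists_sparse (h2 : ∀ v : V, v + v = 0) (s : ℕ → ℕ → V) (e : ℕ → ℕ → V)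
    (hJ : ∀ J, Avoid e (KS s J)) (hgen : ∀ v : V, ∃ J l, v ∈ Cs (KS s J) l)
    (ρ : ℕ → AddGroupSeminorm V) (A : Set V)
    (hA : ∀ i : ℕ, ∃ a ∈ A, (∀ r ≤ i, ρ r a < 1 / ((i : ℝ) + 1)) ∧
      ¬ ∃ c ∈ Cs (KS s i) i, a = c ∨ ∃ n m, a = e n m + c) :
    ∃ a : ℕ → V, (∀ k, a k ∈ A) ∧ (∀ r, NullSeq (ρ r) a) ∧ ∀ J, Avoid e (KS s J ∪ range a) := by
  -- one step
  have hstep : ∀ (k : ℕ) (f : ℕ → V), ∃ x : V, x ∈ A ∧ (∀ r ≤ k, ρ r x < 1 / ((k : ℝ) + 1)) ∧
      ∀ c ∈ Cs (KS s k) k, ∀ T ⊆ Finset.range k, ∀ n m, x ≠ e n m + (c + ∑ j ∈ T, f j) := by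
    intro k f
    obtain ⟨i, hki, hi⟩ := exists_index s hgen f k
    obtain ⟨x, hxA, hx1, hx2⟩ := hA i
    refine ⟨x, hxA, fun r hr => ?_, fun c hc T hT n m hx => hx2 ⟨_, hi c hc T hT, Or.inr ⟨n, m, hx⟩⟩⟩
    have h3 : (1 : ℝ) / ((i : ℝ) + 1) ≤ 1 / ((k : ℝ) + 1) := by
      apply one_div_le_one_div_of_le (by positivity)
      have : (k : ℝ) ≤ i := by exact_mod_cast hki
      linarith
    exact (hx1 r (hr.trans hki)).trans_le h3
  choose g hgA hgρ hgn using hstep
  set a : ℕ → V := seqOf g with ha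
  have hak : ∀ k, a k = g k (fun i => if i < k then a i else 0) := fun k => seqOf_eq g k
  have han : ∀ k, ∀ c ∈ Cs (KS s k) k, ∀ T ⊆ Finset.range k, ∀ n m,
      a k ≠ e n m + (c + ∑ j ∈ T, a j) := by
    intro k c hc T hT n m h
    apply hgn k (fun i => if i < k then a i else 0) c hc T hT n m
    rw [← hak k, h]
    congr 2
    exact sum_congr_lt _ _ (fun i hi => by rw [if_pos hi]) hT
  refine ⟨a, fun k => by rw [hak k]; exact hgA _ _, fun r => ?_, fun J l => ?_⟩
  · refine squeeze_zero' (Eventually.of_forall fun k => apply_nonneg _ _) ?_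
      tendsto_one_div_add_atTop_nhds_zero_nat
    filter_upwards [eventually_ge_atTop r] with k hk
    rw [hak k]
    exact (hgρ k _ r hk).le
  · set k0 := max J l with hk0
    obtain ⟨i0, hi0, hi⟩ := exists_index s hgen a k0
    obtain ⟨ν, hν⟩ := hJ i0 i0
    refine ⟨ν, fun n hn m hmem => ?_⟩
    obtain ⟨c, hc, T, hT⟩ := decomp h2 (zero_mem_KS s J) a l _ hmem
    by_cases hTk : T ⊆ Finset.range k0
    · apply hν n hn m
      rw [hT]
      exact hi c (CsKS_mono s (le_max_left _ _) (le_max_right _ _) hc) T hTk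
    · obtain ⟨j, hjT, hj⟩ := Finset.not_subset.1 hTk
      have hne : T.Nonempty := ⟨j, hjT⟩
      set k := T.max' hne with hk
      have hkk : k0 ≤ k := by
        have h3 : j ≤ k := Finset.le_max' T j hjT
        have h4 : ¬ j < k0 := fun h => hj (Finset.mem_range.2 h)
        omega
      have hkT : k ∈ T := Finset.max'_mem T hne
      have hsub : T.erase k ⊆ Finset.range k := by
        intro x hx
        have hx1 := Finset.mem_erase.1 hx
        have hx2 : x ≤ k := Finset.le_max' T x hx1.2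
        exact Finset.mem_range.2 (lt_of_le_of_ne hx2 hx1.1)
      have hJk : J ≤ k := (le_max_left J l).trans hkk
      have hlk : l ≤ k := (le_max_right J l).trans hkk
      apply han k c (CsKS_mono s hJk hlk hc) (T.erase k) hsub n m
      rw [hT, ← Finset.add_sum_erase T a hkT]
      have h3 : c + (a k + ∑ x ∈ T.erase k, a x) + (c + ∑ x ∈ T.erase k, a x) =
          a k + (c + c) + (∑ x ∈ T.erase k, a x + ∑ x ∈ T.erase k, a x) := by abel
      rw [h3, h2, h2, add_zero, add_zero]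

end Pool.Agent.Lib.MP_37efd7_lc.Ctbl
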