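import Pool.Agent.Lib.MP_37efd7_lc.SQDich
import Pool.Agent.Lib.MP_37efd7_lc.SQSparse

/-!
One stage of the recursion (module SQStep).

Proof. Let `P := {η | η < ζ}` (countable). If `P` is nonempty let `f : ℕ → Λ` have range `P` and
put `s (2n) = e n`, `s (2n+1) = (D (f n)).a`, `ρ 0 = ρ₀`, `ρ (n+1) = (D (f n)).ρ`; if `P` is empty
put `s = e`, `ρ n = ρ₀`. (One can treat both cases at once, by abstracting the properties:
every `s j` is an `e n` or a `(D η).a` with `η < ζ`, all of these occur; same for `ρ`.)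
Every `s j` is null for every `ρ r`: `he`, `g1`, `g4` and for `(D η).a`, `(D η').ρ`: `g3` of `η`
if `η' < η`, `g5` if `η' = η`, `g2` of `η'` if `η < η'`. So `s j → 0` by `hρ₀`.
`Avoid e (KS s J)`: `KS s J ⊆ KF e (fun η => (D η).a) J' S` with `S` a finite subset of `P`; if
`S = ∅` use `heJ` (`KF e a J' ∅ = KS e J'`); else let `μ` be the maximum of `S`;
`KF e a J' S ⊆ KF e a J' (S.erase μ) ∪ range (D μ).a`, use `(hD μ _).g6`. Conversely every
`KF e a J S` with `S ⊆ P` is contained in some `KS s J'`.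
Case 1: there is a seminorm `ρ'`, null on all `s j`, with `1 ≤ ρ'` on `A ζ`: take
`d := ⟨ρ', 0⟩` (zero sequence; `range 0 = {0} ⊆ KF ..`, so g6 follows from the above).
Case 2: otherwise `hA` of `twoStep_of_type` holds. If for some `i` the hypothesis `hi` of
`twoStep_of_type` holds, then `TwoStep s (A ζ)`, so `TwoStepF`; take `d := ⟨0, 0⟩`.
Otherwise `exists_sparse` applies and gives `a`; take `d := ⟨0, a⟩`.
-/

namespace Pool.Agent.Lib.MP_37efd7_lc.Ctbl

open Filter Topology Set Pointwise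

variable {V : Type*} [AddCommGroup V]

namespace StepAux

theorem nullSeq_const_zero (ρ : AddGroupSeminorm V) : NullSeq ρ (fun _ => (0 : V)) := by
  unfold NullSeq
  simp

theorem nullSeq_zero (u : ℕ → V) : NullSeq (0 : AddGroupSeminorm V) u := by
  unfold NullSeq
  have : (fun i => (0 : AddGroupSeminorm V) (u i)) = fun _ => (0 : ℝ) := by
    funext i
    rfl
  rw [this]
  exact tendsto_const_nhds

theorem KF_empty_subset {Λ : Type*} (e : ℕ → ℕ → V) (a : Λ → ℕ → V) (J : ℕ) :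
    KF e a J ∅ ⊆ KS e J := by
  rintro v (rfl | ⟨j, hj, i, rfl⟩ | ⟨ξ, hξ, i, rfl⟩)
  · exact zero_mem_KS e J
  · exact mem_KS hj i
  · exact absurd hξ (Finset.notMem_empty ξ)

theorem KS_subset_KF {Λ : Type*} [DecidableEq Λ] (e : ℕ → ℕ → V) (a : Λ → ℕ → V) (s : ℕ → ℕ → V)
    (Q : Λ → Prop) (hs : ∀ j, (∃ n, s j = e n) ∨ ∃ η, Q η ∧ s j = a η) (J : ℕ) :
    ∃ J', ∃ S : Finset Λ, (∀ η ∈ S, Q η) ∧ KS s J ⊆ KF e a J' S := by
  induction J with
  | zero =>
    refine ⟨0, ∅, fun η hη => absurd hη (Finset.notMem_empty η), ?_⟩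
    rintro v (rfl | ⟨j, hj, _⟩)
    · exact zero_mem_KF e a 0 ∅
    · exact absurd hj (Nat.not_lt_zero j)
  | succ J ih =>
    obtain ⟨J', S, hS, hJ⟩ := ih
    rcases hs J with ⟨n, hn⟩ | ⟨η, hη, hn⟩
    · refine ⟨max J' (n + 1), S, hS, ?_⟩
      rintro v (rfl | ⟨j, hj, i, rfl⟩)
      · exact zero_mem_KF e a _ S
      · rcases Nat.lt_or_ge j J with h | h
        · exact KF_mono e a (le_max_left _ _) (Finset.Subset.refl S) (hJ (mem_KS h i))
        · have h1 : j = J := le_antisymm (Nat.lt_succ_iff.1 hj) h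
          rw [h1, hn]
          exact Or.inr (Or.inl ⟨n, lt_of_lt_of_le (Nat.lt_succ_self n) (le_max_right _ _), i, rfl⟩)
    · refine ⟨J', insert η S, ?_, ?_⟩
      · intro ξ hξ
        rcases Finset.mem_insert.1 hξ with h | h
        · rw [h]; exact hη
        · exact hS ξ h
      · rintro v (rfl | ⟨j, hj, i, rfl⟩)
        · exact zero_mem_KF e a _ _
        · rcases Nat.lt_or_ge j J with h | h
          · exact KF_mono e a le_rfl (Finset.subset_insert η S) (hJ (mem_KS h i))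
          · have h1 : j = J := le_antisymm (Nat.lt_succ_iff.1 hj) h
            rw [h1, hn]
            exact Or.inr (Or.inr ⟨η, Finset.mem_insert_self η S, i, rfl⟩)

theorem KF_subset_KS {Λ : Type*} [DecidableEq Λ] (e : ℕ → ℕ → V) (a : Λ → ℕ → V) (s : ℕ → ℕ → V)
    (Q : Λ → Prop) (he : ∀ n, ∃ j, s j = e n) (ha : ∀ η, Q η → ∃ j, s j = a η) (J : ℕ)
    (S : Finset Λ) (hS : ∀ η ∈ S, Q η) : ∃ J', KF e a J S ⊆ KS s J' := by
  choose je hje using he
  induction S using Finset.induction_on with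
  | empty =>
    refine ⟨(Finset.range J).sup je + 1, ?_⟩
    rintro v (rfl | ⟨j, hj, i, rfl⟩ | ⟨ξ, hξ, i, rfl⟩)
    · exact zero_mem_KS s _
    · rw [← hje j]
      exact mem_KS (Nat.lt_succ_of_le (Finset.le_sup (f := je) (Finset.mem_range.2 hj))) i
    · exact absurd hξ (Finset.notMem_empty ξ)
  | insert η S hη ih =>
    obtain ⟨J', hJ'⟩ := ih fun ξ hξ => hS ξ (Finset.mem_insert_of_mem hξ)
    obtain ⟨j0, hj0⟩ := ha η (hS η (Finset.mem_insert_self η S))
    refine ⟨max J' (j0 + 1), ?_⟩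
    rintro v (rfl | ⟨j, hj, i, rfl⟩ | ⟨ξ, hξ, i, rfl⟩)
    · exact zero_mem_KS s _
    · exact KS_mono s (le_max_left _ _) (hJ' (Or.inr (Or.inl ⟨j, hj, i, rfl⟩)))
    · rcases Finset.mem_insert.1 hξ with h | h
      · rw [h, ← hj0]
        exact mem_KS (lt_of_lt_of_le (Nat.lt_succ_self j0) (le_max_right _ _)) i
      · exact KS_mono s (le_max_left _ _) (hJ' (Or.inr (Or.inr ⟨ξ, h, i, rfl⟩)))

theorem avoid_KF {Λ : Type*} [LinearOrder Λ] [TopologicalSpace V] (e : ℕ → ℕ → V)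
    (ρ₀ : AddGroupSeminorm V) (heJ : ∀ J, Avoid e (KS e J)) (A : Λ → Set V) (D : Λ → SDat V)
    (ζ : Λ) (hD : ∀ η, η < ζ → SGood e ρ₀ A D η (D η)) (J : ℕ) (S : Finset Λ)
    (hS : ∀ η ∈ S, η < ζ) : Avoid e (KF e (fun η => (D η).a) J S) := by
  rcases S.eq_empty_or_nonempty with rfl | hne
  · exact (heJ J).mono (KF_empty_subset e _ J)
  · have hμ : S.max' hne ∈ S := S.max'_mem hne
    obtain ⟨μ, hμ0⟩ : ∃ μ, μ = S.max' hne := ⟨_, rfl⟩
    rw [← hμ0] at hμ
    refine ((hD μ (hS μ hμ)).g6 J (S.erase μ) fun η hη => ?_).mono ?_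
    · rw [Finset.mem_erase] at hη
      refine lt_of_le_of_ne ?_ hη.1
      rw [hμ0]
      exact S.le_max' η hη.2
    · rintro v (rfl | ⟨j, hj, i, rfl⟩ | ⟨ξ, hξ, i, rfl⟩)
      · exact Or.inl (zero_mem_KF _ _ _ _)
      · exact Or.inl (Or.inr (Or.inl ⟨j, hj, i, rfl⟩))
      · by_cases h : ξ = μ
        · right
          rw [h]
          exact ⟨i, rfl⟩
        · exact Or.inl (Or.inr (Or.inr ⟨ξ, Finset.mem_erase.2 ⟨h, hξ⟩, i, rfl⟩))

end StepAux

open StepAux in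
theorem step_exists {Λ : Type*} [LinearOrder Λ] [TopologicalSpace V] [IsTopologicalAddGroup V]
    [T2Space V] (h2 : ∀ v : V, v + v = 0) (e : ℕ → ℕ → V) (ρ₀ : AddGroupSeminorm V)
    (hρ₀ : ∀ u : ℕ → V, NullSeq ρ₀ u → Tendsto u atTop (𝓝 0))
    (he : ∀ n, NullSeq ρ₀ (e n)) (heJ : ∀ J, Avoid e (KS e J))
    (hgen : ∀ v : V, ∃ J l, v ∈ Cs (KS e J) l)
    (A : Λ → Set V) (D : Λ → SDat V) (ζ : Λ) (hζ : {η | η < ζ}.Countable)
    (hD : ∀ η, η < ζ → SGood e ρ₀ A D η (D η)) : ∃ d, SGood e ρ₀ A D ζ d := by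
  classical
  -- the enumerations
  have : Countable {η // η < ζ} := hζ.to_subtype
  obtain ⟨f, hf⟩ := exists_surjective_nat (ℕ ⊕ {η // η < ζ})
  obtain ⟨g, hg⟩ := exists_surjective_nat (Option {η // η < ζ})
  obtain ⟨s, hs⟩ : ∃ s : ℕ → ℕ → V, s = fun j => Sum.elim e (fun η => (D η.1).a) (f j) := ⟨_, rfl⟩
  obtain ⟨ρ, hρ⟩ : ∃ ρ : ℕ → AddGroupSeminorm V,
      ρ = fun r => Option.elim (g r) ρ₀ (fun η => (D η.1).ρ) := ⟨_, rfl⟩
  have hse : ∀ n, ∃ j, s j = e n := by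
    intro n
    obtain ⟨j, hj⟩ := hf (Sum.inl n)
    exact ⟨j, by rw [hs]; simp only [hj, Sum.elim_inl]⟩
  have hsa : ∀ η, η < ζ → ∃ j, s j = (fun η => (D η).a) η := by
    intro η hη
    obtain ⟨j, hj⟩ := hf (Sum.inr ⟨η, hη⟩)
    exact ⟨j, by rw [hs]; simp only [hj, Sum.elim_inr]⟩
  have hsc : ∀ j, (∃ n, s j = e n) ∨ ∃ η, η < ζ ∧ s j = (fun η => (D η).a) η := by
    intro j
    rcases hj : f j with n | η
    · left
      exact ⟨n, by rw [hs]; simp only [hj, Sum.elim_inl]⟩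
    · right
      exact ⟨η.1, η.2, by rw [hs]; simp only [hj, Sum.elim_inr]⟩
  have hρ0 : ∃ r, ρ r = ρ₀ := by
    obtain ⟨r, hr⟩ := hg none
    exact ⟨r, by rw [hρ]; simp only [hr, Option.elim_none]⟩
  have hρa : ∀ η, η < ζ → ∃ r, ρ r = (D η).ρ := by
    intro η hη
    obtain ⟨r, hr⟩ := hg (some ⟨η, hη⟩)
    exact ⟨r, by rw [hρ]; simp only [hr, Option.elim_some]⟩
  have hρc : ∀ r, ρ r = ρ₀ ∨ ∃ η, η < ζ ∧ ρ r = (D η).ρ := by
    intro r
    rcases hr : g r with _ | η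
    · left
      rw [hρ]
      simp only [hr, Option.elim_none]
    · right
      exact ⟨η.1, η.2, by rw [hρ]; simp only [hr, Option.elim_some]⟩
  -- null sequences
  have hnull0 : ∀ j, NullSeq ρ₀ (s j) := by
    intro j
    rcases hsc j with ⟨n, hn⟩ | ⟨η, hη, hn⟩
    · rw [hn]
      exact he n
    · rw [hn]
      exact (hD η hη).g4
  have hnull : ∀ r j, NullSeq (ρ r) (s j) := by
    intro r j
    rcases hρc r with h | ⟨η', hη', h⟩
    · rw [h]
      exact hnull0 j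
    · rw [h]
      rcases hsc j with ⟨n, hn⟩ | ⟨η, hη, hn⟩
      · rw [hn]
        exact (hD η' hη').g1 n
      · rw [hn]
        rcases lt_trichotomy η η' with h1 | h1 | h1
        · exact (hD η' hη').g2 η h1
        · subst h1
          exact (hD η hη).g5
        · exact (hD η hη).g3 η' h1
  have hst : ∀ j, Tendsto (s j) atTop (𝓝 0) := fun j => hρ₀ (s j) (hnull0 j)
  -- the sets
  have hKK := KS_subset_KF e (fun η => (D η).a) s (fun η => η < ζ) hsc
  have hKF := KF_subset_KS e (fun η => (D η).a) s (fun η => η < ζ) hse hsa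
  have hav : ∀ J, Avoid e (KS s J) := by
    intro J
    obtain ⟨J', S, hS, hJ⟩ := hKK J
    exact (avoid_KF e ρ₀ heJ A D ζ hD J' S hS).mono hJ
  by_cases H : ∃ ρ' : AddGroupSeminorm V, (∀ j, NullSeq ρ' (s j)) ∧ ∀ v ∈ A ζ, 1 ≤ ρ' v
  · obtain ⟨ρ', h1, h3⟩ := H
    refine ⟨⟨ρ', fun _ => 0⟩, ?_⟩
    refine ⟨?_, ?_, ?_, ?_, ?_, ?_, Or.inl h3⟩
    · intro n
      obtain ⟨j, hj⟩ := hse n
      have h4 := h1 j
      rw [hj] at h4
      exact h4
    · intro η hη
      obtain ⟨j, hj⟩ := hsa η hη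
      have h4 := h1 j
      rw [hj] at h4
      exact h4
    · intro η _
      exact nullSeq_const_zero _
    · exact nullSeq_const_zero _
    · exact nullSeq_const_zero _
    · intro J S hS
      refine (avoid_KF e ρ₀ heJ A D ζ hD J S hS).mono ?_
      rintro v (hv | ⟨i, rfl⟩)
      · exact hv
      · exact zero_mem_KF _ _ _ _
  · have hA : ∀ ρ' : AddGroupSeminorm V, (∀ j, NullSeq ρ' (s j)) → ∃ a ∈ A ζ, ρ' a < 1 := by
      intro ρ' h1
      by_contra hcon
      push Not at hcon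
      exact H ⟨ρ', h1, hcon⟩
    by_cases Hi : ∃ i : ℕ, ∀ a ∈ A ζ, (∀ r ≤ i, ρ r a < 1 / ((i : ℝ) + 1)) →
        ∃ c ∈ Cs (KS s i) i, a = c ∨ ∃ n m, a = e n m + c
    · obtain ⟨i, hi⟩ := Hi
      have hT := twoStep_of_type h2 s hst e hse hav ρ hnull (A ζ) hA i hi
      refine ⟨⟨0, fun _ => 0⟩, ?_⟩
      refine ⟨fun n => nullSeq_zero _, fun η _ => nullSeq_zero _, fun η _ => nullSeq_const_zero _,
        nullSeq_const_zero _, nullSeq_zero _, ?_, Or.inr (Or.inr ?_)⟩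
      · intro J S hS
        refine (avoid_KF e ρ₀ heJ A D ζ hD J S hS).mono ?_
        rintro v (hv | ⟨i, rfl⟩)
        · exact hv
        · exact zero_mem_KF _ _ _ _
      · obtain ⟨J, l, h0⟩ := hT
        obtain ⟨J', S, hS, hJ⟩ := hKK J
        refine ⟨J', S, hS, l, closure_mono ?_ h0⟩
        rintro b ⟨hb1, J1, l1, hb2⟩
        obtain ⟨J2, S2, hS2, hJ2⟩ := hKK J1
        refine ⟨Cs_mono_left hJ l hb1, J2, S2, hS2, l1, closure_mono ?_ hb2⟩
        exact Set.inter_subset_inter_right _ (Cs_mono_left hJ2 l1)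
    · push Not at Hi
      have hgen' : ∀ v : V, ∃ J l, v ∈ Cs (KS s J) l := by
        intro v
        obtain ⟨J, l, hv⟩ := hgen v
        obtain ⟨J', hJ'⟩ := hKF J ∅ (fun η hη => absurd hη (Finset.notMem_empty η))
        refine ⟨J', l, Cs_mono_left ?_ l hv⟩
        refine Set.Subset.trans ?_ hJ'
        rintro w (rfl | ⟨j, hj, i, rfl⟩)
        · exact zero_mem_KF _ _ _ _
        · exact Or.inr (Or.inl ⟨j, hj, i, rfl⟩)
      obtain ⟨a, ha1, ha2, ha3⟩ := exists_sparse h2 s e hav hgen' ρ (A ζ) (fun i => by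
        obtain ⟨a, ha, h1, h3⟩ := Hi i
        refine ⟨a, ha, h1, ?_⟩
        rintro ⟨c, hc, h4⟩
        rcases h4 with h4 | ⟨n, m, h4⟩
        · exact (h3 c hc).1 h4
        · exact (h3 c hc).2 n m h4)
      refine ⟨⟨0, a⟩, ?_⟩
      refine ⟨fun n => nullSeq_zero _, fun η _ => nullSeq_zero _, ?_, ?_, nullSeq_zero _, ?_,
        Or.inr (Or.inl ha1)⟩
      · intro η hη
        obtain ⟨r, hr⟩ := hρa η hη
        have h4 := ha2 r
        rw [hr] at h4
        exact h4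
      · obtain ⟨r, hr⟩ := hρ0
        have h4 := ha2 r
        rw [hr] at h4
        exact h4
      · intro J S hS
        obtain ⟨J', hJ'⟩ := hKF J S hS
        exact (ha3 J').mono (Set.union_subset_union_left _ hJ')

end Pool.Agent.Lib.MP_37efd7_lc.Ctbl
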