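import Pool.Agent.Lib.MP_37efd7_lc.SQCs

/-!
The topology generated by a group topology `σ` and a family of seminorms (module SQTau).

`tauTop σ ρ = σ ⊓ ⨅ ξ, semTop (ρ ξ)`. It is a group topology (`topologicalAddGroup_inf`,
`topologicalAddGroup_iInf`; each `semTop` is the topology of a seminormed group), finer than `σ`
(so Hausdorff if `σ` is), and `u → x` iff `u → x` for `σ` and `ρ ξ (u n - x) → 0` for all `ξ`
(`nhds_inf`, `nhds_iInf`, `tendsto_inf`, `tendsto_iInf`, `tendsto_iff_norm_sub_tendsto_zero`).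
-/

namespace Pool.Agent.Lib.MP_37efd7_lc.Ctbl

open Filter Topology Set Pointwise

variable {V : Type*} [AddCommGroup V]

/-- The topology of a seminorm. -/
def semTop (ρ : AddGroupSeminorm V) : TopologicalSpace V :=
  ρ.toSeminormedAddCommGroup.toPseudoMetricSpace.toUniformSpace.toTopologicalSpace

theorem semTop_isTopologicalAddGroup (ρ : AddGroupSeminorm V) :
    @IsTopologicalAddGroup V (semTop ρ) _ := by
  let _ := ρ.toSeminormedAddCommGroup
  exact @SeminormedAddCommGroup.toIsTopologicalAddGroup V ρ.toSeminormedAddCommGroup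

theorem semTop_tendsto (ρ : AddGroupSeminorm V) (u : ℕ → V) (x : V) :
    Tendsto u atTop (@nhds V (semTop ρ) x) ↔ Tendsto (fun n => ρ (u n - x)) atTop (𝓝 0) := by
  exact @tendsto_iff_norm_sub_tendsto_zero ℕ V
    ρ.toSeminormedAddCommGroup u atTop x

theorem semTop_isOpen (ρ : AddGroupSeminorm V) (r : ℝ) : @IsOpen V (semTop ρ) {v | ρ v < r} := by
  have h1 : @Continuous V ℝ (semTop ρ) _ (fun v => ρ v) := 
    @continuous_norm V ρ.toSeminormedAddCommGroup.toSeminormedAddGroup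
  exact @IsOpen.preimage V ℝ (semTop ρ) _ _ h1 _ (isOpen_Iio (a := r))

/-- The topology generated by `σ` and the seminorms `ρ ξ`. -/
def tauTop {Λ : Type*} (σ : TopologicalSpace V) (ρ : Λ → AddGroupSeminorm V) :
    TopologicalSpace V := σ ⊓ ⨅ ξ, semTop (ρ ξ)

variable {Λ : Type*}

theorem tauTop_le (σ : TopologicalSpace V) (ρ : Λ → AddGroupSeminorm V) : tauTop σ ρ ≤ σ :=
  inf_le_left

theorem tauTop_isTopologicalAddGroup (σ : TopologicalSpace V) [hσ : IsTopologicalAddGroup V]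
    (ρ : Λ → AddGroupSeminorm V) : @IsTopologicalAddGroup V (tauTop σ ρ) _ := by
  exact topologicalAddGroup_inf hσ
    (topologicalAddGroup_iInf (fun ξ => semTop_isTopologicalAddGroup (ρ ξ)))

theorem tauTop_t2 (σ : TopologicalSpace V) [hσ : T2Space V]
    (ρ : Λ → AddGroupSeminorm V) : @T2Space V (tauTop σ ρ) :=
  t2Space_antitone (tauTop_le σ ρ) hσ

theorem tauTop_tendsto (σ : TopologicalSpace V) (ρ : Λ → AddGroupSeminorm V) (u : ℕ → V)
    (x : V) : Tendsto u atTop (@nhds V (tauTop σ ρ) x) ↔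
      Tendsto u atTop (@nhds V σ x) ∧ ∀ ξ, Tendsto (fun n => ρ ξ (u n - x)) atTop (𝓝 0) := by
  unfold tauTop
  rw [nhds_inf, nhds_iInf, tendsto_inf, tendsto_iInf]
  exact and_congr Iff.rfl (forall_congr' (fun ξ => semTop_tendsto (ρ ξ) u x))

theorem tauTop_isOpen (σ : TopologicalSpace V) (ρ : Λ → AddGroupSeminorm V) (ξ : Λ) (r : ℝ) :
    @IsOpen V (tauTop σ ρ) {v | ρ ξ v < r} := by
  have h : tauTop σ ρ ≤ semTop (ρ ξ) := inf_le_right.trans (iInf_le _ ξ)
  exact h _ (semTop_isOpen (ρ ξ) r)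

end Pool.Agent.Lib.MP_37efd7_lc.Ctbl
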