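import Pool.Agent.Lib.MP_37efd7_lc.SQCs

/-!
Thresholds (module SQThr).

Proof. Put `T j N k := Cs (insert 0 (s j '' Ici N)) k` (compact, contained in `Cs (KS s (j+1)) k`,
decreasing in `N`).
Step lemma: if `Q` is compact, `Q ⊆ Cs (KS s J) l` for some `J l`, and `Q` is disjoint from `F`,
then for all `j k` there is `N` such that `Q + T j N k` is disjoint from `F` (it is again compact
and contained in some `Cs (KS s J') l'`). For `k = 1`: `Q + T j 0 1 ⊆ Cs (KS s J') (l+1)`,
`F ∩ Cs (KS s J') (l+1)` is closed and disjoint from `Q`, so there is a neighbourhood `W` of `0`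
with `Q + W` disjoint from it (`compact_open_separated_add_right`), and `s j i ∈ W` for `i ≥ N`.
For `k + 1` apply the case `k`, then the case `1`, and take the maximum of the two thresholds.
Now enumerate the pairs by `Nat.pair`/`Nat.unpair`: `Q_0 = {0}`,
`Q_{t+1} = Q_t + T (unpair t).1 (N t) (2 ^ (unpair t).2)` with `N t` from the step lemma, all `Q_t`
disjoint from `F`; the threshold is `N (pair j l)`. For a multiset `L` as in the statement, the
sum over the members `p` of `L` with `pair p.1 p.2.1 < t` lies in `Q_t` (induction on `t`; the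
members with `pair = t` are at most `2 ^ l` terms of `s j` with index at least the threshold).
-/

namespace Pool.Agent.Lib.MP_37efd7_lc.Ctbl

open Filter Topology Set Pointwise

variable {V : Type*} [AddCommGroup V]

/-- zero and the terms of `s j` from `N` on -/
private def KN (s : ℕ → ℕ → V) (j N : ℕ) : Set V := insert 0 (s j '' Ici N)

private theorem KN_subset_KS (s : ℕ → ℕ → V) (j N : ℕ) {J : ℕ} (h : j < J) :
    KN s j N ⊆ KS s J := by
  rintro v (rfl | ⟨i, _, rfl⟩)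
  · exact zero_mem_KS s J
  · exact mem_KS h i

private theorem KN_anti (s : ℕ → ℕ → V) (j : ℕ) {N N' : ℕ} (h : N ≤ N') :
    KN s j N' ⊆ KN s j N := by
  rintro v (rfl | ⟨i, hi, rfl⟩)
  · exact Or.inl rfl
  · exact Or.inr ⟨i, h.trans hi, rfl⟩

private theorem isCompact_KN [TopologicalSpace V] (s : ℕ → ℕ → V)
    (hs : ∀ j, Tendsto (s j) atTop (𝓝 0)) (j N : ℕ) : IsCompact (KN s j N) := by
  have h1 : Tendsto (fun i => s j (i + N)) atTop (𝓝 0) := (tendsto_add_atTop_iff_nat N).2 (hs j)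
  have h2 : KN s j N = insert 0 (range (fun i => s j (i + N))) := by
    ext v
    constructor
    · rintro (rfl | ⟨i, hi, rfl⟩)
      · exact Or.inl rfl
      · refine Or.inr ⟨i - N, ?_⟩
        have h3 : i - N + N = i := Nat.sub_add_cancel hi
        simp only
        rw [h3]
    · rintro (rfl | ⟨i, rfl⟩)
      · exact Or.inl rfl
      · exact Or.inr ⟨i + N, Nat.le_add_left N i, rfl⟩
  rw [h2]
  exact h1.isCompact_insert_range

/-- the conditions on the sets `Q t` -/
private structure St [TopologicalSpace V] (s : ℕ → ℕ → V) (F Q : Set V) : Prop where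
  c : IsCompact Q
  k : ∃ J l, Q ⊆ Cs (KS s J) l
  d : ∀ q ∈ Q, q ∉ F

private theorem step_one [TopologicalSpace V] [IsTopologicalAddGroup V] (s : ℕ → ℕ → V)
    (hs : ∀ j, Tendsto (s j) atTop (𝓝 0)) (F : Set V)
    (hF : ∀ J l, IsClosed (F ∩ Cs (KS s J) l)) {Q : Set V} (hQ : St s F Q) (j : ℕ) :
    ∃ N, ∀ q ∈ Q, ∀ i, N ≤ i → q + s j i ∉ F := by
  obtain ⟨J, l, hJ⟩ := hQ.k
  have hcl := hF (max J (j + 1)) (l + 1)
  have hsub : Q ⊆ (F ∩ Cs (KS s (max J (j + 1))) (l + 1))ᶜ := fun q hq h => hQ.d q hq h.1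
  obtain ⟨W, hW, hW2⟩ := compact_open_separated_add_right hQ.c hcl.isOpen_compl hsub
  obtain ⟨N, hN⟩ := eventually_atTop.1 ((hs j).eventually hW)
  refine ⟨N, fun q hq i hi hmem => ?_⟩
  have h1 : q + s j i ∈ Q + W := Set.add_mem_add hq (hN i hi)
  refine hW2 h1 ⟨hmem, mem_Cs_succ.2 ⟨q, ?_, s j i, ?_, rfl⟩⟩
  · exact CsKS_mono s (le_max_left _ _) le_rfl (hJ hq)
  · exact mem_KS (lt_of_lt_of_le (Nat.lt_succ_self j) (le_max_right _ _)) i

private theorem step_add [TopologicalSpace V] [IsTopologicalAddGroup V] (s : ℕ → ℕ → V)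
    (hs : ∀ j, Tendsto (s j) atTop (𝓝 0)) (F : Set V)
    (hF : ∀ J l, IsClosed (F ∩ Cs (KS s J) l)) {Q : Set V} (hQ : St s F Q) (j k : ℕ) :
    ∃ N, St s F (Q + Cs (KN s j N) k) := by
  induction k with
  | zero =>
    refine ⟨0, ?_⟩
    have h : Q + Cs (KN s j 0) 0 = Q := Set.add_singleton.trans (by simp)
    rw [h]
    exact hQ
  | succ k ih =>
    obtain ⟨N1, h1⟩ := ih
    obtain ⟨N2, h2⟩ := step_one s hs F hF h1 j
    obtain ⟨J, l, hJ⟩ := hQ.k
    refine ⟨max N1 N2, hQ.c.add (isCompact_Cs (isCompact_KN s hs j _) (k + 1)),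
      ⟨max J (j + 1), l + (k + 1), ?_⟩, ?_⟩
    · rintro v ⟨q, hq, t, ht, rfl⟩
      exact Cs_add (CsKS_mono s (le_max_left _ _) le_rfl (hJ hq))
        (Cs_mono_left (KN_subset_KS s j _ (lt_of_lt_of_le (Nat.lt_succ_self j)
          (le_max_right _ _))) _ ht)
    · rintro v ⟨q, hq, t, ht, rfl⟩
      obtain ⟨w, hw, x, hx, rfl⟩ := mem_Cs_succ.1 ht
      have hw' : q + w ∈ Q + Cs (KN s j N1) k :=
        Set.add_mem_add hq (Cs_mono_left (KN_anti s j (le_max_left _ _)) _ hw)
      show q + (w + x) ∉ F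
      rw [← add_assoc]
      rcases hx with rfl | ⟨i, hi, rfl⟩
      · rw [add_zero]
        exact h1.d _ hw'
      · exact h2 _ hw' i ((le_max_right _ _).trans hi)

theorem exists_thresholds [TopologicalSpace V] [IsTopologicalAddGroup V] [T2Space V]
    (s : ℕ → ℕ → V) (hs : ∀ j, Tendsto (s j) atTop (𝓝 0)) (F : Set V) (h0 : (0 : V) ∉ F)
    (hF : ∀ J l, IsClosed (F ∩ Cs (KS s J) l)) :
    ∃ N : ℕ → ℕ → ℕ, ∀ L : Multiset (ℕ × ℕ × ℕ), (∀ p ∈ L, N p.1 p.2.1 ≤ p.2.2) →
      (∀ j l, Multiset.card (L.filter (fun p => p.1 = j ∧ p.2.1 = l)) ≤ 2 ^ l) →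
      (L.map (fun p => s p.1 p.2.2)).sum ∉ F := by
  classical
  have hstep : ∀ (Q : {Q : Set V // St s F Q}) (j k : ℕ),
      ∃ N, St s F (Q.1 + Cs (KN s j N) k) := fun Q j k => step_add s hs F hF Q.2 j k
  choose Nf hNf using hstep
  have hinit : St s F {0} := by
    refine ⟨isCompact_singleton, ⟨0, 0, ?_⟩, ?_⟩
    · intro q hq
      exact hq
    · intro q hq
      rw [Set.mem_singleton_iff.1 hq]
      exact h0
  let Qs : ℕ → {Q : Set V // St s F Q} := fun t => Nat.rec ⟨{0}, hinit⟩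
    (fun t Q => ⟨Q.1 + Cs (KN s (Nat.unpair t).1
      (Nf Q (Nat.unpair t).1 (2 ^ (Nat.unpair t).2))) (2 ^ (Nat.unpair t).2), hNf Q _ _⟩) t
  have hQ0 : (Qs 0).1 = {0} := rfl
  have hQs : ∀ t, (Qs (t + 1)).1 = (Qs t).1 + Cs (KN s (Nat.unpair t).1
      (Nf (Qs t) (Nat.unpair t).1 (2 ^ (Nat.unpair t).2))) (2 ^ (Nat.unpair t).2) := fun t => rfl
  refine ⟨fun j l => Nf (Qs (Nat.pair j l)) j (2 ^ l), ?_⟩
  intro L hL hc
  have key : ∀ t, ((L.filter (fun p => Nat.pair p.1 p.2.1 < t)).map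
      (fun p => s p.1 p.2.2)).sum ∈ (Qs t).1 := by
    intro t
    induction t with
    | zero =>
      have h1 : L.filter (fun p : ℕ × ℕ × ℕ => Nat.pair p.1 p.2.1 < 0) = 0 :=
        Multiset.filter_eq_nil.2 fun p _ => Nat.not_lt_zero _
      rw [h1, hQ0]
      simp
    | succ t ih =>
      have h1 : L.filter (fun p : ℕ × ℕ × ℕ => Nat.pair p.1 p.2.1 < t + 1) =
          L.filter (fun p => Nat.pair p.1 p.2.1 < t) +
            L.filter (fun p => p.1 = (Nat.unpair t).1 ∧ p.2.1 = (Nat.unpair t).2) := by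
        have h2 : ∀ p : ℕ × ℕ × ℕ, (p.1 = (Nat.unpair t).1 ∧ p.2.1 = (Nat.unpair t).2) ↔
            Nat.pair p.1 p.2.1 = t := by
          intro p
          constructor
          · rintro ⟨h3, h4⟩
            rw [h3, h4, Nat.pair_unpair]
          · intro h3
            rw [← h3, Nat.unpair_pair]
            exact ⟨rfl, rfl⟩
        rw [Multiset.filter_add_filter]
        have h5 : L.filter (fun p : ℕ × ℕ × ℕ => Nat.pair p.1 p.2.1 < t ∧
            (p.1 = (Nat.unpair t).1 ∧ p.2.1 = (Nat.unpair t).2)) = 0 := by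
          refine Multiset.filter_eq_nil.2 fun p _ h => ?_
          have := (h2 p).1 h.2
          omega
        rw [h5, add_zero]
        refine Multiset.filter_congr fun p _ => ?_
        rw [h2 p]
        omega
      rw [h1, Multiset.map_add, Multiset.sum_add, hQs]
      refine Set.add_mem_add ih ?_
      refine multiset_sum_mem_Cs (K := KN s (Nat.unpair t).1
        (Nf (Qs t) (Nat.unpair t).1 (2 ^ (Nat.unpair t).2))) (Set.mem_insert _ _) _ ?_ ?_
      · intro x hx
        obtain ⟨p, hp, rfl⟩ := Multiset.mem_map.1 hx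
        obtain ⟨hp1, hp2, hp3⟩ := Multiset.mem_filter.1 hp
        refine Or.inr ⟨p.2.2, ?_, ?_⟩
        · have h3 : Nf (Qs (Nat.pair p.1 p.2.1)) p.1 (2 ^ p.2.1) ≤ p.2.2 := hL p hp1
          rw [hp2, hp3, Nat.pair_unpair] at h3
          exact h3
        · rw [hp2]
      · rw [Multiset.card_map]
        exact hc _ _
  have hbig := key ((L.map (fun p => Nat.pair p.1 p.2.1)).sum + 1)
  have h1 : L.filter (fun p : ℕ × ℕ × ℕ => Nat.pair p.1 p.2.1 <
      (L.map (fun p => Nat.pair p.1 p.2.1)).sum + 1) = L := by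
    refine Multiset.filter_eq_self.2 fun p hp => ?_
    have h2 : Nat.pair p.1 p.2.1 ≤ (L.map (fun p => Nat.pair p.1 p.2.1)).sum :=
      Multiset.le_sum_of_mem
        (Multiset.mem_map_of_mem (fun p : ℕ × ℕ × ℕ => Nat.pair p.1 p.2.1) hp)
    omega
  rw [h1] at hbig
  exact (Qs ((L.map (fun p => Nat.pair p.1 p.2.1)).sum + 1)).2.d _ hbig

end Pool.Agent.Lib.MP_37efd7_lc.Ctbl
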