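import Pool.Agent.Lib.MP_37efd7_lc.Claim
import Pool.Agent.Lib.MP_37efd7_lc.Generic

/-!
The recursion step.
-/

namespace Pool.Agent.Lib.MP_37efd7_lc

open Filter

theorem exists_exhaust {Λ : Type*} {s : Set Λ} (hs : s.Countable) :
    ∃ Φ : ℕ → Finset Λ, (∀ i, ∀ η ∈ Φ i, η ∈ s) ∧ ∀ η ∈ s, ∀ᶠ i in atTop, η ∈ Φ i := by
  classical
  rcases s.eq_empty_or_nonempty with h | h
  · subst h
    exact ⟨fun _ => ∅, by simp, by simp⟩
  · obtain ⟨f, rfl⟩ := hs.exists_eq_range h
    refine ⟨fun i => (Finset.range (i + 1)).image f, ?_, ?_⟩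
    · intro i η hη
      obtain ⟨j, _, rfl⟩ := Finset.mem_image.mp hη
      exact ⟨j, rfl⟩
    · rintro _ ⟨j, rfl⟩
      filter_upwards [eventually_ge_atTop j] with i hi
      exact Finset.mem_image.mpr ⟨j, Finset.mem_range.mpr (by omega), rfl⟩

variable {Λ : Type*} [LinearOrder Λ]

/-- If `B` is infinite and almost disjoint from all sets coded before `ξ`, then some set
compatible with all promises made before `ξ` has infinite intersection with `B`. -/
theorem exists_sep {F : Λ → ℕ → Finset ℕ} {D : Λ → Dat} {B : Set ℕ} (hBinf : B.Infinite) {ξ : Λ}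
    (hcount : {η | η < ξ}.Countable) (hG : ∀ η < ξ, Good F D η (D η))
    (hB : ∀ η < ξ, {k | k ∈ B ∧ (D η).a k ≠ 0}.Finite) :
    ∃ b : ℕ → ZMod 2, (∀ η < ξ, ∀ᶠ n in atTop, par ((D η).t n) b = 0) ∧
      {k | k ∈ B ∧ b k ≠ 0}.Infinite := by
  classical
  obtain ⟨Φ, hΦ1, hΦ2⟩ := exists_exhaust hcount
  have hGΦ : ∀ i, ∀ η ∈ Φ i, Good F D η (D η) := fun i η hη => hG η (hΦ1 i η hη)
  obtain ⟨s, hs⟩ := exists_seq_hist
    (fun (i : ℕ) (f : Fin i → (ℕ → ZMod 2) × ℕ × ℕ × ℕ) (a : (ℕ → ZMod 2) × ℕ × ℕ × ℕ) =>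
      (∀ j, (f j).2.2.1 ≤ a.2.1) ∧ i ≤ a.2.1 ∧ a.2.1 ≤ a.2.2.2 ∧ a.2.2.2 < a.2.2.1 ∧
      a.2.2.2 ∈ B ∧ a.1 a.2.2.2 = 1 ∧ (∀ l, ¬ (a.2.1 ≤ l ∧ l < a.2.2.1) → a.1 l = 0) ∧
      (∀ η ∈ Φ i, ∀ n, par ((D η).t n) a.1 = 0))
    (by
      intro i f
      obtain ⟨c, hc1, hc2⟩ := common_cut (Φ i) (hGΦ i)
        (max i (Finset.univ.sup (fun j => (f j).2.2.1)))
      have hfin := claim B (Φ i) (hGΦ i) (fun η hη => hB η (hΦ1 i η hη))
      obtain ⟨k, hkB, hk⟩ := (hBinf.sdiff (hfin.union (Set.finite_lt_nat c))).nonempty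
      simp only [Set.mem_union, not_or] at hk
      obtain ⟨hk1, hk2⟩ := hk
      have hk1' : ∃ x : ℕ → ZMod 2, x k = 1 ∧ ∀ η ∈ Φ i, ∀ n, par ((D η).t n) x = 0 := by
        by_contra h; exact hk1 ⟨hkB, h⟩
      have hk2' : c ≤ k := not_lt.mp hk2
      obtain ⟨x, hx1, hx2⟩ := hk1'
      obtain ⟨c', hc1', hc2'⟩ := common_cut (Φ i) (hGΦ i) (k + 1)
      refine ⟨(restr c c' x, c, c', k), ?_, ?_, hk2', hc1', hkB, ?_, ?_, ?_⟩
      · intro j
        have h1 : (f j).2.2.1 ≤ Finset.univ.sup (fun j => (f j).2.2.1) :=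
          Finset.le_sup (f := fun j => (f j).2.2.1) (Finset.mem_univ j)
        exact h1.trans ((le_max_right _ _).trans hc1)
      · exact (le_max_left _ _).trans hc1
      · have : c ≤ k ∧ k < c' := ⟨hk2', hc1'⟩
        simp only [restr, this, and_self, if_true, hx1]
      · intro l hl
        simp only [restr] at hl ⊢
        rw [if_neg hl]
      · intro η hη n
        rcases cut_dichotomy (hc2 η hη) (hc2' η hη) n with h | h
        · rw [par_restr_eq x h]; exact hx2 η hη n
        · exact par_restr_zero x h)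
  -- unpack
  let x : ℕ → ℕ → ZMod 2 := fun i => (s i).1
  let c : ℕ → ℕ := fun i => (s i).2.1
  let c' : ℕ → ℕ := fun i => (s i).2.2.1
  let κ : ℕ → ℕ := fun i => (s i).2.2.2
  have h1 : ∀ i j, j < i → c' j ≤ c i := fun i j hj => (hs i).1 ⟨j, hj⟩
  have h2 : ∀ i, i ≤ c i := fun i => (hs i).2.1
  have h3 : ∀ i, c i ≤ κ i := fun i => (hs i).2.2.1
  have h4 : ∀ i, κ i < c' i := fun i => (hs i).2.2.2.1
  have h5 : ∀ i, κ i ∈ B := fun i => (hs i).2.2.2.2.1
  have h6 : ∀ i, x i (κ i) = 1 := fun i => (hs i).2.2.2.2.2.1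
  have h7 : ∀ i l, ¬ (c i ≤ l ∧ l < c' i) → x i l = 0 := fun i => (hs i).2.2.2.2.2.2.1
  have h8 : ∀ i, ∀ η ∈ Φ i, ∀ n, par ((D η).t n) (x i) = 0 := fun i => (hs i).2.2.2.2.2.2.2
  let b : ℕ → ZMod 2 := fun k => ∑ i ∈ Finset.range (k + 1), x i k
  have hb : ∀ k M, k < M → b k = ∑ i ∈ Finset.range M, x i k := by
    intro k M hM
    apply Finset.sum_subset
    · intro i hi
      have := Finset.mem_range.mp hi
      exact Finset.mem_range.mpr (by omega)
    · intro i _ hi
      apply h7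
      have h9 := h2 i
      have h10 : ¬ i < k + 1 := fun h => hi (Finset.mem_range.mpr h)
      omega
  refine ⟨b, ?_, ?_⟩
  · intro η hη
    obtain ⟨i0, hi0⟩ := eventually_atTop.mp (hΦ2 η hη)
    have hGη := hG η hη
    filter_upwards [eventually_ge_atTop (c i0)] with n hn
    set t := (D η).t n with ht
    have hsum : par t b = ∑ i ∈ Finset.range (t.sup id + 1), par t (x i) := by
      unfold par
      rw [Finset.sum_comm]
      apply Finset.sum_congr rfl
      intro k hk
      apply hb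
      have := Finset.le_sup (f := id) hk
      simp only [id] at this
      omega
    rw [hsum]
    apply Finset.sum_eq_zero
    intro i _
    rcases lt_or_ge i i0 with hi | hi
    · apply par_eq_zero
      intro k hk
      apply h7
      have h9 := h1 i0 i hi
      have h10 := (hGη.j3' n k hk).1
      have h11 := hGη.j3.id_le n
      simp only [id] at h11
      omega
    · exact h8 i η (hi0 i hi) n
  · have hκ : StrictMono κ := by
      apply strictMono_nat_of_lt_succ
      intro i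
      have := h1 (i + 1) i (Nat.lt_succ_self i)
      have := h3 (i + 1)
      have := h4 i
      omega
    refine (Set.infinite_range_of_injective hκ.injective).mono ?_
    rintro _ ⟨i, rfl⟩
    refine ⟨h5 i, ?_⟩
    have : b (κ i) = x i (κ i) := by
      change ∑ j ∈ Finset.range (κ i + 1), x j (κ i) = _
      apply Finset.sum_eq_single i
      · intro j _ hj
        apply h7
        rcases lt_or_gt_of_ne hj with h | h
        · have := h1 i j h
          have := h3 i
          omega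
        · have := h1 j i h
          have := h4 i
          omega
      · intro hi
        exfalso
        apply hi
        have := h2 i
        have := h3 i
        exact Finset.mem_range.mpr (by omega)
    rw [this, h6]
    exact one_ne_zero

theorem eventually_ge_of_disjoint {f : ℕ → Finset ℕ} (hf : ∀ m n, m ≠ n → Disjoint (f m) (f n))
    (c : ℕ) : ∀ᶠ n in atTop, ∀ k ∈ f n, c ≤ k := by
  have h1 : ∀ k ∈ Finset.range c, ∀ᶠ n in atTop, k ∉ f n := by
    intro k _
    by_cases h : ∃ n, k ∈ f n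
    · obtain ⟨n0, hn0⟩ := h
      filter_upwards [eventually_gt_atTop n0] with n hn hk
      exact Finset.disjoint_left.mp (hf n0 n (by omega)) hn0 hk
    · push Not at h
      exact Eventually.of_forall h
  filter_upwards [(Filter.eventually_all_finset _).mpr h1] with n hn k hk
  by_contra hle
  exact hn k (Finset.mem_range.mpr (not_le.mp hle)) hk

/-- The recursion step in the main case. -/
theorem step_main {F : Λ → ℕ → Finset ℕ} {D : Λ → Dat} {ξ : Λ}
    (hcount : {η | η < ξ}.Countable) (hG : ∀ η < ξ, Good F D η (D η))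
    (hF : ∀ m n, m ≠ n → Disjoint (F ξ m) (F ξ n)) (b : ℕ → ZMod 2)
    (hb : ∀ η < ξ, ∀ᶠ n in atTop, par ((D η).t n) b = 0)
    (hfreq : ∃ᶠ n in atTop, par (F ξ n) b ≠ 0) : ∃ d, Good F D ξ d := by
  classical
  obtain ⟨Φ, hΦ1, hΦ2⟩ := exists_exhaust hcount
  have hGΦ : ∀ i, ∀ η ∈ Φ i, Good F D η (D η) := fun i η hη => hG η (hΦ1 i η hη)
  obtain ⟨s, hs⟩ := exists_seq_hist
    (fun (i : ℕ) (f : Fin i → ℕ × ℕ × ℕ × ℕ) (a : ℕ × ℕ × ℕ × ℕ) =>
      (∀ j, (f j).2.2.2 < a.1 ∧ (f j).2.1 < a.2.1) ∧ (∀ k ∈ F ξ a.2.1, a.1 ≤ k ∧ k < a.2.2.1) ∧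
      par (F ξ a.2.1) b = 1 ∧ a.1 ≤ a.2.2.1 ∧ a.2.2.1 ≤ a.2.2.2 ∧
      (∀ η ∈ Φ i, IsCut (D η).t a.1 ∧ IsCut (D η).t a.2.2.1 ∧ (D η).a a.2.2.2 = 0))
    (by
      intro i f
      obtain ⟨c, hc1, hc2⟩ := common_cut (Φ i) (hGΦ i)
        (Finset.univ.sup (fun j => (f j).2.2.2) + 1)
      have hev := (eventually_ge_of_disjoint hF c).and
        (eventually_gt_atTop (Finset.univ.sup (fun j => (f j).2.1)))
      obtain ⟨n, hn1, hn2, hn3⟩ := (hfreq.and_eventually hev).exists
      obtain ⟨c', hc1', hc2'⟩ := common_cut (Φ i) (hGΦ i) (max c ((F ξ n).sup id + 1))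
      obtain ⟨p, hp1, hp2⟩ := ((sfip (Φ i) (hGΦ i)).sdiff (Set.finite_lt_nat c')).nonempty
      refine ⟨(c, n, c', p), ?_, ?_, zmod2_ne_zero hn1, (le_max_left _ _).trans hc1',
        not_lt.mp hp2, ?_⟩
      · intro j
        have h1 : (f j).2.2.2 ≤ Finset.univ.sup (fun j => (f j).2.2.2) :=
          Finset.le_sup (f := fun j => (f j).2.2.2) (Finset.mem_univ j)
        have h2 : (f j).2.1 ≤ Finset.univ.sup (fun j => (f j).2.1) :=
          Finset.le_sup (f := fun j => (f j).2.1) (Finset.mem_univ j)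
        constructor
        · change (f j).2.2.2 < c
          omega
        · change (f j).2.1 < n
          omega
      · intro k hk
        refine ⟨hn2 k hk, ?_⟩
        have h1 := Finset.le_sup (f := id) hk
        have h2 := (le_max_right c ((F ξ n).sup id + 1)).trans hc1'
        simp only [id] at h1
        change k < c'
        have h3 : (F ξ n).sup id = (F ξ n).sup (fun x => x) := rfl
        omega
      · intro η hη
        exact ⟨hc2 η hη, hc2' η hη, hp1 η hη⟩)
  let c : ℕ → ℕ := fun i => (s i).1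
  let ν : ℕ → ℕ := fun i => (s i).2.1
  let c' : ℕ → ℕ := fun i => (s i).2.2.1
  let p : ℕ → ℕ := fun i => (s i).2.2.2
  have h1 : ∀ i j, j < i → p j < c i ∧ ν j < ν i := fun i j hj => (hs i).1 ⟨j, hj⟩
  have h2 : ∀ i, ∀ k ∈ F ξ (ν i), c i ≤ k ∧ k < c' i := fun i => (hs i).2.1
  have h3 : ∀ i, par (F ξ (ν i)) b = 1 := fun i => (hs i).2.2.1
  have h4 : ∀ i, c i ≤ c' i := fun i => (hs i).2.2.2.1
  have h5 : ∀ i, c' i ≤ p i := fun i => (hs i).2.2.2.2.1
  have h6 : ∀ i, ∀ η ∈ Φ i, IsCut (D η).t (c i) ∧ IsCut (D η).t (c' i) ∧ (D η).a (p i) = 0 :=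
    fun i => (hs i).2.2.2.2.2
  have hcmono : StrictMono c := by
    apply strictMono_nat_of_lt_succ
    intro i
    have := (h1 (i + 1) i (Nat.lt_succ_self i)).1
    have := h4 i
    have := h5 i
    omega
  have hνmono : StrictMono ν := strictMono_nat_of_lt_succ
    (fun i => (h1 (i + 1) i (Nat.lt_succ_self i)).2)
  have hpmono : StrictMono p := by
    apply strictMono_nat_of_lt_succ
    intro i
    have := (h1 (i + 1) i (Nat.lt_succ_self i)).1
    have := h4 (i + 1)
    have := h5 (i + 1)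
    omega
  -- uniqueness of the interval
  have huniq : ∀ i j k, c i ≤ k → k < c (i + 1) → c j ≤ k → k < c' j → j = i := by
    intro i j k ha hb hc hd
    rcases lt_trichotomy j i with h | h | h
    · have := (h1 i j h).1
      have := h5 j
      omega
    · exact h
    · have : c (i + 1) ≤ c j := hcmono.monotone h
      omega
  let a : ℕ → ZMod 2 := fun k => if ∃ i, c i ≤ k ∧ k < c' i then b k else 0
  have ha1 : ∀ k, (∃ i, c i ≤ k ∧ k < c' i) → a k = b k := fun k hk => if_pos hk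
  have ha0 : ∀ k, (¬ ∃ i, c i ≤ k ∧ k < c' i) → a k = 0 := fun k hk => if_neg hk
  refine ⟨⟨a, fun i => F ξ (ν i), c⟩, ?_, ?_, hcmono, ?_, ?_, ?_, ?_⟩
  · intro η hη
    obtain ⟨i0, hi0⟩ := eventually_atTop.mp (hΦ2 η hη)
    have hGη := hG η hη
    filter_upwards [eventually_ge_atTop (c i0), hb η hη] with n hn hbn
    rcases Finset.eq_empty_or_nonempty ((D η).t n) with he | ⟨k0, hk0⟩
    · rw [he, par_empty]
    · have hge : c i0 ≤ k0 := by
        have h7 := (hGη.j3' n k0 hk0).1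
        have h8 := hGη.j3.id_le n
        simp only [id] at h8
        omega
      obtain ⟨i, hi, hci, hci'⟩ := exists_interval hcmono hge
      have hcut := h6 i η (hi0 i hi)
      have hcut' := h6 (i + 1) η (hi0 (i + 1) (by omega))
      rcases cut_dichotomy hcut.1 hcut.2.1 n with h | h
      · change par ((D η).t n) a = 0
        rw [← hbn]
        apply par_congr
        intro k hk
        exact ha1 k ⟨i, h k hk⟩
      · apply par_eq_zero
        intro k hk
        apply ha0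
        rintro ⟨j, hj1, hj2⟩
        rcases cut_dichotomy hcut.1 hcut'.1 n with h' | h'
        · have hk' := h' k hk
          have := huniq i j k hk'.1 hk'.2 hj1 hj2
          rw [this] at hj1 hj2
          exact h k hk ⟨hj1, hj2⟩
        · exact h' k0 hk0 ⟨hci, hci'⟩
  · intro n
    right
    change par (F ξ (ν n)) a = 1
    rw [← h3 n]
    apply par_congr
    intro k hk
    exact ha1 k ⟨n, h2 n k hk⟩
  · intro i k hk
    have h7 := h2 i k hk
    have h8 := (h1 (i + 1) i (Nat.lt_succ_self i)).1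
    have h9 := h5 i
    exact ⟨h7.1, by
      change k < c (i + 1)
      omega⟩
  · intro η hη
    filter_upwards [hΦ2 η hη] with i hi
    exact (h6 i η hi).1
  · intro S hS
    have hev : ∀ᶠ i in atTop, ∀ η ∈ S, η ∈ Φ i :=
      (Filter.eventually_all_finset S).mpr (fun η hη => hΦ2 η (hS η hη))
    obtain ⟨i0, hi0⟩ := eventually_atTop.mp hev
    have hinj : Function.Injective (fun i => p (i0 + i)) := by
      intro x y hxy
      have := hpmono.injective hxy
      omega
    refine (Set.infinite_range_of_injective hinj).mono ?_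
    rintro _ ⟨i, rfl⟩
    refine ⟨?_, fun η hη => (h6 (i0 + i) η (hi0 (i0 + i) (by omega) η hη)).2.2⟩
    change a (p (i0 + i)) = 0
    apply ha0
    rintro ⟨j, hj1, hj2⟩
    have h7 := h5 (i0 + i)
    have h8 := h4 (i0 + i)
    have h9 := (h1 (i0 + i + 1) (i0 + i) (Nat.lt_succ_self _)).1
    have := huniq (i0 + i) j (p (i0 + i)) (by omega) h9 hj1 hj2
    rw [this] at hj2
    omega
  · intro _
    left
    refine ⟨ν, hνmono, fun n => rfl, ?_⟩
    intro n
    change par (F ξ (ν n)) a = 1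
    rw [← h3 n]
    apply par_congr
    intro k hk
    exact ha1 k ⟨n, h2 n k hk⟩

/-- The recursion step. -/
theorem step_exists {F : Λ → ℕ → Finset ℕ} {D : Λ → Dat} {ξ : Λ}
    (hcount : {η | η < ξ}.Countable) (hG : ∀ η < ξ, Good F D η (D η)) : ∃ d, Good F D ξ d := by
  classical
  by_cases hcase : (∀ m n, m ≠ n → Disjoint (F ξ m) (F ξ n)) ∧ ∃ b : ℕ → ZMod 2,
      (∀ η < ξ, ∀ᶠ n in atTop, par ((D η).t n) b = 0) ∧ ∃ᶠ n in atTop, par (F ξ n) b ≠ 0
  · obtain ⟨hF, b, hb, hfreq⟩ := hcase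
    exact step_main hcount hG hF b hb hfreq
  · obtain ⟨Φ, hΦ1, hΦ2⟩ := exists_exhaust hcount
    have hGΦ : ∀ i, ∀ η ∈ Φ i, Good F D η (D η) := fun i η hη => hG η (hΦ1 i η hη)
    obtain ⟨c, hc⟩ := exists_seq_hist
      (fun (i : ℕ) (f : Fin i → ℕ) (a : ℕ) => (∀ j, f j < a) ∧ ∀ η ∈ Φ i, IsCut (D η).t a)
      (by
        intro i f
        obtain ⟨c, hc1, hc2⟩ := common_cut (Φ i) (hGΦ i) (Finset.univ.sup f + 1)
        refine ⟨c, fun j => ?_, hc2⟩
        have h1 : f j ≤ Finset.univ.sup f := Finset.le_sup (Finset.mem_univ j)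
        omega)
    refine ⟨⟨0, fun _ => ∅, c⟩, ?_, ?_, ?_, ?_, ?_, ?_, ?_⟩
    · intro η _
      exact Eventually.of_forall (fun n => by simp [par])
    · intro n; left; rfl
    · exact strictMono_nat_of_lt_succ (fun i => (hc (i + 1)).1 ⟨i, Nat.lt_succ_self i⟩)
    · intro i k hk
      simp at hk
    · intro η hη
      filter_upwards [hΦ2 η hη] with i hi
      exact (hc i).2 η hi
    · intro S hS
      refine (sfip S (fun η hη => hG η (hS η hη))).mono ?_
      intro k hk
      exact ⟨rfl, hk⟩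
    · intro hF
      right
      intro b hb
      by_contra hcon
      apply hcase
      refine ⟨hF, b, hb, ?_⟩
      rw [Filter.not_eventually] at hcon
      exact hcon

end Pool.Agent.Lib.MP_37efd7_lc
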