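import Pool.Agent.Lib.MP_37efd7_lc.NoConv
import Pool.Agent.Lib.MP_37efd7_lc.Defs

/-!
`GL(V)` modulo the finitary subgroup has a non-discrete Hausdorff group topology when `V` has
uncountable dimension over a finite field.
-/

namespace Pool.Agent.Lib.MP_37efd7_lc

open Module LinearMap Filter Topology
open scoped Pointwise

variable {F : Type*} [Field F] {V : Type*} [AddCommGroup V] [Module F V]

/-- The pointwise stabilizer of `A`. -/
def stab (A : Set V) : Set (Module.End F V)ˣ := {g | ∀ a ∈ A, g.val a = a}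

variable (F V) in
/-- The pointwise stabilizers of countable sets form a basis of a group topology. -/
def countBasis : GroupFilterBasis (Module.End F V)ˣ where
  sets := {U | ∃ A : Set V, A.Countable ∧ U = stab A}
  nonempty := ⟨stab ∅, ∅, Set.countable_empty, rfl⟩
  inter_sets := by
    rintro _ _ ⟨A, hA, rfl⟩ ⟨B, hB, rfl⟩
    refine ⟨stab (A ∪ B), ⟨A ∪ B, hA.union hB, rfl⟩, ?_⟩
    intro g hg
    exact ⟨fun a ha => hg a (Or.inl ha), fun a ha => hg a (Or.inr ha)⟩
  one' := by
    rintro _ ⟨A, hA, rfl⟩ a _
    rfl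
  mul' := by
    rintro _ ⟨A, hA, rfl⟩
    refine ⟨stab A, ⟨A, hA, rfl⟩, ?_⟩
    rintro _ ⟨g, hg, h, hh, rfl⟩ a ha
    change g.val (h.val a) = a
    rw [hh a ha, hg a ha]
  inv' := by
    rintro _ ⟨A, hA, rfl⟩
    refine ⟨stab A, ⟨A, hA, rfl⟩, ?_⟩
    intro g hg a ha
    change (g⁻¹ : (Module.End F V)ˣ).val a = a
    have h1 : (g⁻¹ : (Module.End F V)ˣ).val (g.val a) = a := by
      rw [← Module.End.mul_apply, Units.inv_mul, Module.End.one_apply]
    rw [hg a ha] at h1
    exact h1
  conj' := by
    rintro x₀ _ ⟨A, hA, rfl⟩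
    refine ⟨stab ((x₀⁻¹ : (Module.End F V)ˣ).val '' A), ⟨_, hA.image _, rfl⟩, ?_⟩
    intro g hg a ha
    change (x₀ * g * x₀⁻¹ : (Module.End F V)ˣ).val a = a
    have h1 := hg _ ⟨a, ha, rfl⟩
    rw [Units.val_mul, Units.val_mul, Module.End.mul_apply, Module.End.mul_apply, h1,
      ← Module.End.mul_apply, Units.mul_inv, Module.End.one_apply]

/-- A linearly independent sequence of values of an operator of infinite rank. -/
theorem exists_indep_values [Finite F] {T : Module.End F V} (hT : ¬ FinRank T) :
    ∃ v : ℕ → V, LinearIndependent F (fun i => T (v i)) := by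
  obtain ⟨v, hv⟩ := exists_generic (fun _ _ => T) (fun _ => 1) (by
    intro i c hc j hj
    simp only [Finset.range_one, Finset.sum_singleton] at hc
    have hj0 : j = 0 := by omega
    subst hj0
    by_contra hne
    apply hT
    have := hc.smul (c 0)⁻¹
    rwa [smul_smul, inv_mul_cancel₀ hne, one_smul] at this)
  refine ⟨v, ?_⟩
  exact LinearIndependent.comp hv (fun i : ℕ => (⟨(i, 0), Nat.zero_lt_one⟩ :
    {p : ℕ × ℕ | p.2 < 1})) (fun a b h => by
      have := congrArg (fun s : {p : ℕ × ℕ | p.2 < 1} => s.1.1) h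
      exact this)

theorem not_finRank_of_indep {T : Module.End F V} {v : ℕ → V}
    (hv : LinearIndependent F (fun i => T (v i))) : ¬ FinRank T := by
  intro hC
  have hfd : FiniteDimensional F (LinearMap.range T) := Module.Finite.iff_fg.mpr hC
  have hli2 : LinearIndependent F
      (fun i : ℕ => (⟨T (v i), LinearMap.mem_range_self T (v i)⟩ : LinearMap.range T)) := by
    apply LinearIndependent.of_comp (LinearMap.range T).subtype
    exact hv
  have := hli2.finite
  exact not_finite ℕ

theorem isClosed_finitary [Finite F] :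
    @IsClosed _ (countBasis F V).topology (finitary F V : Set (Module.End F V)ˣ) := by
  letI := (countBasis F V).topology
  rw [← isOpen_compl_iff, isOpen_iff_mem_nhds]
  intro g hg
  rw [((countBasis F V).nhds_hasBasis g).mem_iff]
  have hg' : ¬ FinRank (g.val - 1) := fun h => hg (mem_finitary.mpr h)
  obtain ⟨v, hv⟩ := exists_indep_values hg'
  refine ⟨stab (Set.range v), ⟨_, Set.countable_range v, rfl⟩, ?_⟩
  rintro _ ⟨h, hh, rfl⟩ hmem
  have hmem' : FinRank ((g * h : (Module.End F V)ˣ).val - 1) := mem_finitary.mp hmem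
  refine not_finRank_of_indep (v := v) ?_ hmem'
  have : (fun i => ((g * h : (Module.End F V)ˣ).val - 1) (v i))
      = fun i => (g.val - 1) (v i) := by
    funext i
    rw [LinearMap.sub_apply, LinearMap.sub_apply, Units.val_mul, Module.End.mul_apply,
      hh (v i) ⟨i, rfl⟩]
  rw [this]
  exact hv

/-- In uncountable dimension there is a square-zero operator of infinite rank that vanishes on a
given countable set. -/
theorem exists_squareZero [Finite F] (hV : Cardinal.aleph0 < Module.rank F V) (A : Set V)
    (hA : A.Countable) :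
    ∃ T : Module.End F V, T * T = 0 ∧ (∀ a ∈ A, T a = 0) ∧ ¬ FinRank T := by
  classical
  let W : Submodule F V := Submodule.span F A
  have hQ : ¬ FinRank (1 : Module.End F (V ⧸ W)) := by
    intro h
    have h1 : (⊤ : Submodule F (V ⧸ W)).FG := by
      have : LinearMap.range (1 : Module.End F (V ⧸ W)) = ⊤ :=
        LinearMap.range_eq_top.mpr (fun x => ⟨x, rfl⟩)
      rw [← this]; exact h
    have h2 : Module.Finite F (V ⧸ W) := ⟨h1⟩
    have h3 : Module.rank F (V ⧸ W) < Cardinal.aleph0 := Module.rank_lt_aleph0 F _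
    have h4 : Module.rank F W ≤ Cardinal.aleph0 :=
      (rank_span_le A).trans (Cardinal.mk_le_aleph0_iff.mpr hA.to_subtype)
    have h5 := rank_quotient_add_rank_of_divisionRing W
    have h6 : Module.rank F V ≤ Cardinal.aleph0 := by
      rw [← h5]
      exact Cardinal.add_le_aleph0.mpr ⟨h3.le, h4⟩
    exact absurd hV (not_lt.mpr h6)
  obtain ⟨d, hd⟩ := exists_indep_values hQ
  have hd' : LinearIndependent F d := hd
  obtain ⟨P0, hP0⟩ := exists_coord hd'
  choose c hc using fun i => Submodule.mkQ_surjective W (d i)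
  let P : V →ₗ[F] (ℕ →₀ F) := P0 ∘ₗ W.mkQ
  have hP : ∀ i, P (c i) = Finsupp.single i 1 := by
    intro i
    simp only [P, LinearMap.comp_apply, hc, hP0]
  have hPA : ∀ a ∈ A, P a = 0 := by
    intro a ha
    have : W.mkQ a = 0 := by
      rw [Submodule.mkQ_apply, Submodule.Quotient.mk_eq_zero]
      exact Submodule.subset_span ha
    simp only [P, LinearMap.comp_apply, this, map_zero]
  let τ : ℕ → V := fun i => if i % 2 = 0 then c (i + 1) else 0
  refine ⟨Op P τ, ?_, ?_, ?_⟩
  · rw [mul_Op]
    apply Op_zero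
    intro i
    by_cases h : i % 2 = 0
    · have h1 : τ i = c (i + 1) := by simp only [τ, h, if_true]
      rw [h1, Op_apply hP]
      have h2 : (i + 1) % 2 ≠ 0 := by omega
      simp only [τ, h2, if_false]
    · simp only [τ, h, if_false, map_zero]
  · intro a ha
    simp [Op, hPA a ha]
  · apply not_finRank_of_indep (v := fun i => c (2 * i))
    have h1 : (fun i => Op P τ (c (2 * i))) = fun i => c (2 * i + 1) := by
      funext i
      rw [Op_apply hP]
      have : (2 * i) % 2 = 0 := by omega
      simp only [τ, this, if_true]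
    rw [h1]
    have hc' : LinearIndependent F c := by
      apply LinearIndependent.of_comp W.mkQ
      have : W.mkQ ∘ c = d := by funext i; exact hc i
      rw [this]; exact hd'
    exact hc'.comp (fun i => 2 * i + 1) (fun a b h => by
      have : 2 * a + 1 = 2 * b + 1 := h
      omega)

theorem topologizable_GLmod [Finite F] (hV : Cardinal.aleph0 < Module.rank F V) :
    Topologizable (GLmod F V) := by
  letI := (countBasis F V).topology
  haveI : IsTopologicalGroup (Module.End F V)ˣ := (countBasis F V).isTopologicalGroup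
  haveI : IsClosed (finitary F V : Set (Module.End F V)ˣ) := isClosed_finitary
  refine ⟨inferInstance, inferInstance, inferInstance, ?_⟩
  intro hd
  have h1 : IsOpen ({1} : Set (GLmod F V)) := isOpen_discrete _
  have h2 : IsOpen ((QuotientGroup.mk : (Module.End F V)ˣ → GLmod F V) ⁻¹' {1}) :=
    h1.preimage QuotientGroup.continuous_mk
  have h3 : (QuotientGroup.mk : (Module.End F V)ˣ → GLmod F V) ⁻¹' {1} ∈ 𝓝 (1 : (Module.End F V)ˣ) :=
    h2.mem_nhds rfl
  rw [(countBasis F V).nhds_one_hasBasis.mem_iff] at h3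
  obtain ⟨_, ⟨A, hA, rfl⟩, hsub⟩ := h3
  obtain ⟨T, hT, hTA, hTr⟩ := exists_squareZero hV A hA
  have h4 : oneAdd T hT ∈ stab A := by
    intro a ha
    change (1 + T) a = a
    rw [LinearMap.add_apply, hTA a ha, add_zero, Module.End.one_apply]
  have h5 : (QuotientGroup.mk (oneAdd T hT) : GLmod F V) = 1 := hsub h4
  have h6 : oneAdd T hT ∈ finitary F V := (QuotientGroup.eq_one_iff _).mp h5
  rw [mem_finitary] at h6
  apply hTr
  have : (oneAdd T hT).val - 1 = T := by
    change (1 + T) - 1 = T
    abel
  rwa [this] at h6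

end Pool.Agent.Lib.MP_37efd7_lc
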