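import Pool.Agent.Lib.MP_37efd7_lc.Generic

/-!
The operators `X, Y, Z` attached to an independent sequence of invertible operators.
-/

namespace Pool.Agent.Lib.MP_37efd7_lc

open Module LinearMap

variable {F : Type*} [Field F] {V : Type*} [AddCommGroup V] [Module F V]

/-- The index set of the generic family. -/
abbrev Idx : Type := {p : ℕ × ℕ // p.2 < p.1 + 2}

theorem exists_coord {ι : Type*} {w : ι → V} (hw : LinearIndependent F w) :
    ∃ P : V →ₗ[F] (ι →₀ F), ∀ s, P (w s) = Finsupp.single s 1 := by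
  obtain ⟨P, hP⟩ := LinearMap.exists_extend (p := Submodule.span F (Set.range w)) hw.repr
  refine ⟨P, fun s => ?_⟩
  have h1 : P (w s) = hw.repr ⟨w s, Submodule.subset_span ⟨s, rfl⟩⟩ := by
    rw [← hP]; rfl
  rw [h1]
  exact hw.repr_eq_single s _ rfl

/-- The operator sending `w s` to `τ s`. -/
noncomputable def Op {ι : Type*} (P : V →ₗ[F] (ι →₀ F)) (τ : ι → V) : Module.End F V :=
  (Finsupp.linearCombination F τ) ∘ₗ P

theorem Op_apply {ι : Type*} {w : ι → V} {P : V →ₗ[F] (ι →₀ F)}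
    (hP : ∀ s, P (w s) = Finsupp.single s 1) (τ : ι → V) (s : ι) : Op P τ (w s) = τ s := by
  simp [Op, hP]

theorem mul_Op {ι : Type*} (P : V →ₗ[F] (ι →₀ F)) (B : Module.End F V) (τ : ι → V) :
    B * Op P τ = Op P (fun s => B (τ s)) := by
  ext v
  simp only [Op, Module.End.mul_apply, LinearMap.comp_apply, Finsupp.linearCombination_apply,
    Finsupp.sum, map_sum, map_smul]

theorem Op_zero {ι : Type*} (P : V →ₗ[F] (ι →₀ F)) (τ : ι → V) (h : ∀ s, τ s = 0) :
    Op P τ = 0 := by
  ext v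
  simp [Op, Finsupp.linearCombination_apply, Finsupp.sum, h]

theorem Op_sub {ι : Type*} (P : V →ₗ[F] (ι →₀ F)) (τ σ : ι → V) :
    Op P τ - Op P σ = Op P (fun s => τ s - σ s) := by
  ext v
  simp only [Op, LinearMap.sub_apply, LinearMap.comp_apply, Finsupp.linearCombination_apply,
    Finsupp.sum, smul_sub, Finset.sum_sub_distrib]

theorem finRank_Op (P : V →ₗ[F] (Idx →₀ F)) (τ : Idx → V) (N : ℕ)
    (h : ∀ s : Idx, N < s.1.1 → τ s = 0) : FinRank (Op P τ) := by
  have hfin : {s : Idx | s.1.1 ≤ N}.Finite := by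
    have h1 : ((Finset.range (N + 1) ×ˢ Finset.range (N + 2) : Finset (ℕ × ℕ)) :
        Set (ℕ × ℕ)).Finite := Finset.finite_toSet _
    refine (h1.preimage (Subtype.val_injective.injOn)).subset ?_
    rintro ⟨⟨a, b⟩, hab⟩ hs
    have hs' : a ≤ N := hs
    have hab' : b < a + 2 := hab
    simp only [Set.mem_preimage, Finset.coe_product, Finset.coe_range, Set.mem_prod, Set.mem_Iio]
    omega
  refine finRank_of_le (Submodule.fg_span (hfin.image τ)) ?_
  rintro _ ⟨v, rfl⟩
  simp only [Op, LinearMap.comp_apply, Finsupp.linearCombination_apply, Finsupp.sum]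
  apply Submodule.sum_mem
  intro s _
  by_cases hs : s.1.1 ≤ N
  · exact Submodule.smul_mem _ _ (Submodule.subset_span ⟨s, hs, rfl⟩)
  · rw [h s (by omega), smul_zero]; exact Submodule.zero_mem _

/-- The operators `1, g 0, g 1, ...`. -/
def opg (g : ℕ → (Module.End F V)ˣ) : ℕ → Module.End F V
  | 0 => 1
  | n + 1 => g n

/-- The operators `1, (g 0)⁻¹, (g 1)⁻¹, ...`. -/
def opi (g : ℕ → (Module.End F V)ˣ) : ℕ → Module.End F V
  | 0 => 1
  | n + 1 => ((g n)⁻¹ : (Module.End F V)ˣ)

theorem exists_word [Finite F] (g : ℕ → (Module.End F V)ˣ) (hg : ∀ m, IndepMod (opg g) m)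
    (hgi : ∀ m, IndepMod (opi g) m) :
    ∃ X Y Z C : Module.End F V, X * X = 0 ∧ Y * Y = 0 ∧ Z * Z = 0 ∧ Z * X = 0 ∧ Y * X = 0 ∧
      X * Y * Z = 0 ∧ ¬ FinRank C ∧
      (∀ n, FinRank (Y * ((g n)⁻¹ : (Module.End F V)ˣ).val * X)) ∧
      (∀ n, FinRank (X * (g n).val * Y * ((g n)⁻¹ : (Module.End F V)ˣ).val * Z - C)) := by
  classical
  let T : ℕ → ℕ → Module.End F V := fun i => if i % 3 = 0 then opg g else opi g
  obtain ⟨v, hv⟩ := exists_generic T (fun i => i + 2) (by
    intro i
    by_cases h : i % 3 = 0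
    · simp only [T, h, if_true]; exact hg _
    · simp only [T, h, if_false]; exact hgi _)
  let w : Idx → V := fun s => T s.1.1 s.1.2 (v s.1.1)
  have hw : LinearIndependent F w := hv
  obtain ⟨P, hP⟩ := exists_coord hw
  have hT0 : ∀ i, T i 0 = 1 := by
    intro i
    by_cases h : i % 3 = 0
    · simp only [T, h, if_true, opg]
    · simp only [T, h, if_false, opi]
  have w0 : ∀ i, w ⟨(i, 0), by omega⟩ = v i := by
    intro i
    change T i 0 (v i) = v i
    rw [hT0]; rfl
  -- value of an operator at `v i`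
  have hOp0 : ∀ (τ : Idx → V) (i : ℕ), Op P τ (v i) = τ ⟨(i, 0), by omega⟩ := by
    intro τ i
    rw [← w0 i]; exact Op_apply hP τ _
  have hOpg : ∀ (τ : Idx → V) (i n : ℕ) (_ : i % 3 = 0) (hn : n + 1 < i + 2),
      Op P τ ((g n : Module.End F V) (v i)) = τ ⟨(i, n + 1), hn⟩ := by
    intro τ i n hi hn
    have : (g n : Module.End F V) (v i) = w ⟨(i, n + 1), hn⟩ := by
      change _ = T i (n + 1) (v i)
      simp only [T, hi, if_true, opg]
    rw [this]; exact Op_apply hP τ _
  have hOpi : ∀ (τ : Idx → V) (i n : ℕ) (_ : i % 3 ≠ 0) (hn : n + 1 < i + 2),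
      Op P τ (((g n)⁻¹ : (Module.End F V)ˣ).val (v i)) = τ ⟨(i, n + 1), hn⟩ := by
    intro τ i n hi hn
    have : ((g n)⁻¹ : (Module.End F V)ˣ).val (v i) = w ⟨(i, n + 1), hn⟩ := by
      change _ = T i (n + 1) (v i)
      simp only [T, hi, if_false, opi]
    rw [this]; exact Op_apply hP τ _
  let τX : Idx → V := fun s => if s.1.1 % 3 = 0 ∧ s.1.2 ≠ 0 then v (s.1.1 + 2) else 0
  let τY : Idx → V := fun s => if s.1.1 % 3 = 1 ∧ s.1.2 ≠ 0 then v (s.1.1 - 1) else 0
  let τZ : Idx → V := fun s => if s.1.1 % 3 = 0 ∧ s.1.2 = 0 then v (s.1.1 + 1) else 0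
  let τC : Idx → V := fun s => if s.1.1 % 3 = 0 ∧ s.1.2 = 0 then v (s.1.1 + 2) else 0
  refine ⟨Op P τX, Op P τY, Op P τZ, Op P τC, ?_, ?_, ?_, ?_, ?_, ?_, ?_, ?_, ?_⟩
  · rw [mul_Op]
    apply Op_zero
    intro s
    by_cases h : s.1.1 % 3 = 0 ∧ s.1.2 ≠ 0
    · simp only [τX, h, and_self, if_true, ne_eq, not_false_eq_true]
      rw [hOp0]
      simp
    · simp only [τX, h, if_false, map_zero]
  · rw [mul_Op]
    apply Op_zero
    intro s
    by_cases h : s.1.1 % 3 = 1 ∧ s.1.2 ≠ 0
    · simp only [τY, h, and_self, if_true, ne_eq, not_false_eq_true]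
      rw [hOp0]
      simp
    · simp only [τY, h, if_false, map_zero]
  · rw [mul_Op]
    apply Op_zero
    intro s
    by_cases h : s.1.1 % 3 = 0 ∧ s.1.2 = 0
    · simp only [τZ, h, and_self, if_true]
      rw [hOp0]
      have : (s.1.1 + 1) % 3 ≠ 0 := by omega
      simp [this]
    · simp only [τZ, h, if_false, map_zero]
  · rw [mul_Op]
    apply Op_zero
    intro s
    by_cases h : s.1.1 % 3 = 0 ∧ s.1.2 ≠ 0
    · simp only [τX, h, and_self, if_true, ne_eq, not_false_eq_true]
      rw [hOp0]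
      have : (s.1.1 + 2) % 3 ≠ 0 := by omega
      simp [τZ, this]
    · simp only [τX, h, if_false, map_zero]
  · rw [mul_Op]
    apply Op_zero
    intro s
    by_cases h : s.1.1 % 3 = 0 ∧ s.1.2 ≠ 0
    · simp only [τX, h, and_self, if_true, ne_eq, not_false_eq_true]
      rw [hOp0]
      simp [τY]
    · simp only [τX, h, if_false, map_zero]
  · rw [mul_assoc, mul_Op, mul_Op]
    apply Op_zero
    intro s
    by_cases h : s.1.1 % 3 = 0 ∧ s.1.2 = 0
    · simp only [τZ, h, and_self, if_true]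
      rw [hOp0 τY]
      simp [τY]
    · simp only [τZ, h, if_false, map_zero]
  · -- `C` has infinite rank
    intro hC
    have hli : LinearIndependent F (fun i : ℕ => w ⟨(3 * i + 2, 0), by omega⟩) := by
      refine hw.comp (fun i : ℕ => (⟨(3 * i + 2, 0), by omega⟩ : Idx)) ?_
      intro a b hab
      have := congrArg (fun s : Idx => s.1.1) hab
      simp only at this
      omega
    have hrange : ∀ i : ℕ, w ⟨(3 * i + 2, 0), by omega⟩ ∈ LinearMap.range (Op P τC) := by
      intro i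
      refine ⟨v (3 * i), ?_⟩
      rw [hOp0, w0]
      have : (3 * i) % 3 = 0 := by omega
      simp [τC]
    have hfd : FiniteDimensional F (LinearMap.range (Op P τC)) := Module.Finite.iff_fg.mpr hC
    have hli2 : LinearIndependent F
        (fun i : ℕ => (⟨w ⟨(3 * i + 2, 0), by omega⟩, hrange i⟩ : LinearMap.range (Op P τC))) := by
      apply LinearIndependent.of_comp (LinearMap.range (Op P τC)).subtype
      exact hli
    have := hli2.finite
    exact not_finite ℕ
  · intro n
    rw [mul_Op]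
    apply finRank_Op P _ n
    intro s hs
    by_cases h : s.1.1 % 3 = 0 ∧ s.1.2 ≠ 0
    · simp only [τX, h, and_self, if_true, ne_eq, not_false_eq_true, Module.End.mul_apply]
      rw [hOpi τY (s.1.1 + 2) n (by omega) (by omega)]
      have : (s.1.1 + 2) % 3 ≠ 1 := by omega
      simp [τY, this]
    · simp only [τX, h, if_false, map_zero]
  · intro n
    rw [mul_Op, Op_sub]
    apply finRank_Op P _ n
    intro s hs
    by_cases h : s.1.1 % 3 = 0 ∧ s.1.2 = 0
    · simp only [τZ, τC, h, and_self, if_true, Module.End.mul_apply]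
      rw [hOpi τY (s.1.1 + 1) n (by omega) (by omega)]
      have h1 : (s.1.1 + 1) % 3 = 1 := by omega
      have h2 : τY ⟨(s.1.1 + 1, n + 1), by omega⟩ = v s.1.1 := by
        simp [τY, h1]
      rw [h2, hOpg τX s.1.1 n h.1 (by omega)]
      simp [τX, h.1]
    · simp only [τZ, τC, h, if_false, map_zero, sub_self]

end Pool.Agent.Lib.MP_37efd7_lc
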